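import Mathlib

namespace Pool.Agent.H.MP_e056c9_an

open Polynomial Filter Topology Finset

noncomputable def Q (s : Finset ℝ) (w : ℝ → ℝ) (q : ℝ[X]) : ℝ := ∑ x ∈ s, w x * q.eval x ^ 2

noncomputable def hm (s : Finset ℝ) (w : ℝ → ℝ) (m : ℕ) : ℝ :=
  ⨅ q : {q : ℝ[X] // q.Monic ∧ q.natDegree = m}, Q s w q

instance (m : ℕ) : Nonempty {q : ℝ[X] // q.Monic ∧ q.natDegree = m} :=
  ⟨⟨X ^ m, monic_X_pow m, natDegree_X_pow m⟩⟩

variable {s : Finset ℝ} {w w' : ℝ → ℝ} {m : ℕ}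

lemma Q_nn (h : ∀ x ∈ s, 0 ≤ w x) (q : ℝ[X]) : 0 ≤ Q s w q :=
  sum_nonneg fun x hx => mul_nonneg (h x hx) (sq_nonneg _)

lemma hm_le (h : ∀ x ∈ s, 0 ≤ w x) {q : ℝ[X]} (h1 : q.Monic) (h2 : q.natDegree = m) :
    hm s w m ≤ Q s w q :=
  ciInf_le (f := fun q : {q : ℝ[X] // q.Monic ∧ q.natDegree = m} => Q s w q)
    ⟨0, by rintro _ ⟨q, rfl⟩; exact Q_nn h _⟩ ⟨q, h1, h2⟩

lemma le_hm {c : ℝ} (h : ∀ q : ℝ[X], q.Monic → q.natDegree = m → c ≤ Q s w q) : c ≤ hm s w m :=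
  le_ciInf fun q => h q q.2.1 q.2.2

lemma hm_nn (h : ∀ x ∈ s, 0 ≤ w x) : 0 ≤ hm s w m := le_hm fun q _ _ => Q_nn h q

lemma le_mul_hm {c L : ℝ} (hL : 0 < L)
    (h : ∀ q : ℝ[X], q.Monic → q.natDegree = m → c ≤ L * Q s w q) : c ≤ L * hm s w m := by
  rw [← div_le_iff₀' hL]
  exact le_hm fun q a b => (div_le_iff₀' hL).2 (h q a b)

lemma Q_le {L : ℝ} (h : ∀ x ∈ s, w x ≤ L * w' x) (q : ℝ[X]) : Q s w q ≤ L * Q s w' q := by
  rw [Q, Q, mul_sum]
  exact sum_le_sum fun x hx => by rw [← mul_assoc]; gcongr; exact h x hx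

lemma hm_top {L : ℝ} (hL : 0 < L) (h0 : ∀ x ∈ s, 0 ≤ w x) (h : ∀ x ∈ s, w x ≤ L * w' x) :
    hm s w m ≤ L * hm s w' m :=
  le_mul_hm hL fun q a b => (hm_le h0 a b).trans (Q_le h q)

def OP (s : Finset ℝ) (w : ℝ → ℝ) (m : ℕ) (p : ℝ[X]) : Prop :=
  p.Monic ∧ p.natDegree = m ∧ ∀ q : ℝ[X], q.degree < m → ∑ x ∈ s, w x * p.eval x * q.eval x = 0

lemma OP.eq {p : ℝ[X]} (H : OP s w m p) (h : ∀ x ∈ s, 0 ≤ w x) : hm s w m = Q s w p := by
  refine le_antisymm (hm_le h H.1 H.2.1) (le_hm fun q a b => ?_)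
  have d : (q - p).degree < m := by
    rw [← b, ← degree_eq_natDegree a.ne_zero]
    exact degree_sub_lt_left (by rw [degree_eq_natDegree a.ne_zero, degree_eq_natDegree H.1.ne_zero,
      b, H.2.1]) a.ne_zero (a.leadingCoeff.trans H.1.leadingCoeff.symm)
  have e : Q s w q = Q s w p + 2 * ∑ x ∈ s, w x * p.eval x * (q - p).eval x + Q s w (q - p) := by
    simp only [Q, mul_sum, ← sum_add_distrib, eval_sub]
    exact sum_congr rfl fun x _ => by ring
  rw [e, H.2.2 _ d]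
  linarith [Q_nn h (q - p)]

lemma zero_of_Q (h : ∀ x ∈ s, 0 < w x) {q : ℝ[X]} (e : Q s w q = 0) : ∀ x ∈ s, q.eval x = 0 :=
  fun x hx => by
    simpa [(h x hx).ne'] using (sum_eq_zero_iff_of_nonneg fun x hx =>
      mul_nonneg (h x hx).le (sq_nonneg _)).1 e x hx

lemma exOP (h : ∀ x ∈ s, 0 < w x) (hm : m ≤ s.card) : ∃ p, OP s w m p := by
  let f : degreeLT ℝ (m + 1) →ₗ[ℝ] (Fin m → ℝ) := (LinearMap.pi fun i : Fin m =>
    ∑ x ∈ s, (w x * x ^ (i : ℕ)) • leval x) ∘ₗ (degreeLT ℝ (m + 1)).subtype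
  obtain ⟨p, p1, p0⟩ := Submodule.exists_mem_ne_zero_of_ne_bot (LinearMap.ker_ne_bot_of_finrank_lt
    (f := f) (by simp [(degreeLTEquiv ℝ (m + 1)).finrank_eq]))
  have o : ∀ q : ℝ[X], q.degree < m → ∑ x ∈ s, w x * (p : ℝ[X]).eval x * q.eval x = 0 := by
    intro q hq
    by_cases q0 : q = 0
    · simp [q0]
    simp only [q.eval_eq_sum_range' ((natDegree_lt_iff_degree_lt q0).2 hq), mul_sum]
    rw [sum_comm]
    refine sum_eq_zero fun i hi => ?_
    have := congrFun (LinearMap.mem_ker.1 p1) ⟨i, mem_range.1 hi⟩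
    simp only [f, LinearMap.comp_apply, LinearMap.pi_apply, LinearMap.sum_apply,
      LinearMap.smul_apply, leval_apply, Submodule.subtype_apply, Pi.zero_apply, smul_eq_mul] at this
    rw [← mul_zero (q.coeff i), ← this, mul_sum]
    exact sum_congr rfl fun x _ => by ring
  have p2 : (p : ℝ[X]) ≠ 0 := fun e => p0 (Subtype.ext e)
  have d : (p : ℝ[X]).natDegree = m := by
    have a := (natDegree_lt_iff_degree_lt p2).2 (mem_degreeLT.1 p.2)
    by_contra b
    have c := (natDegree_lt_iff_degree_lt p2).1 (show (p : ℝ[X]).natDegree < m by omega)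
    refine p2 (eq_zero_of_degree_lt_of_eval_finset_eq_zero s (c.trans_le (by exact_mod_cast hm))
      (zero_of_Q h ?_))
    rw [← o _ c]
    exact sum_congr rfl fun x _ => by ring
  refine ⟨p * C (p : ℝ[X]).leadingCoeff⁻¹, monic_mul_leadingCoeff_inv p2,
    (natDegree_mul_leadingCoeff_inv _ p2).trans d, fun q hq => ?_⟩
  rw [← mul_zero (p : ℝ[X]).leadingCoeff⁻¹, ← o q hq, mul_sum]
  exact sum_congr rfl fun x _ => by simp; ring

lemma zeros {p : ℝ[X]} (h : p ≠ 0) : (s.filter fun x => p.eval x = 0).card ≤ p.natDegree :=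
  (card_le_card fun x hx => Multiset.mem_toFinset.2 ((mem_roots h).2 (mem_filter.1 hx).2)).trans
    ((Multiset.toFinset_card_le _).trans (card_roots' p))

lemma OP.supp {p : ℝ[X]} (H : OP s w m p) (h : ∀ x ∈ s, 0 < w x) (hm : m < s.card) :
    m < (s.filter fun x => p.eval x ≠ 0).card := by
  by_contra k
  have a := zeros (s := s) H.1.ne_zero
  have b := card_filter_add_card_filter_not (s := s) fun x => p.eval x = 0
  obtain ⟨y, hy⟩ := card_pos.1 (show 0 < (s.filter fun x => p.eval x ≠ 0).card by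
    rw [H.2.1] at a; simp only [ne_eq]; omega)
  have c := card_erase_add_one hy
  have := H.2.2 (Lagrange.nodal ((s.filter fun x => p.eval x ≠ 0).erase y) id)
    (by rw [Lagrange.degree_nodal]; exact_mod_cast (c ▸ not_lt.1 k : _ + 1 ≤ m))
  rw [sum_eq_single y (fun x hx e => ?_) fun e => absurd (mem_filter.1 hy).1 e] at this
  · exact mul_ne_zero (mul_ne_zero (h y (mem_filter.1 hy).1).ne' (mem_filter.1 hy).2)
      (Lagrange.eval_nodal_not_at_node fun i hi => (ne_of_mem_erase hi).symm) this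
  · by_cases l : p.eval x = 0
    · simp [l]
    · exact mul_eq_zero_of_right _ (Lagrange.eval_nodal_at_node (v := id)
        (mem_erase.2 ⟨e, mem_filter.2 ⟨hx, l⟩⟩))

lemma hm_pos (h : ∀ x ∈ s, 0 < w x) (k : m < s.card) : 0 < hm s w m := by
  obtain ⟨p, H⟩ := exOP h k.le
  rw [H.eq fun x hx => (h x hx).le]
  refine (Q_nn (fun x hx => (h x hx).le) p).lt_of_ne' fun e => ?_
  obtain ⟨y, hy⟩ := card_pos.1 ((Nat.zero_le _).trans_lt (H.supp h k))
  exact (mem_filter.1 hy).2 (zero_of_Q h e y (mem_filter.1 hy).1)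

lemma OP.ext {p : ℝ[X]} (H : OP s w m p) (h : ∀ x ∈ s, 0 < w x) (hm : m < s.card) {z : ℝ}
    (hz : (∀ x ∈ s, x ≤ z) ∨ ∀ x ∈ s, z ≤ x) : p.eval z ≠ 0 := fun e => by
  obtain ⟨q, hq⟩ := dvd_iff_isRoot.2 e
  have q0 : q ≠ 0 := by rintro rfl; exact H.1.ne_zero (by simpa using hq)
  have := H.2.2 q (by
    rw [← natDegree_lt_iff_degree_lt q0, ← H.2.1, hq, natDegree_mul (X_sub_C_ne_zero z) q0]; simp)
  obtain ⟨y, hy⟩ := card_pos.1 ((Nat.zero_le _).trans_lt (H.supp h hm))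
  obtain ⟨y1, y2⟩ := mem_filter.1 hy
  have f : ∀ x, w x * p.eval x * q.eval x = w x * q.eval x ^ 2 * (x - z) := fun x => by
    rw [hq]; simp; ring
  have : w y * p.eval y * q.eval y = 0 := by
    rcases hz with k | k
    · exact (sum_eq_zero_iff_of_nonpos fun x hx => f x ▸ mul_nonpos_of_nonneg_of_nonpos
        (mul_nonneg (h x hx).le (sq_nonneg _)) (sub_nonpos.2 (k x hx))).1 this y y1
    · exact (sum_eq_zero_iff_of_nonneg fun x hx => f x ▸ mul_nonneg
        (mul_nonneg (h x hx).le (sq_nonneg _)) (sub_nonneg.2 (k x hx))).1 this y y1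
  rw [mul_eq_zero, mul_eq_zero] at this
  rcases this with (k | k) | k
  exacts [(h y y1).ne' k, y2 k, y2 (by rw [hq]; simp [k])]

lemma OP.prop {p : ℝ[X]} (H : OP s w' m p) (h' : ∀ x ∈ s, 0 < w' x) (h0 : ∀ x ∈ s, 0 ≤ w x)
    {L : ℝ} (h : ∀ x ∈ s, w x ≤ L * w' x) (e : L * hm s w' m ≤ hm s w m) :
    ∀ x ∈ s, p.eval x ≠ 0 → w x = L * w' x := fun x hx k => by
  have a := e.trans (hm_le h0 H.1 H.2.1)
  rw [H.eq fun x hx => (h' x hx).le, Q, Q, mul_sum] at a
  have l : ∀ x ∈ s, w x * p.eval x ^ 2 ≤ L * (w' x * p.eval x ^ 2) := fun x hx => by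
    rw [← mul_assoc]; gcongr; exact h x hx
  have := (sum_eq_sum_iff_of_le l).1 (le_antisymm (sum_le_sum l) a) x hx
  exact mul_right_cancel₀ (pow_ne_zero 2 k) (this.trans (mul_assoc _ _ _).symm)

lemma hm_tendsto {ι : Type} {l : Filter ι} {v : ι → ℝ → ℝ} (h0 : ∀ i, ∀ x ∈ s, 0 ≤ v i x)
    (h1 : ∀ x ∈ s, 0 ≤ w x) (h : ∀ x ∈ s, Tendsto (fun i => v i x) l (𝓝 (w x))) :
    Tendsto (fun i => hm s (v i) m) l (𝓝 (hm s w m)) := by
  refine tendsto_order.2 ⟨fun a ha => ?_, fun a ha => ?_⟩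
  · obtain ⟨L, L1, L2⟩ : ∃ L > 1, L * a < hm s w m :=
      ((eventually_mem_nhdsWithin (s := Set.Ioi (1 : ℝ)) (a := 1)).and
        (((continuous_mul_const a).tendsto 1).mono_left nhdsWithin_le_nhds |>.eventually
          (gt_mem_nhds (by simpa)))).exists
    filter_upwards [(eventually_all_finset s).2 fun x hx => show ∀ᶠ i in l, w x ≤ L * v i x from by
      rcases (h1 x hx).eq_or_lt with e | e
      · exact Eventually.of_forall fun i => e ▸ mul_nonneg (by linarith) (h0 i x hx)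
      · exact ((h x hx).const_mul L).eventually (le_mem_nhds (by nlinarith))] with i hi
    exact lt_of_mul_lt_mul_left (L2.trans_le (hm_top (by linarith) h1 hi)) (by linarith)
  · obtain ⟨q, hq⟩ := exists_lt_of_ciInf_lt ha
    have : Tendsto (fun i => Q s (v i) q) l (𝓝 (Q s w q)) :=
      tendsto_finsetSum _ fun x hx => (h x hx).mul_const _
    filter_upwards [this.eventually (gt_mem_nhds hq)] with i hi
    exact (hm_le (h0 i) q.2.1 q.2.2).trans_lt hi

lemma hm_sub {t : Finset ℝ} (h : t ⊆ s) (e : ∀ x ∈ s, x ∉ t → w x = 0) : hm s w m = hm t w m := by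
  unfold hm Q
  congr 1; ext q
  exact (sum_subset h fun x a b => by rw [e x a b, zero_mul]).symm

lemma unif {ι : Type} (S : Finset ι) {p : ι → ℝ → Prop} (h : ∀ i ∈ S, ∃ c > 0, p i c)
    (mo : ∀ i a b, 0 < b → b ≤ a → p i a → p i b) : ∃ c > 0, ∀ i ∈ S, p i c := by
  refine ((eventually_mem_nhdsWithin (s := Set.Ioi (0 : ℝ)) (a := 0)).and
    ((eventually_all_finset S).2 fun i hi => ?_)).exists
  obtain ⟨c, c0, hc⟩ := h i hi
  filter_upwards [Ioc_mem_nhdsGT c0] with b hb using mo i c b hb.1 hb.2 hc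

lemma scl (s : Finset ℝ) {a : ℝ → ℝ} (ha : ∀ x ∈ s, 0 < a x) (M : ℕ) : ∃ c > 0,
    ∀ (y : ℝ → ℝ), (∀ x ∈ s, 0 ≤ y x) → ∀ m ≤ M, ∀ σ ≥ 0,
      (m < (s.filter fun x => σ ≤ y x).card → c * σ ≤ hm s (fun x => a x * y x) m) ∧
      ((s.filter fun x => σ < y x).card ≤ m → c * hm s (fun x => a x * y x) m ≤ σ) := by
  obtain ⟨c, c0, hc⟩ := unif (s.powerset ×ˢ range (M + 1)) (p := fun i c => (i.2 < i.1.card →
      c ≤ hm i.1 a i.2) ∧ c * Q s a (Lagrange.nodal i.1 id * X ^ (i.2 - i.1.card)) ≤ 1)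
    (fun i hi => by
      have s1 := mem_powerset.1 (mem_product.1 hi).1
      have q0 := Q_nn (fun x hx => (ha x hx).le) (Lagrange.nodal i.1 id * X ^ (i.2 - i.1.card))
      have b : ∀ c ≤ 1 / (Q s a (Lagrange.nodal i.1 id * X ^ (i.2 - i.1.card)) + 1),
          c * Q s a (Lagrange.nodal i.1 id * X ^ (i.2 - i.1.card)) ≤ 1 := fun c hc => by
        refine (mul_le_mul_of_nonneg_right hc q0).trans ?_
        rw [div_mul_eq_mul_div, div_le_one (by linarith)]; linarith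
      by_cases k : i.2 < i.1.card
      · exact ⟨_, lt_min (hm_pos (fun x hx => ha x (s1 hx)) k) (by positivity),
          fun _ => min_le_left _ _, b _ (min_le_right _ _)⟩
      · exact ⟨_, by positivity, fun l => absurd l k, b _ le_rfl⟩)
    fun i a' b b0 ba h => ⟨fun k => ba.trans (h.1 k), (mul_le_mul_of_nonneg_right ba
      (Q_nn (fun x hx => (ha x hx).le) _)).trans h.2⟩
  refine ⟨c, c0, fun y hy m hM σ h0 => ⟨fun k => le_hm fun q a1 a2 => ?_, fun k => ?_⟩⟩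
  · have := (hc (_, m) (mem_product.2 ⟨mem_powerset.2 (filter_subset _ s), mem_range_succ_iff.2 hM⟩)).1 k
    have b := this.trans (hm_le (fun x hx => (ha x (mem_filter.1 hx).1).le) a1 a2)
    calc c * σ ≤ Q (s.filter fun x => σ ≤ y x) a q * σ := by gcongr
      _ ≤ Q (s.filter fun x => σ ≤ y x) (fun x => a x * y x) q := by
        rw [Q, Q, sum_mul]
        refine sum_le_sum fun x hx => ?_
        rw [mul_right_comm]
        gcongr
        exacts [(ha x (mem_filter.1 hx).1).le, (mem_filter.1 hx).2]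
      _ ≤ _ := sum_le_sum_of_subset_of_nonneg (filter_subset _ _) fun x hx _ =>
        mul_nonneg (mul_nonneg (ha x hx).le (hy x hx)) (sq_nonneg _)
  · set G := s.filter fun x => σ < y x with hG
    have := (hc (G, m) (mem_product.2 ⟨mem_powerset.2 (filter_subset _ s), mem_range_succ_iff.2 hM⟩)).2
    have mo : (Lagrange.nodal G id * X ^ (m - G.card) : ℝ[X]).Monic :=
      Lagrange.nodal_monic.mul (monic_X_pow _)
    have b := hm_le (s := s) (w := fun x => a x * y x) (m := m)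
      (fun x hx => mul_nonneg (ha x hx).le (hy x hx)) mo (by
        rw [Lagrange.nodal_monic.natDegree_mul (monic_X_pow _), Lagrange.natDegree_nodal,
          natDegree_X_pow]; omega)
    have e : Q s (fun x => a x * y x) (Lagrange.nodal G id * X ^ (m - G.card)) ≤
        σ * Q s a (Lagrange.nodal G id * X ^ (m - G.card)) := by
      rw [Q, Q, mul_sum]
      refine sum_le_sum fun x hx => ?_
      by_cases l : x ∈ G
      · simp [show (Lagrange.nodal G id).eval x = 0 from Lagrange.eval_nodal_at_node (v := id) l]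
      · rw [← mul_assoc, mul_comm σ]
        gcongr
        exacts [(ha x hx).le, not_lt.1 fun k => l (mem_filter.2 ⟨hx, k⟩)]
    nlinarith [mul_le_mul_of_nonneg_left (b.trans e) c0.le]

lemma ib (N : Finset ℝ) (s : Finset ℝ) : ∃ C > 0, ∀ e : ℝ[X], e.degree < N.card →
    ∑ x ∈ s, e.eval x ^ 2 ≤ C * ∑ x ∈ N, e.eval x ^ 2 := by
  refine ⟨∑ x ∈ s, ∑ i ∈ N, (Lagrange.basis N id i).eval x ^ 2 + 1, by positivity, fun e he => ?_⟩
  rw [add_mul, sum_mul]
  refine le_add_of_le_of_nonneg (sum_le_sum fun x _ => ?_) (by positivity)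
  conv_lhs => rw [Lagrange.eq_interpolate (s := N) (v := id) (Set.injOn_id _) he]
  simp only [Lagrange.interpolate_apply, eval_finsetSum, eval_mul, eval_C, id]
  rw [mul_comm]
  exact sum_mul_sq_le_sq_mul_sq _ _ _

lemma sep {N : Finset ℝ} (hN : N ⊆ s) {β ε : ℝ} (hβ : 0 < β) (hε : 0 < ε) : ∃ θ > 0,
    ∀ w : ℝ → ℝ, (∀ x ∈ N, β ≤ w x) → (∀ x ∈ s, x ∉ N → 0 ≤ w x ∧ w x ≤ θ) → ∀ q : ℝ[X],
      (q.degree < N.card → Q s w q ≤ (1 + ε) * Q N w q) ∧
      Q s w (q - Lagrange.interpolate N id q.eval) ≤ (1 + ε) * Q s w q := by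
  obtain ⟨C, C0, hC⟩ := ib N (s \ N)
  obtain ⟨δ, d0, d1, d2⟩ : ∃ δ > 0, δ ≤ 1 ∧ 3 * δ ≤ ε :=
    ⟨min 1 (ε / 3), by positivity, min_le_left _ _, by linarith [min_le_right 1 (ε / 3)]⟩
  refine ⟨δ ^ 2 * β / C, by positivity, fun w h1 h2 q => ?_⟩
  have sp : ∀ q, Q s w q = Q (s \ N) w q + Q N w q := fun q => (sum_sdiff hN).symm
  have k : ∀ e : ℝ[X], e.degree < N.card → Q (s \ N) w e ≤ δ ^ 2 * Q N w e := fun e he => by
    calc _ ≤ δ ^ 2 * β / C * ∑ x ∈ s \ N, e.eval x ^ 2 := by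
          rw [Q, mul_sum]
          exact sum_le_sum fun x hx => by gcongr; exact (h2 x (mem_sdiff.1 hx).1 (mem_sdiff.1 hx).2).2
      _ ≤ δ ^ 2 * β / C * (C * ∑ x ∈ N, e.eval x ^ 2) := by gcongr; exact hC e he
      _ = δ ^ 2 * ∑ x ∈ N, β * e.eval x ^ 2 := by rw [← mul_sum]; field_simp
      _ ≤ _ := by unfold Q; gcongr with x hx; exact h1 x hx
  have n1 := Q_nn (fun x hx => hβ.le.trans (h1 x hx)) q
  have w2 : ∀ x ∈ s \ N, 0 ≤ w x := fun x hx => (h2 x (mem_sdiff.1 hx).1 (mem_sdiff.1 hx).2).1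
  have n2 := Q_nn w2 q
  refine ⟨fun hq => by rw [sp]; nlinarith [k q hq, mul_nonneg d0.le n1], ?_⟩
  set e := Lagrange.interpolate N id q.eval with he
  have ev : ∀ x ∈ N, e.eval x = q.eval x := fun x hx =>
    Lagrange.eval_interpolate_at_node (v := id) _ (Set.injOn_id _) hx
  have a := k e (Lagrange.degree_interpolate_lt _ (Set.injOn_id _))
  have b : Q N w e = Q N w q := sum_congr rfl fun x hx => by rw [ev x hx]
  have c : Q N w (q - e) = 0 := sum_eq_zero fun x hx => by simp [ev x hx]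
  have f : δ * Q (s \ N) w (q - e) ≤ δ * (1 + δ) * Q (s \ N) w q + (1 + δ) * Q (s \ N) w e := by
    simp only [Q, mul_sum, ← sum_add_distrib, eval_sub]
    refine sum_le_sum fun x hx => ?_
    nlinarith [mul_nonneg (w2 x hx) (sq_nonneg (δ * q.eval x + e.eval x))]
  rw [sp, sp q, c, add_zero]
  refine le_of_mul_le_mul_left (f.trans ?_) d0
  rw [b] at a
  nlinarith [mul_le_mul_of_nonneg_left a (show 0 ≤ 1 + δ by linarith), mul_nonneg d0.le n1,
    mul_nonneg d0.le n2, mul_nonneg (mul_nonneg d0.le d0.le) n1, mul_nonneg (mul_nonneg d0.le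
      (sub_nonneg.2 d2)) n1, mul_nonneg (mul_nonneg d0.le (sub_nonneg.2 d2)) n2,
    mul_nonneg (mul_nonneg d0.le (mul_nonneg d0.le (sub_nonneg.2 d1))) n1]

lemma ord (s : Finset ℝ) (y : ℝ → ℝ) {m : ℕ} (h : m < s.card) : ∃ x ∈ s,
    m < (s.filter fun c => y x ≤ y c).card ∧ (s.filter fun c => y x < y c).card ≤ m := by
  obtain ⟨x, hx, k⟩ := exists_max_image (s.filter fun x => m < (s.filter fun c => y x ≤ y c).card) y (by
    obtain ⟨x, hx, k⟩ := exists_min_image s y (card_pos.1 (by omega))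
    exact ⟨x, mem_filter.2 ⟨hx, by rwa [filter_true_of_mem k]⟩⟩)
  refine ⟨x, (mem_filter.1 hx).1, (mem_filter.1 hx).2, not_lt.1 fun l => ?_⟩
  obtain ⟨z, hz, j⟩ := exists_min_image (s.filter fun c => y x < y c) y (card_pos.1 (by omega))
  exact (k z (mem_filter.2 ⟨(mem_filter.1 hz).1, l.trans_le (card_le_card fun c hc =>
    mem_filter.2 ⟨(mem_filter.1 hc).1, j c hc⟩)⟩)).not_gt (mem_filter.1 hz).2

end Pool.Agent.H.MP_e056c9_an
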