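import Pool.Agent.H.MP_e056c9_an.A

namespace Pool.Agent.H.MP_e056c9_an

open Polynomial Filter Topology Finset

structure Geo (T : ℝ → ℝ) (C : Finset ℝ) (X : Set ℝ) (a : ℝ → ℝ → ℝ) (b : ℝ → ℝ) : Prop where
  mapX : ∀ z ∈ X, T z ∈ X
  cX : ∀ c ∈ C, T c ∈ X
  ext : ∀ z ∈ X, (∀ c ∈ C, c < z) ∨ ∀ c ∈ C, z < c
  fin : ∀ R, {z ∈ X | |z| ≤ R}.Finite
  apos : ∀ z ∈ X, ∀ x ∈ insert z C, 0 < a z x
  bpos : ∀ c ∈ C, 0 < b c
  esc : ∃ c ∈ C, Tendsto (fun l => |T^[l] (T c)|) atTop atTop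

def St (X : Set ℝ) (K : ℝ) (u : ℝ → ℝ) : Prop := ∀ z ∈ X, 0 ≤ u z ∧ |u z - (|z|)| ≤ K

noncomputable def eta (T : ℝ → ℝ) (C : Finset ℝ) (b : ℝ → ℝ) : ℕ → (ℝ → ℝ) → ℝ
  | 0, _ => 1
  | m + 1, u => hm C (fun c => b c * u (T c)) m

def Rel (T : ℝ → ℝ) (C : Finset ℝ) (X : Set ℝ) (a : ℝ → ℝ → ℝ) (b : ℝ → ℝ) (m : ℕ)
    (u v : ℝ → ℝ) : Prop :=
  m ≤ C.card ∧ ∀ z ∈ X, v z * eta T C b m u = hm (insert z C) (fun x => a z x * u (T x)) m

def Le (X : Set ℝ) (u v : ℝ → ℝ) (L : ℝ) : Prop := 1 ≤ L ∧ ∀ z ∈ X, u z ≤ L * v z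

def Cl (X : Set ℝ) (u v : ℝ → ℝ) (γ : ℝ) : Prop := ∃ L L', Le X u v L ∧ Le X v u L' ∧ L * L' ≤ γ

def Ex (X : Set ℝ) (u v : ℝ → ℝ) (L : ℝ) : Option ℝ → Prop
  | none => L = 1
  | some z => z ∈ X ∧ u z = L * v z

variable {T : ℝ → ℝ} {C : Finset ℝ} {X : Set ℝ} {a : ℝ → ℝ → ℝ} {b : ℝ → ℝ} {K L γ : ℝ} {m : ℕ}
  {u v u' v' : ℝ → ℝ}

lemma Geo.nm (G : Geo T C X a b) {z : ℝ} (hz : z ∈ X) : z ∉ C := fun h =>
  (G.ext z hz).elim (fun k => (k z h).false) fun k => (k z h).false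

lemma Geo.tx (G : Geo T C X a b) {z : ℝ} (hz : z ∈ X) : ∀ x ∈ insert z C, T x ∈ X := fun x hx =>
  (mem_insert.1 hx).elim (fun e => e ▸ G.mapX z hz) (G.cX x)

lemma Geo.eta_pos (G : Geo T C X a b) (hm : m ≤ C.card) (p : ∀ z ∈ X, 0 < u z) :
    0 < eta T C b m u := by
  cases m
  exacts [one_pos, hm_pos (fun c hc => mul_pos (G.bpos c hc) (p _ (G.cX c hc))) hm]

lemma Geo.eta_le (G : Geo T C X a b) (p : ∀ z ∈ X, 0 < u z) (h : Le X u u' L) (m : ℕ) :
    eta T C b m u ≤ L * eta T C b m u' := by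
  cases m
  · simpa [eta] using h.1
  · exact hm_top (by linarith [h.1]) (fun c hc => (mul_pos (G.bpos c hc) (p _ (G.cX c hc))).le)
      fun c hc => by rw [mul_left_comm]; gcongr; exacts [(G.bpos c hc).le, h.2 _ (G.cX c hc)]

lemma Geo.pos (G : Geo T C X a b) (R : Rel T C X a b m u v) (p : ∀ z ∈ X, 0 < u z) :
    ∀ z ∈ X, 0 < v z := fun z hz => by
  have := hm_pos (fun x hx => mul_pos (G.apos z hz x hx) (p _ (G.tx hz x hx)))
    (show m < _ by rw [card_insert_of_notMem (G.nm hz)]; linarith [R.1])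
  rw [← R.2 z hz] at this
  exact (pos_iff_pos_of_mul_pos this).2 (G.eta_pos R.1 p)

lemma Geo.step (G : Geo T C X a b) (R : Rel T C X a b m u v) (R' : Rel T C X a b m u' v')
    (p : ∀ z ∈ X, 0 < u z) (h : Le X u u' L) :
    Le X v v' (L * eta T C b m u' / eta T C b m u) := by
  have e := G.eta_pos R.1 p
  refine ⟨(one_le_div e).2 (G.eta_le p h m), fun z hz => ?_⟩
  rw [div_mul_eq_mul_div, le_div_iff₀ e, R.2 z hz, mul_assoc, mul_comm _ (v' z), R'.2 z hz]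
  exact hm_top (by linarith [h.1]) (fun x hx => (mul_pos (G.apos z hz x hx) (p _ (G.tx hz x hx))).le)
    fun x hx => by rw [mul_left_comm]; gcongr; exacts [(G.apos z hz x hx).le, h.2 _ (G.tx hz x hx)]

lemma Geo.cl (G : Geo T C X a b) (R : Rel T C X a b m u v) (R' : Rel T C X a b m u' v')
    (p : ∀ z ∈ X, 0 < u z) (p' : ∀ z ∈ X, 0 < u' z) (h : Cl X u u' γ) : Cl X v v' γ := by
  obtain ⟨L, L', h1, h2, h3⟩ := h
  refine ⟨_, _, G.step R R' p h1, G.step R' R p' h2, le_of_eq_of_le ?_ h3⟩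
  have := G.eta_pos R.1 p
  have := G.eta_pos R.1 p'
  field_simp

lemma Cl.mono {γ' : ℝ} (h : Cl X u v γ) (k : γ ≤ γ') : Cl X u v γ' :=
  h.imp fun _ h => h.imp fun _ h => ⟨h.1, h.2.1, h.2.2.trans k⟩

lemma Cl.le (h : Cl X u v γ) (p : ∀ z ∈ X, 0 ≤ u z ∧ 0 ≤ v z) :
    1 ≤ γ ∧ ∀ z ∈ X, u z ≤ γ * v z ∧ v z ≤ γ * u z := by
  obtain ⟨L, L', h1, h2, h3⟩ := h
  have a : L ≤ γ := by nlinarith [h1.1, h2.1]
  have b : L' ≤ γ := by nlinarith [h1.1, h2.1]
  exact ⟨h1.1.trans a, fun z hz => ⟨(h1.2 z hz).trans (by gcongr; exact (p z hz).2),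
    (h2.2 z hz).trans (by gcongr; exact (p z hz).1)⟩⟩

lemma Cl.trans {w : ℝ → ℝ} {γ' : ℝ} (h : Cl X u v γ) (k : Cl X v w γ') : Cl X u w (γ * γ') := by
  obtain ⟨L, L', h1, h2, h3⟩ := h
  obtain ⟨M, M', k1, k2, k3⟩ := k
  have := h1.1; have := h2.1; have := k1.1; have := k2.1
  refine ⟨L * M, M' * L', ⟨by nlinarith, fun z hz => (h1.2 z hz).trans ?_⟩,
    ⟨by nlinarith, fun z hz => (k2.2 z hz).trans ?_⟩, ?_⟩
  · rw [mul_assoc]; gcongr; exact k1.2 z hz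
  · rw [mul_assoc]; gcongr; exact h2.2 z hz
  · calc _ = L * L' * (M * M') := by ring
      _ ≤ _ := by gcongr; nlinarith

lemma cl_bd {β : ℝ} (hβ : 0 < β) (hK : 0 ≤ K) (s : St X K u) (s' : St X K v)
    (h : ∀ z ∈ X, β ≤ u z ∧ β ≤ v z) : Cl X u v ((1 + 2 * K / β) ^ 2) := by
  have k : ∀ x y, β ≤ y → x ≤ y + 2 * K → x ≤ (1 + 2 * K / β) * y := fun x y h1 h2 => by
    have : 2 * K ≤ 2 * K / β * y := by rw [div_mul_eq_mul_div, le_div_iff₀ hβ]; gcongr
    linarith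
  have o : 1 ≤ 1 + 2 * K / β := le_add_of_nonneg_right (by positivity)
  exact ⟨_, _, ⟨o, fun z hz => k _ _ (h z hz).2 (by
    linarith [abs_le.1 (s z hz).2, abs_le.1 (s' z hz).2])⟩, ⟨o, fun z hz => k _ _ (h z hz).1 (by
    linarith [abs_le.1 (s z hz).2, abs_le.1 (s' z hz).2])⟩, (sq _).ge⟩

lemma tail (K : ℝ) (h : 1 < γ) : ∃ R, ∀ X u v, St X K u → St X K v → ∀ z ∈ X, R ≤ |z| →
    u z ≤ γ * v z := by
  refine ⟨(γ + 1) * K / (γ - 1), fun X u v s s' z hz k => ?_⟩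
  rw [div_le_iff₀ (by linarith)] at k
  nlinarith [abs_le.1 (s z hz).2, abs_le.1 (s' z hz).2]

lemma Geo.att (G : Geo T C X a b) (s : St X K u) (s' : St X K v) (p : ∀ z ∈ X, 0 < v z) :
    ∃ L o, Le X u v L ∧ Ex X u v L o := by
  by_cases h : ∀ z ∈ X, u z ≤ 1 * v z
  · exact ⟨1, none, ⟨le_rfl, h⟩, rfl⟩
  push Not at h
  obtain ⟨y, hy, k⟩ := h
  have y1 := (lt_div_iff₀ (p y hy)).2 k
  obtain ⟨R, hR⟩ := tail K y1
  obtain ⟨z, hz, e⟩ := Set.exists_max_image _ (fun z => u z / v z) (G.fin (max R |y|))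
    ⟨y, hy, le_max_right _ _⟩
  have l := e y ⟨hy, le_max_right _ _⟩
  refine ⟨u z / v z, some z, ⟨y1.le.trans l, fun x hx => ?_⟩, hz.1,
    (div_mul_cancel₀ _ (p z hz.1).ne').symm⟩
  rcases le_total |x| (max R |y|) with j | j
  · exact (div_le_iff₀ (p x hx)).1 (e x ⟨hx, j⟩)
  · exact (hR X u v s s' x hx (le_of_max_le_left j)).trans (by gcongr; exact (p x hx).le)

lemma Ex.min {o : Option ℝ} {L' : ℝ} (h : Ex X u v L o) (k : Le X u v L') (p : ∀ z ∈ X, 0 < v z) :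
    L ≤ L' := by
  cases o
  · exact h ▸ k.1
  · exact le_of_mul_le_mul_right (h.2 ▸ k.2 _ h.1) (p _ h.1)

lemma Ex.dis {o : Option ℝ} {L' : ℝ} (h : Ex X u v L o) (k : Ex X v u L' o) (p : ∀ z ∈ X, 0 < u z) :
    L * L' = 1 := by
  cases o
  · rw [show L = 1 from h, show L' = 1 from k, one_mul]
  · refine mul_right_cancel₀ (p _ h.1).ne' ?_
    rw [mul_assoc, ← k.2, ← h.2, one_mul]

open Classical in
lemma Geo.prop (G : Geo T C X a b) (R : Rel T C X a b m u v) (R' : Rel T C X a b m u' v')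
    (p : ∀ z ∈ X, 0 < u z) (p' : ∀ z ∈ X, 0 < u' z) (h : Le X u u' L) {L' : ℝ}
    (e : L' * eta T C b m u = L * eta T C b m u') :
    (∀ z, Ex X v v' L' (some z) → Ex X u u' L (some (T z)) ∧
      m ≤ (C.filter fun c => Ex X u u' L (some (T c))).card ∧
      C.card ≤ (C.filter fun c => Ex X u u' L (some (T c))).card + m) ∧
    (Ex X v v' L' none → m = 0 ∨ m ≤ (C.filter fun c => Ex X u u' L (some (T c))).card ∧
      C.card < (C.filter fun c => Ex X u u' L (some (T c))).card + m) := by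
  refine ⟨fun z ⟨hz, k⟩ => ?_, fun k => ?_⟩
  · have w' := fun x hx => mul_pos (G.apos z hz x hx) (p' _ (G.tx hz x hx))
    have cd : m < (insert z C).card := by rw [card_insert_of_notMem (G.nm hz)]; linarith [R.1]
    obtain ⟨q, H⟩ := exOP w' cd.le
    have := H.prop (w := fun x => a z x * u (T x)) (L := L) w'
      (fun x hx => (mul_pos (G.apos z hz x hx) (p _ (G.tx hz x hx))).le) (fun x hx => by
        rw [mul_left_comm]; gcongr; exacts [(G.apos z hz x hx).le, h.2 _ (G.tx hz x hx)])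
      (by rw [← R.2 z hz, ← R'.2 z hz, k, mul_left_comm, ← e]; exact le_of_eq (by ring))
    have f : ∀ x ∈ insert z C, q.eval x ≠ 0 → Ex X u u' L (some (T x)) := fun x hx j =>
      ⟨G.tx hz x hx, mul_left_cancel₀ (G.apos z hz x hx).ne' ((this x hx j).trans (by ring))⟩
    have s1 : (C.filter fun c => q.eval c ≠ 0).card ≤ _ := card_le_card
      (monotone_filter_right C fun c hc j => f c (mem_insert_of_mem hc) j)
    have s2 := H.supp w' cd
    have s3 := zeros (s := C) H.1.ne_zero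
    have s4 := card_filter_add_card_filter_not (s := C) fun x => q.eval x = 0
    rw [filter_insert] at s2
    have s5 := card_insert_le z (C.filter fun c => q.eval c ≠ 0)
    rw [H.2.1] at s3
    refine ⟨f z (mem_insert_self _ _) (H.ext w' cd ((G.ext z hz).imp
      (fun k => forall_mem_insert _ _ _ |>.2 ⟨le_rfl, fun c hc => (k c hc).le⟩)
      fun k => forall_mem_insert _ _ _ |>.2 ⟨le_rfl, fun c hc => (k c hc).le⟩)), ?_, ?_⟩
    · split_ifs at s2 <;> omega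
    · simp only [ne_eq] at s1; omega
  · rcases m with _ | m
    · exact Or.inl rfl
    have w' := fun x hx => mul_pos (G.bpos x hx) (p' _ (G.cX x hx))
    obtain ⟨q, H⟩ := exOP w' (Nat.le_of_succ_le R.1)
    have := H.prop (w := fun x => b x * u (T x)) (L := L) w'
      (fun x hx => (mul_pos (G.bpos x hx) (p _ (G.cX x hx))).le) (fun x hx => by
        rw [mul_left_comm]; gcongr; exacts [(G.bpos x hx).le, h.2 _ (G.cX x hx)])
      (by rw [show L' = 1 from k, one_mul] at e; exact e.ge)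
    have s1 : (C.filter fun c => q.eval c ≠ 0).card ≤ _ := card_le_card
      (monotone_filter_right C fun c hc j => show Ex X u u' L (some (T c)) from
        ⟨G.cX c hc, mul_left_cancel₀ (G.bpos c hc).ne' ((this c hc j).trans (by ring))⟩)
    have s2 := H.supp w' R.1
    have s3 := zeros (s := C) H.1.ne_zero
    have s4 := card_filter_add_card_filter_not (s := C) fun x => q.eval x = 0
    rw [H.2.1] at s3
    simp only [ne_eq] at s1 s2
    exact Or.inr ⟨by omega, by omega⟩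

lemma Geo.fwd (G : Geo T C X a b) {U V : ℕ → ℝ → ℝ} {m : ℕ → ℕ}
    (R : ∀ i, Rel T C X a b (m i) (U i) (U (i + 1)) ∧ Rel T C X a b (m i) (V i) (V (i + 1)))
    (s : ∀ i, St X K (U i) ∧ St X K (V i)) (p0 : ∀ z ∈ X, 0 < U 0 z ∧ 0 < V 0 z) (h1 : 1 < γ)
    (h2 : Cl X (U 0) (V 0) γ) (h3 : ∀ i, (∀ z ∈ X, 0 < U i z ∧ 0 < V i z) → ∀ γ' < γ,
      ¬ Cl X (U i) (V i) γ') : False := by
  classical
  have pU : ∀ i, ∀ z ∈ X, 0 < U i z := fun i => by
    induction i with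
    | zero => exact fun z hz => (p0 z hz).1
    | succ i ih => exact G.pos (R i).1 ih
  have pV : ∀ i, ∀ z ∈ X, 0 < V i z := fun i => by
    induction i with
    | zero => exact fun z hz => (p0 z hz).2
    | succ i ih => exact G.pos (R i).2 ih
  choose L o l1 l2 using fun i => G.att (s i).1 (s i).2 (pV i)
  choose M n m1 m2 using fun i => G.att (s i).2 (s i).1 (pU i)
  have ge : ∀ i, γ ≤ L i * M i := fun i => not_lt.1 fun k =>
    h3 i (fun z hz => ⟨pU i z hz, pV i z hz⟩) _ k ⟨_, _, l1 i, m1 i, le_rfl⟩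
  have le : ∀ i, L i * M i ≤ γ := fun i => by
    have : Cl X (U i) (V i) γ := by
      induction i with
      | zero => exact h2
      | succ i ih => exact G.cl (R i).1 (R i).2 (pU i) (pV i) ih
    obtain ⟨A, B, k1, k2, k3⟩ := this
    exact (mul_le_mul ((l2 i).min k1 (pV i)) ((m2 i).min k2 (pU i)) (by linarith [(m1 i).1])
      (by linarith [k1.1])).trans k3
  have eq : ∀ i, L (i + 1) * eta T C b (m i) (U i) = L i * eta T C b (m i) (V i) ∧
      M (i + 1) * eta T C b (m i) (V i) = M i * eta T C b (m i) (U i) := fun i => by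
    have e1 := G.eta_pos (R i).1.1 (pU i)
    have e2 := G.eta_pos (R i).1.1 (pV i)
    have a1 := (le_div_iff₀ e1).1 ((l2 _).min (G.step (R i).1 (R i).2 (pU i) (l1 i)) (pV _))
    have a2 := (le_div_iff₀ e2).1 ((m2 _).min (G.step (R i).2 (R i).1 (pV i) (m1 i)) (pU _))
    have := (l1 (i + 1)).1; have := (m1 (i + 1)).1; have := (l1 i).1; have := (m1 i).1
    refine (mul_eq_mul_iff_eq_and_eq_of_pos a1 a2 (by positivity) (by positivity)).1 ?_
    rw [mul_mul_mul_comm, mul_mul_mul_comm (L i), le_antisymm (le _) (ge _),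
      le_antisymm (le _) (ge _), mul_comm (eta T C b (m i) (U i))]
  have pa := fun i => G.prop (R i).1 (R i).2 (pU i) (pV i) (l1 i) (eq i).1
  have pb := fun i => G.prop (R i).2 (R i).1 (pV i) (pU i) (m1 i) (eq i).2
  have di : ∀ i o, Ex X (U i) (V i) (L i) o → ¬ Ex X (V i) (U i) (M i) o := fun i o k l => by
    linarith [k.dis l (pU i), ge i]
  have cd : ∀ i, (C.filter fun c => Ex X (U i) (V i) (L i) (some (T c))).card +
      (C.filter fun c => Ex X (V i) (U i) (M i) (some (T c))).card =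
      (C.filter fun c => Ex X (U i) (V i) (L i) (some (T c)) ∨
        Ex X (V i) (U i) (M i) (some (T c))).card := fun i => by
    rw [filter_or, card_union_of_disjoint (disjoint_filter.2 fun c _ => di i _)]
  obtain ⟨c, hc, es⟩ := G.esc
  have c0 := card_pos.2 ⟨c, hc⟩
  have ab : ∀ i, Ex X (U i) (V i) (L i) (some (T c)) ∨ Ex X (V i) (U i) (M i) (some (T c)) := by
    intro i
    have k := card_filter_le C fun c => Ex X (U i) (V i) (L i) (some (T c)) ∨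
      Ex X (V i) (U i) (M i) (some (T c))
    refine card_filter_eq_iff.1 (le_antisymm k ?_) c hc
    rw [← cd] at k ⊢
    have a1 := l2 (i + 1)
    have a2 := m2 (i + 1)
    generalize o (i + 1) = x at a1
    generalize n (i + 1) = y at a2
    cases x <;> cases y
    · exact absurd a2 (di _ _ a1)
    · have := (pa i).2 a1; have := ((pb i).1 _ a2).2; omega
    · have := (pb i).2 a2; have := ((pa i).1 _ a1).2; omega
    · have := ((pa i).1 _ a1).2; have := ((pb i).1 _ a2).2; omega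
  have ua : ∀ l z, Ex X (U (l + 1)) (V (l + 1)) (L (l + 1)) (some z) →
      Ex X (U 1) (V 1) (L 1) (some (T^[l] z)) := fun l => by
    induction l with
    | zero => exact fun _ h => h
    | succ l ih => exact fun z h => ih _ ((pa _).1 z h).1
  have ub : ∀ l z, Ex X (V (l + 1)) (U (l + 1)) (M (l + 1)) (some z) →
      Ex X (V 1) (U 1) (M 1) (some (T^[l] z)) := fun l => by
    induction l with
    | zero => exact fun _ h => h
    | succ l ih => exact fun z h => ih _ ((pb _).1 z h).1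
  have one : ∀ u v L, St X K u → St X K v → (∀ z ∈ X, 0 < v z) → 1 ≤ L →
      (∃ᶠ l in atTop, Ex X u v L (some (T^[l] (T c)))) → L = 1 := fun u v L s1 s2 p l h =>
    le_antisymm (le_of_forall_gt_imp_ge_of_dense fun g hg => by
      obtain ⟨R, hR⟩ := tail K hg
      obtain ⟨l, k1, k2⟩ := (h.and_eventually (es.eventually_ge_atTop R)).exists
      exact le_of_mul_le_mul_right (k1.2 ▸ hR X u v s1 s2 _ k1.1 k2) (p _ k1.1)) l
  have k := card_filter_le C fun c => Ex X (U 0) (V 0) (L 0) (some (T c)) ∨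
    Ex X (V 0) (U 0) (M 0) (some (T c))
  rw [← cd] at k
  rcases frequently_or_distrib.1 (Frequently.of_forall (f := atTop) fun l =>
    (ab (l + 1)).imp (ua l _) (ub l _)) with h | h
  · have a1 : Ex X (U 1) (V 1) (L 1) none := one _ _ _ (s 1).1 (s 1).2 (pV 1) (l1 1).1 h
    have a2 := m2 1
    generalize n 1 = y at a2
    cases y
    · exact di _ _ a1 a2
    · obtain ⟨l, a3⟩ := h.exists
      have := (pa 0).2 a1; have := ((pb 0).1 _ a2).2; have := ((pa 0).1 _ a3).2; omega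
  · have a1 : Ex X (V 1) (U 1) (M 1) none := one _ _ _ (s 1).2 (s 1).1 (pU 1) (m1 1).1 h
    have a2 := l2 1
    generalize o 1 = y at a2
    cases y
    · exact di _ _ a2 a1
    · obtain ⟨l, a3⟩ := h.exists
      have := (pb 0).2 a1; have := ((pa 0).1 _ a2).2; have := ((pb 0).1 _ a3).2; omega

lemma ul {f : ℕ → ℝ} {x y : ℝ} (h : ∀ n, x ≤ f n ∧ f n ≤ y) :
    ∃ z, Tendsto f (hyperfilter ℕ) (𝓝 z) := by
  obtain ⟨z, -, k⟩ := isCompact_Icc.ultrafilter_le_nhds ((hyperfilter ℕ).map f)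
    (le_principal_iff.2 (Eventually.of_forall h : ∀ᶠ n in hyperfilter ℕ, f n ∈ Set.Icc x y))
  exact ⟨z, k⟩

lemma ulS {U : ℕ → ℝ → ℝ} (h : ∀ n, St X K (U n)) : ∃ u, St X K u ∧
    ∀ z ∈ X, Tendsto (fun n => U n z) (hyperfilter ℕ) (𝓝 (u z)) := by
  have : ∀ z, ∃ y, z ∈ X → Tendsto (fun n => U n z) (hyperfilter ℕ) (𝓝 y) := fun z => by
    by_cases hz : z ∈ X
    · exact (ul (x := 0) (y := |z| + K) fun n => ⟨(h n z hz).1, by
        linarith [abs_le.1 (h n z hz).2]⟩).imp fun y k _ => k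
    · exact ⟨0, fun k => absurd k hz⟩
  choose u hu using this
  exact ⟨u, fun z hz => ⟨ge_of_tendsto' (hu z hz) fun n => (h n z hz).1,
    le_of_tendsto' ((hu z hz).sub_const _).abs fun n => (h n z hz).2⟩, hu⟩

lemma Geo.lim (G : Geo T C X a b) {C' : Finset ℝ} {X' : Set ℝ} (hC : C' ⊆ C) (hX : X' ⊆ X)
    (hm : m ≤ C'.card) {U V : ℕ → ℝ → ℝ} {l : Filter ℕ} [l.NeBot] (s : ∀ n, St X K (U n))
    (hu : ∀ z ∈ X, Tendsto (fun n => U n z) l (𝓝 (u z)))
    (hv : ∀ z ∈ X, Tendsto (fun n => V n z) l (𝓝 (v z))) (h0 : ∀ c ∈ C, c ∉ C' → u (T c) = 0)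
    (R : ∀ᶠ n in l, Rel T C X a b m (U n) (V n)) : Rel T C' X' a b m u v := by
  have nn : ∀ z ∈ X, 0 ≤ u z := fun z hz => ge_of_tendsto' (hu z hz) fun n => (s n z hz).1
  refine ⟨hm, fun z hz => ?_⟩
  have hz := hX hz
  have e : Tendsto (fun n => eta T C b m (U n)) l (𝓝 (eta T C' b m u)) := by
    cases m
    · exact tendsto_const_nhds
    · simp only [eta]
      rw [← hm_sub hC fun c k j => by rw [h0 c k j, mul_zero]]
      exact hm_tendsto (fun n c k => mul_nonneg (G.bpos c k).le (s n _ (G.cX c k)).1)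
        (fun c k => mul_nonneg (G.bpos c k).le (nn _ (G.cX c k))) fun c k =>
          (hu _ (G.cX c k)).const_mul _
  rw [← hm_sub (insert_subset_insert z hC) fun c k j => by
    rw [h0 c ((mem_insert.1 k).resolve_left fun e => j (e ▸ mem_insert_self _ _))
      fun e => j (mem_insert_of_mem e), mul_zero]]
  exact tendsto_nhds_unique_of_eventuallyEq ((hv z hz).mul e) (hm_tendsto (fun n c k =>
    mul_nonneg (G.apos z hz c k).le (s n _ (G.tx hz c k)).1) (fun c k => mul_nonneg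
      (G.apos z hz c k).le (nn _ (G.tx hz c k))) fun c k => (hu _ (G.tx hz c k)).const_mul _)
    (R.mono fun n h => h.2 z hz)

lemma Geo.cl_ev (G : Geo T C X a b) {U V : ℕ → ℝ → ℝ} {l : Filter ℕ} {γ' : ℝ}
    (s : ∀ n, St X K (U n) ∧ St X K (V n)) (hu : ∀ z ∈ X, Tendsto (fun n => U n z) l (𝓝 (u z)))
    (hv : ∀ z ∈ X, Tendsto (fun n => V n z) l (𝓝 (v z))) (p : ∀ z ∈ X, 0 < u z ∧ 0 < v z)
    (h : Cl X u v γ) (k : γ < γ') : ∀ᶠ n in l, Cl X (U n) (V n) γ' := by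
  obtain ⟨r, r1, r2⟩ : ∃ r > 1, r * r * γ < γ' :=
    ((eventually_mem_nhdsWithin (s := Set.Ioi (1 : ℝ)) (a := 1)).and
      ((Continuous.tendsto (f := fun r : ℝ => r * r * γ) (by fun_prop) 1).mono_left
        nhdsWithin_le_nhds |>.eventually (gt_mem_nhds (by simpa)))).exists
  obtain ⟨R, hR⟩ := tail K r1
  have one : ∀ (U V : ℕ → ℝ → ℝ) u v L, (∀ n, St X K (U n)) → (∀ n, St X K (V n)) →
      (∀ z ∈ X, Tendsto (fun n => U n z) l (𝓝 (u z))) → (∀ z ∈ X, Tendsto (fun n => V n z) l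
        (𝓝 (v z))) → (∀ z ∈ X, 0 < v z) → Le X u v L → ∀ᶠ n in l, Le X (U n) (V n) (r * L) := by
    intro U V u v L s1 s2 hu hv p h
    have := h.1
    filter_upwards [(eventually_all_finite (G.fin R)).2 fun z hz => (hu z hz.1).eventually_lt
      ((hv z hz.1).const_mul (r * L)) (by nlinarith [h.2 z hz.1, mul_pos (sub_pos.2 r1) (p z hz.1)])]
      with n hn
    refine ⟨by nlinarith, fun z hz => ?_⟩
    rcases le_total |z| R with j | j
    · exact (hn z ⟨hz, j⟩).le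
    · nlinarith [hR X _ _ (s1 n) (s2 n) z hz j, mul_nonneg (sub_nonneg.2 this) (s2 n z hz).1]
  obtain ⟨L, L', h1, h2, h3⟩ := h
  filter_upwards [one U V u v L (fun n => (s n).1) (fun n => (s n).2) hu hv (fun z hz => (p z hz).2) h1,
    one V U v u L' (fun n => (s n).2) (fun n => (s n).1) hv hu (fun z hz => (p z hz).1) h2] with n k1 k2
  exact ⟨_, _, k1, k2, by nlinarith [mul_le_mul_of_nonneg_left h3 (mul_self_nonneg r)]⟩

def Chn (T : ℝ → ℝ) (C : Finset ℝ) (X : Set ℝ) (a : ℝ → ℝ → ℝ) (b : ℝ → ℝ) (K : ℝ) (N : ℕ)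
    (m : ℕ → ℕ) (V : ℕ → ℝ → ℝ) : Prop :=
  (∀ j < N, Rel T C X a b (m j) (V (j + 1)) (V j)) ∧ ∀ j ≤ N, St X K (V j)

lemma Geo.con (G : Geo T C X a b) (hK : 0 ≤ K) {β γ₀ : ℝ} (hβ : 0 < β) (h0 : 1 < γ₀) :
    ∃ N : ℕ, ∃ c, 0 < c ∧ c < 1 ∧ ∀ m V W γ, Chn T C X a b K N m V → Chn T C X a b K N m W →
      (∀ z ∈ X, β ≤ V N z ∧ β ≤ W N z) → Cl X (V N) (W N) γ → Cl X (V 0) (W 0) (max γ₀ (c * γ)) := by
  by_contra h
  push Not at h
  have t0 : ∀ n : ℕ, (0 : ℝ) < 1 / (n + 1) / 2 ∧ (1 : ℝ) / (n + 1) / 2 ≤ 1 / 2 := fun n =>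
    ⟨by positivity, by gcongr; rw [div_le_one (by positivity)]; simp⟩
  choose m V W g c1 c2 c3 c4 c5 using fun n : ℕ => h n (1 - 1 / (n + 1) / 2)
    (by linarith [t0 n]) (by linarith [t0 n])
  have ps : ∀ n i, i ≤ n → (∀ z ∈ X, 0 < V n (n - i) z) ∧ ∀ z ∈ X, 0 < W n (n - i) z := by
    intro n i hi
    induction i with
    | zero => exact ⟨fun z hz => hβ.trans_le (c3 n z hz).1, fun z hz => hβ.trans_le (c3 n z hz).2⟩
    | succ i ih =>
      have := ih (by omega)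
      rw [show n - i = n - (i + 1) + 1 by omega] at this
      exact ⟨G.pos ((c1 n).1 _ (by omega)) this.1, G.pos ((c2 n).1 _ (by omega)) this.2⟩
  have nc : ∀ n j, j ≤ n → ¬ Cl X (V n j) (W n j) (max γ₀ ((1 - 1 / (n + 1) / 2) * g n)) := by
    intro n j hj
    induction j with
    | zero => exact c5 n
    | succ j ih =>
      have := ps n (n - (j + 1)) (by omega)
      rw [show n - (n - (j + 1)) = j + 1 by omega] at this
      exact fun k => ih (by omega) (G.cl ((c1 n).1 _ hj) ((c2 n).1 _ hj) this.1 this.2 k)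
  have g1 : ∀ n, γ₀ ≤ g n ∧ g n ≤ 2 * (1 + 2 * K / β) ^ 2 := fun n => by
    have a := not_le.1 fun k => nc n n le_rfl ((c4 n).mono k)
    have b := not_le.1 fun k => nc n n le_rfl ((cl_bd hβ hK ((c1 n).2 n le_rfl) ((c2 n).2 n le_rfl)
      (c3 n)).mono k)
    rw [max_lt_iff] at a b
    exact ⟨a.1.le, by nlinarith [t0 n]⟩
  obtain ⟨γ, hγ⟩ := ul g1
  choose U u1 u2 using fun i => ulS (U := fun n => V n (n - i)) fun n => (c1 n).2 _ (by omega)
  choose U' v1 v2 using fun i => ulS (U := fun n => W n (n - i)) fun n => (c2 n).2 _ (by omega)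
  have big : ∀ i, ∀ᶠ n : ℕ in hyperfilter ℕ, i < n := fun i =>
    Nat.hyperfilter_le_atTop (eventually_gt_atTop i)
  have dg : ∀ i, ∃ k ∈ range (C.card + 1), ∀ᶠ n in hyperfilter ℕ, m n (n - (i + 1)) = k := fun i =>
    (Ultrafilter.eventually_exists_mem_iff (range (C.card + 1)).finite_toSet).1
      ((big i).mono fun n hn => ⟨_, mem_range_succ_iff.2 ((c1 n).1 _ (by omega)).1, rfl⟩)
  choose k k1 k2 using dg
  refine G.fwd (U := U) (V := U') (m := k) (K := K) (γ := γ) (fun i => ⟨G.lim Subset.rfl subset_rfl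
    (mem_range_succ_iff.1 (k1 i)) (fun n => (c1 n).2 _ (by omega)) (u2 i) (u2 (i + 1))
      (fun c a b => absurd a b) ?_, G.lim Subset.rfl subset_rfl (mem_range_succ_iff.1 (k1 i))
      (fun n => (c2 n).2 _ (by omega)) (v2 i) (v2 (i + 1)) (fun c a b => absurd a b) ?_⟩)
    (fun i => ⟨u1 i, v1 i⟩) (fun z hz => ⟨hβ.trans_le (ge_of_tendsto' (u2 0 z hz) fun n =>
      (c3 n z hz).1), hβ.trans_le (ge_of_tendsto' (v2 0 z hz) fun n => (c3 n z hz).2)⟩)
    (h0.trans_le (ge_of_tendsto' hγ fun n => (g1 n).1)) ?_ fun i p γ' l j => ?_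
  · filter_upwards [big i, k2 i] with n a b
    rw [← b, show n - i = n - (i + 1) + 1 by omega]
    exact (c1 n).1 _ (by omega)
  · filter_upwards [big i, k2 i] with n a b
    rw [← b, show n - i = n - (i + 1) + 1 by omega]
    exact (c2 n).1 _ (by omega)
  · choose A B a1 a2 a3 using c4
    obtain ⟨A', hA⟩ := ul (f := A) fun n => ⟨(a1 n).1, show _ ≤ 2 * (1 + 2 * K / β) ^ 2 by
      nlinarith [(a1 n).1, (a2 n).1, a3 n, (g1 n).2]⟩
    obtain ⟨B', hB⟩ := ul (f := B) fun n => ⟨(a2 n).1, show _ ≤ 2 * (1 + 2 * K / β) ^ 2 by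
      nlinarith [(a1 n).1, (a2 n).1, a3 n, (g1 n).2]⟩
    exact ⟨A', B', ⟨ge_of_tendsto' hA fun n => (a1 n).1, fun z hz => le_of_tendsto_of_tendsto'
      (u2 0 z hz) (hA.mul (v2 0 z hz)) fun n => (a1 n).2 z hz⟩, ⟨ge_of_tendsto' hB fun n => (a2 n).1,
      fun z hz => le_of_tendsto_of_tendsto' (v2 0 z hz) (hB.mul (u2 0 z hz)) fun n => (a2 n).2 z hz⟩,
      le_of_tendsto_of_tendsto' (hA.mul hB) hγ a3⟩
  · obtain ⟨y, y1, y2⟩ := exists_between l
    have t : Tendsto (fun n : ℕ => (1 - 1 / (n + 1) / 2) * g n) (hyperfilter ℕ) (𝓝 γ) := by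
      simpa using (((tendsto_one_div_add_atTop_nhds_zero_nat (𝕜 := ℝ)).div_const 2).const_sub 1
        |>.mono_left Nat.hyperfilter_le_atTop).mul hγ
    obtain ⟨n, n1, n2⟩ := ((G.cl_ev (fun n => ⟨(c1 n).2 _ (Nat.sub_le n i), (c2 n).2 _
      (Nat.sub_le n i)⟩) (u2 i) (v2 i) p j y1).and (t.eventually (lt_mem_nhds y2))).exists
    exact nc n _ (Nat.sub_le n i) (n1.mono (le_max_of_le_right n2.le))

lemma Chn.shift {N k : ℕ} {m : ℕ → ℕ} {V : ℕ → ℝ → ℝ} (h : Chn T C X a b K (N + k) m V) :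
    Chn T C X a b K N m V ∧ Chn T C X a b K k (fun j => m (N + j)) fun j => V (N + j) :=
  ⟨⟨fun j hj => h.1 j (by omega), fun j hj => h.2 j (by omega)⟩,
    fun j hj => h.1 _ (by omega), fun j hj => h.2 _ (by omega)⟩

lemma small {c Γ γ₀ : ℝ} (c0 : 0 < c) (c1 : c < 1) (h0 : 1 < γ₀) : ∃ k : ℕ, c ^ k * Γ ≤ γ₀ := by
  have := (tendsto_pow_atTop_nhds_zero_of_lt_one c0.le c1).mul_const Γ
  rw [zero_mul] at this
  exact (this.eventually (ge_mem_nhds (by linarith))).exists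

lemma max_step {c γ₀ x : ℝ} (c0 : 0 < c) (c1 : c < 1) (h0 : 1 < γ₀) :
    max γ₀ (c * max γ₀ x) ≤ max γ₀ (c * x) := by
  rw [mul_max_of_nonneg _ _ c0.le]
  exact max_le (le_max_left _ _) (max_le (le_max_of_le_left (by nlinarith)) (le_max_right _ _))

lemma Geo.iter (G : Geo T C X a b) (hK : 0 ≤ K) {β γ₀ : ℝ} (hβ : 0 < β) (h0 : 1 < γ₀) :
    ∃ N : ℕ, ∀ m V W, Chn T C X a b K N m V → Chn T C X a b K N m W →
      (∀ j ≤ N, ∀ z ∈ X, β ≤ V j z ∧ β ≤ W j z) → Cl X (V 0) (W 0) γ₀ := by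
  obtain ⟨N, c, c0, c1, h⟩ := G.con hK hβ h0
  obtain ⟨k, hk⟩ := small (Γ := (1 + 2 * K / β) ^ 2) c0 c1 h0
  have : ∀ k, ∀ m V W, Chn T C X a b K (N * k) m V → Chn T C X a b K (N * k) m W →
      (∀ j ≤ N * k, ∀ z ∈ X, β ≤ V j z ∧ β ≤ W j z) →
      Cl X (V 0) (W 0) (max γ₀ (c ^ k * (1 + 2 * K / β) ^ 2)) := fun k => by
    induction k with
    | zero => exact fun m V W a1 a2 a3 => (cl_bd hβ hK (a1.2 0 le_rfl) (a2.2 0 le_rfl)
        (a3 0 le_rfl)).mono (by simp)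
    | succ k ih =>
      intro m V W a1 a2 a3
      rw [mul_add_one, add_comm] at a1 a2 a3
      refine (h m V W _ a1.shift.1 a2.shift.1 (a3 N (by omega)) (ih _ _ _ a1.shift.2 a2.shift.2
        fun j hj => a3 _ (by omega))).mono ?_
      rw [pow_succ' c, mul_assoc]
      exact max_step c0 c1 h0
  exact ⟨N * k, fun m V W a1 a2 a3 => (this k m V W a1 a2 a3).mono (max_le le_rfl hk)⟩

lemma Geo.red (G : Geo T C X a b) {C' : Finset ℝ} {X' : Set ℝ} (G' : Geo T C' X' a b)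
    (hC : C' ⊆ C) (hX : X' ⊆ X) (hm : m ≤ C'.card) (hK : 0 ≤ K) {β γ₀ : ℝ} (hβ : 0 < β)
    (h0 : 1 < γ₀) : ∃ N : ℕ, ∃ θ > 0, ∀ V W, Chn T C X a b K N (fun _ => m) V →
      Chn T C X a b K N (fun _ => m) W → (∀ j ≤ N, (∀ z ∈ X', β ≤ V j z ∧ β ≤ W j z) ∧
        ∀ c ∈ C, c ∉ C' → V j (T c) ≤ θ ∧ W j (T c) ≤ θ) → Cl X' (V 0) (W 0) γ₀ := by
  obtain ⟨y, y1, y2⟩ := exists_between h0
  obtain ⟨N, h⟩ := G'.iter hK hβ y1
  refine ⟨N, ?_⟩
  by_contra k
  push Not at k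
  choose V W c1 c2 c3 c4 using fun n : ℕ => k (1 / (n + 1)) (by positivity)
  have t := (tendsto_one_div_add_atTop_nhds_zero_nat (𝕜 := ℝ)).mono_left Nat.hyperfilter_le_atTop
  have lm : ∀ V : ℕ → ℕ → ℝ → ℝ, (∀ n, Chn T C X a b K N (fun _ => m) (V n)) →
      (∀ n, ∀ j ≤ N, (∀ z ∈ X', β ≤ V n j z) ∧ ∀ c ∈ C, c ∉ C' → V n j (T c) ≤ 1 / (n + 1)) →
      ∃ U, Chn T C' X' a b K N (fun _ => m) U ∧ (∀ j ≤ N, ∀ z ∈ X', β ≤ U j z) ∧
        ∀ z ∈ X', Tendsto (fun n => V n 0 z) (hyperfilter ℕ) (𝓝 (U 0 z)) := by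
    intro V c1 c3
    choose U u1 u2 using fun j => ulS (U := fun n => V n (min j N)) fun n => (c1 n).2 _ (by omega)
    refine ⟨U, ⟨fun j hj => G.lim hC hX hm (fun n => (c1 n).2 _ (by omega)) (u2 (j + 1)) (u2 j)
      (fun c a b => le_antisymm (le_of_tendsto_of_tendsto' (u2 _ _ (G.cX c a)) t fun n =>
        (c3 n _ (by omega)).2 c a b) (u1 _ _ (G.cX c a)).1) (Eventually.of_forall fun n => ?_),
      fun j _ z hz => u1 j z (hX hz)⟩, fun j _ z hz => ge_of_tendsto' (u2 j z (hX hz)) fun n =>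
        (c3 n _ (by omega)).1 z hz, fun z hz => by simpa using u2 0 z (hX hz)⟩
    rw [min_eq_left hj, min_eq_left hj.le]
    exact (c1 n).1 j hj
  obtain ⟨U, u1, u2, u3⟩ := lm V c1 fun n j hj => ⟨fun z hz => ((c3 n j hj).1 z hz).1,
    fun c a b => ((c3 n j hj).2 c a b).1⟩
  obtain ⟨U', v1, v2, v3⟩ := lm W c2 fun n j hj => ⟨fun z hz => ((c3 n j hj).1 z hz).2,
    fun c a b => ((c3 n j hj).2 c a b).2⟩
  obtain ⟨n, hn⟩ := (G'.cl_ev (K := K) (fun n => ⟨fun z hz => (c1 n).2 0 (by omega) z (hX hz),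
    fun z hz => (c2 n).2 0 (by omega) z (hX hz)⟩) u3 v3 (fun z hz => ⟨hβ.trans_le (u2 0 (by omega) z hz),
      hβ.trans_le (v2 0 (by omega) z hz)⟩) (h _ U U' u1 v1 fun j hj z hz =>
        ⟨u2 j hj z hz, v2 j hj z hz⟩) y2).exists
  exact c4 n hn

end Pool.Agent.H.MP_e056c9_an
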