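import Pool.Agent.H.MP_e056c9_an.B

namespace Pool.Agent.H.MP_e056c9_an

open Polynomial Filter Topology Finset Classical

def ph (C : Finset ℝ) (m k : ℕ) : ℕ := (C.card + 1) * k + m

structure Bd (T : ℝ → ℝ) (C : Finset ℝ) (X : Set ℝ) (a : ℝ → ℝ → ℝ) (b : ℝ → ℝ) (K : ℝ)
    (B : Finset ℝ) (β₀ : ℝ) (u : ℕ → ℝ → ℝ) : Prop where
  G : Geo T C X a b
  K0 : 0 ≤ K
  b0 : 0 < β₀
  st : ∀ n, St X K (u n)
  pos : ∀ n, ∀ z ∈ X, 0 < u n z
  rel : ∀ k, ∀ m ≤ C.card, Rel T C X a b m (u k) (u (ph C m k))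
  sub : ∀ e ∈ B, e ∈ X
  lo : ∀ n, ∀ z ∈ X, z ∉ B → β₀ ≤ u n z
  tb : ∀ z ∈ X, z ∈ B ↔ T z ∈ B
  typ : (∀ e ∈ B, T e = e) ∨ ∃ f, ∀ e ∈ B, T e = f
  cls : ∀ e ∈ B, (∃ c ∈ C, T c = e) ∨ ∀ e' ∈ B, T e' = e

structure Gp (T : ℝ → ℝ) (C B : Finset ℝ) (u : ℕ → ℝ → ℝ) (c M : ℝ) (σ : ℕ → ℕ → ℝ) : Prop where
  c0 : 0 < c
  s0 : ∀ k, ∀ m ≤ C.card, 0 < σ k m ∧ σ k m ≤ M ∧
    m ≤ (C.filter fun x => σ k m ≤ u k (T x)).card
  g2 : ∀ k, ∀ m ≤ C.card, ∀ z ∈ B, ∀ s, 0 ≤ s → s ≤ σ k m → s ≤ u k (T z) ∨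
    m < (C.filter fun x => s ≤ u k (T x)).card → c * s ≤ u (ph C m k) z * σ k m
  g3 : ∀ k, ∀ m ≤ C.card, ∀ z ∈ B, ∀ s, u k (T z) ≤ s →
    (C.filter fun x => s < u k (T x)).card ≤ m → c * (u (ph C m k) z * σ k m) ≤ s

variable {T : ℝ → ℝ} {C B : Finset ℝ} {X : Set ℝ} {a : ℝ → ℝ → ℝ} {b : ℝ → ℝ} {K β₀ c M : ℝ}
  {u : ℕ → ℝ → ℝ} {σ : ℕ → ℕ → ℝ}

lemma Bd.gap (H : Bd T C X a b K B β₀ u) : ∃ c M σ, Gp T C B u c M σ := by
  have G := H.G
  obtain ⟨c1, p1, h1⟩ := scl C G.bpos C.card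
  obtain ⟨c2, p2, h2⟩ := unif B (fun z hz => scl (insert z C) (G.apos z (H.sub z hz)) C.card)
    fun z x y y0 yx h f f0 m hm s s0 => ⟨fun k => le_trans (by gcongr) ((h f f0 m hm s s0).1 k),
      fun k => (le_total 0 _).elim (fun j => (mul_le_mul_of_nonneg_right yx j).trans
        ((h f f0 m hm s s0).2 k)) fun j => (mul_nonpos_of_nonneg_of_nonpos y0.le j).trans s0⟩
  obtain ⟨M, hM⟩ := (C.finite_toSet.image fun x => |T x| + K).bddAbove
  have ex : ∀ k m, ∃ s, m ≤ C.card → (0 < s ∧ s ≤ max 1 M ∧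
      m ≤ (C.filter fun x => s ≤ u k (T x)).card) ∧ min 1 c1 * s ≤ eta T C b m (u k) ∧
        min 1 c1 * eta T C b m (u k) ≤ s := fun k m => by
    rcases m with _ | m
    · exact ⟨1, fun _ => ⟨⟨one_pos, le_max_left _ _, Nat.zero_le _⟩, by simp [eta]⟩⟩
    by_cases hm : m < C.card
    · obtain ⟨x, hx, o1, o2⟩ := ord C (fun x => u k (T x)) hm
      have p := H.pos k _ (G.cX x hx)
      have := h1 (fun x => u k (T x)) (fun x hx => (H.pos k _ (G.cX x hx)).le) m hm.le _ p.le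
      exact ⟨_, fun _ => ⟨⟨p, le_max_of_le_right (le_trans (by
        linarith [abs_le.1 (H.st k _ (G.cX x hx)).2]) (hM ⟨x, hx, rfl⟩)), o1⟩,
        le_trans (by gcongr; exact min_le_right _ _) (this.1 o1), le_trans (mul_le_mul_of_nonneg_right
          (min_le_right _ _) (G.eta_pos (m := m + 1) hm (H.pos k)).le) (this.2 o2)⟩⟩
    · exact ⟨0, fun k => absurd k hm⟩
  choose σ hσ using ex
  have p3 : 0 < min 1 c1 := lt_min one_pos p1
  refine ⟨min 1 c1 * c2, _, σ, by positivity, fun k m hm => (hσ k m hm).1,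
    fun k m hm z hz s s0 s1 s2 => ?_, fun k m hm z hz s s1 s2 => ?_⟩
  all_goals
    have zX := H.sub z hz
    have p := H.pos (ph C m k) z zX
    have := fun s => h2 z hz (fun x => u k (T x)) (fun x hx => (H.pos k _ (G.tx zX x hx)).le) m hm s
    rw [← (H.rel k m hm).2 z zX] at this
    obtain ⟨⟨-, -, e1⟩, e2, e3⟩ := hσ k m hm
  · have := (this s s0).1 (by
      rw [filter_insert]
      split_ifs with l
      · rw [card_insert_of_notMem fun j => G.nm zX (mem_filter.1 j).1]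
        exact Nat.lt_succ_of_le (e1.trans (card_le_card (monotone_filter_right C fun _ _ => s1.trans)))
      · exact s2.resolve_left l)
    nlinarith [mul_le_mul_of_nonneg_left this p3.le, mul_le_mul_of_nonneg_left e3 p.le]
  · have := (this s ((H.pos k _ (G.mapX z zX)).le.trans s1)).2
      (by rwa [filter_insert, if_neg s1.not_gt])
    nlinarith [mul_le_mul_of_nonneg_left e2 (mul_pos p p2).le]

noncomputable def Zs (B : Finset ℝ) (v : ℝ → ℝ) (s : ℝ) : Finset ℝ := B.filter fun e => v e < s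

noncomputable def Cs (T : ℝ → ℝ) (C Z : Finset ℝ) : Finset ℝ := C.filter fun c => T c ∉ Z

lemma Bd.sm (H : Bd T C X a b K B β₀ u) (P : Gp T C B u c M σ) {t : ℝ} (t0 : 0 < t) (t1 : t ≤ 1)
    (t2 : t * M ≤ β₀) {k m : ℕ} (hm : m ≤ C.card) {z : ℝ} (hz : z ∈ B) (h : u (ph C m k) z < c * t) :
    T z ∈ Zs B (u k) (t * σ k m) ∧ m = (Cs T C (Zs B (u k) (t * σ k m))).card ∧
      ∀ x ∈ C, T x ∉ Zs B (u k) (t * σ k m) → σ k m ≤ u k (T x) := by
  obtain ⟨s0, s1, s2⟩ := P.s0 k m hm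
  have s3 : t * σ k m ≤ σ k m := by nlinarith
  obtain ⟨a1, a2⟩ := not_or.1 fun j => absurd (P.g2 k m hm z hz _ (by positivity) s3 j) (by nlinarith)
  have e : (C.filter fun x => σ k m ≤ u k (T x)) = C.filter fun x => t * σ k m ≤ u k (T x) :=
    eq_of_subset_of_card_le (monotone_filter_right C fun _ _ => s3.trans) (by omega)
  have f : Cs T C (Zs B (u k) (t * σ k m)) = C.filter fun x => t * σ k m ≤ u k (T x) :=
    filter_congr fun x hx => by
      simp only [Zs, mem_filter, not_and, not_lt]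
      exact ⟨fun j => by_contra fun l => l (j (by_contra fun i => l (le_trans (by nlinarith)
        (H.lo k _ (H.G.cX x hx) i)))), fun j _ => j⟩
  refine ⟨mem_filter.2 ⟨(H.tb z (H.sub z hz)).1 hz, not_le.1 a1⟩, by rw [f]; rw [e] at s2; omega,
    fun x hx j => ?_⟩
  have : x ∈ Cs T C _ := mem_filter.2 ⟨hx, j⟩
  rw [f, ← e] at this
  exact (mem_filter.1 this).2

noncomputable def Wd (T : ℝ → ℝ) (B : Finset ℝ) (v : ℝ → ℝ) (s : ℝ) : Finset ℝ :=
  B.filter fun e => T e ∈ Zs B v s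

lemma Bd.bal (H : Bd T C X a b K B β₀ u) (P : Gp T C B u c M σ) {t : ℝ} (t0 : 0 < t) (t1 : t ≤ 1)
    (t2 : t * M ≤ β₀) {k m : ℕ} (hm : m ≤ C.card) {z : ℝ} (hz : z ∈ B) (h : u (ph C m k) z < c * t)
    {e f : ℝ} (he : e ∈ Wd T B (u k) (t * σ k m)) (hf : f ∈ Wd T B (u k) (t * σ k m)) :
    c ^ 2 * u (ph C m k) f ≤ u (ph C m k) e := by
  obtain ⟨-, a2, a3⟩ := H.sm P t0 t1 t2 hm hz h
  obtain ⟨s0, -, -⟩ := P.s0 k m hm
  obtain ⟨e1, e2⟩ := mem_filter.1 he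
  obtain ⟨f1, f2⟩ := mem_filter.1 hf
  obtain ⟨y, y1, y2⟩ := exists_max_image _ (u k) ⟨_, e2⟩
  obtain ⟨y3, y4⟩ := mem_filter.1 y1
  have y5 : u k y ≤ σ k m := by nlinarith
  have b1 := P.g3 k m hm f f1 _ (y2 _ f2) (a2.ge.trans' (card_le_card
    (monotone_filter_right C fun x _ j l => (y2 _ l).not_gt j)))
  have b2 := P.g2 k m hm e e1 _ (H.pos k y (H.sub y y3)).le y5 (by
    rcases H.cls y y3 with ⟨x, x1, x2⟩ | j
    · refine Or.inr (a2.trans_lt (card_lt_card ⟨fun i hi => ?_, fun j => ?_⟩))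
      · exact mem_filter.2 ⟨(mem_filter.1 hi).1, y5.trans (a3 i (mem_filter.1 hi).1 (mem_filter.1 hi).2)⟩
      · exact (mem_filter.1 (j (mem_filter.2 ⟨x1, by rw [x2]⟩))).2 (x2 ▸ y1)
    · exact Or.inl (by rw [j e e1]))
  nlinarith [mul_le_mul_of_nonneg_left b1 P.c0.le]

lemma Bd.zw (H : Bd T C X a b K B β₀ u) (P : Gp T C B u c M σ) {t r : ℝ} (t0 : 0 < t) (t1 : t ≤ 1)
    (t2 : t * M ≤ β₀) (r0 : 0 < r) (r1 : r ≤ t) (r2 : r * M ≤ c * t) (r3 : r ≤ c ^ 2) {l m m' : ℕ}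
    (hm : m ≤ C.card) (hm' : m' ≤ C.card) {z : ℝ} (hz : z ∈ B)
    (h : u (ph C m (ph C m' l)) z < c * r) : Zs B (u (ph C m' l)) (r * σ (ph C m' l) m) =
      Wd T B (u l) (t * σ l m') ∧ T z ∈ Wd T B (u l) (t * σ l m') ∧
      m = (Cs T C (Wd T B (u l) (t * σ l m'))).card ∧ u (ph C m' l) (T z) < r * M := by
  obtain ⟨s0, s1, -⟩ := P.s0 (ph C m' l) m hm
  obtain ⟨a1, a2, a3⟩ := H.sm P r0 (r1.trans t1) (by nlinarith) hm hz h
  have sm : ∀ e ∈ Zs B (u (ph C m' l)) (r * σ (ph C m' l) m), u (ph C m' l) e < r * M :=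
    fun e he => (mem_filter.1 he).2.trans_le (by gcongr)
  have sb : Zs B (u (ph C m' l)) (r * σ (ph C m' l) m) ⊆ Wd T B (u l) (t * σ l m') := fun e he =>
    mem_filter.2 ⟨(mem_filter.1 he).1, (H.sm P t0 t1 t2 hm' (mem_filter.1 he).1
      ((sm e he).trans_le r2)).1⟩
  have e : Zs B (u (ph C m' l)) (r * σ (ph C m' l) m) = Wd T B (u l) (t * σ l m') :=
    sb.antisymm fun e he => by_contra fun j => by
      have := H.bal P t0 t1 t2 hm' (mem_filter.1 a1).1 ((sm _ a1).trans_le r2) (sb a1) he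
      rcases H.cls e (mem_filter.1 he).1 with ⟨x, x1, rfl⟩ | i
      · nlinarith [a3 x x1 j, (mem_filter.1 a1).2, sq_pos_of_pos P.c0]
      · exact j (i z hz ▸ a1)
  exact ⟨e, e ▸ a1, e ▸ a2, sm _ a1⟩

lemma consts (P : Gp T C B u c M σ) (b0 : 0 < β₀) : ∃ t r, 0 < t ∧ t ≤ 1 ∧ t * M ≤ β₀ ∧ 0 < r ∧
    r ≤ t ∧ r * M ≤ c * t ∧ r ≤ c ^ 2 := by
  have := P.c0
  have M0 := (P.s0 0 0 (Nat.zero_le _)).1.trans_le (P.s0 0 0 (Nat.zero_le _)).2.1
  exact ⟨min 1 (β₀ / M), min (min 1 (β₀ / M)) (min (c * min 1 (β₀ / M) / M) (c ^ 2)), by positivity,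
    min_le_left _ _, (le_div_iff₀ M0).1 (min_le_right _ _), by positivity, min_le_left _ _,
    (le_div_iff₀ M0).1 ((min_le_right _ _).trans (min_le_left _ _)),
    (min_le_right _ _).trans (min_le_right _ _)⟩

lemma ph_div (C : Finset ℝ) (k : ℕ) : k = ph C (k % (C.card + 1)) (k / (C.card + 1)) ∧
    k % (C.card + 1) ≤ C.card :=
  ⟨(Nat.div_add_mod _ _).symm, Nat.lt_succ_iff.1 (Nat.mod_lt _ (by omega))⟩

lemma Bd.tame (H : Bd T C X a b K B β₀ u) : ∃ β > 0, ∀ l, ∀ m ≤ C.card, ∀ m' ≤ C.card, m ≠ m' →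
    ∀ z ∈ X, β ≤ u (ph C m (ph C m' l)) z := by
  obtain ⟨c, M, σ, P⟩ := H.gap
  obtain ⟨t, r, t0, t1, t2, r0, r1, r2, r3⟩ := consts P H.b0
  have := P.c0
  have M0 := (P.s0 0 0 (Nat.zero_le _)).1.trans_le (P.s0 0 0 (Nat.zero_le _)).2.1
  refine ⟨min β₀ (c * min r (c * r / M)), lt_min H.b0 (by positivity), fun l m hm m' hm' h z hz => ?_⟩
  by_cases zB : z ∈ B
  swap
  · exact min_le_of_left_le (H.lo _ z hz zB)
  refine min_le_of_right_le (not_lt.1 fun k => h ?_)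
  have r4 := min_le_left r (c * r / M)
  obtain ⟨-, a2, a3, a4⟩ := H.zw P t0 t1 t2 (by positivity) (r4.trans r1) (by nlinarith)
    (r4.trans r3) hm hm' zB k
  have a5 := a4.trans_le ((le_div_iff₀ M0).1 (min_le_right _ _))
  have eB := (mem_filter.1 a2).1
  rcases H.typ with j | ⟨f, j⟩
  · have w : ∀ v s, Wd T B v s = Zs B v s := fun v s => filter_congr fun e he => by
      rw [j e he]; exact ⟨fun k => (mem_filter.1 k).2, fun k => mem_filter.2 ⟨he, k⟩⟩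
    rw [w] at a3
    exact a3.trans (H.sm P t0 t1 t2 hm' eB (a5.trans_le (by gcongr))).2.1.symm
  · have w : ∀ v s e, e ∈ Wd T B v s → Wd T B v s = B := fun v s e he =>
      filter_true_of_mem fun x hx => by rw [j x hx, ← j e (mem_filter.1 he).1]; exact (mem_filter.1 he).2
    rw [(ph_div C l).1] at a5
    obtain ⟨-, b2, b3, -⟩ := H.zw P t0 t1 t2 r0 r1 r2 r3 hm' (ph_div C l).2 eB a5
    rw [a3, w _ _ _ a2, w _ _ _ b2] at *
    exact b3.symm

lemma Bd.grow (H : Bd T C X a b K B β₀ u) {β : ℝ} (hβ : 0 < β) : ∃ β' > 0, β' ≤ β ∧ ∀ k,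
    ∀ m ≤ C.card, (∀ z ∈ X, β ≤ u k z) → ∀ z ∈ X, β' ≤ u (ph C m k) z := by
  obtain ⟨c, M, σ, P⟩ := H.gap
  have := P.c0
  have M0 := (P.s0 0 0 (Nat.zero_le _)).1.trans_le (P.s0 0 0 (Nat.zero_le _)).2.1
  refine ⟨min β (min β₀ (c * min 1 (β / M))), lt_min hβ (lt_min H.b0 (by positivity)),
    min_le_left _ _, fun k m hm h z hz => min_le_of_right_le ?_⟩
  by_cases zB : z ∈ B
  swap
  · exact min_le_of_left_le (H.lo _ z hz zB)
  obtain ⟨s0, s1, -⟩ := P.s0 k m hm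
  have := P.g2 k m hm z zB (min 1 (β / M) * σ k m) (by positivity)
    (mul_le_of_le_one_left s0.le (min_le_left _ _)) (Or.inl (le_trans (le_trans (by gcongr)
      ((le_div_iff₀ M0).1 (min_le_right 1 _))) (h _ (H.G.mapX z hz))))
  exact min_le_of_right_le (le_of_mul_le_mul_right (by linarith) s0)

lemma Bd.ne (H : Bd T C X a b K B β₀ u) {m : ℕ} (hm : m ≤ C.card) {k k' : ℕ} {γ : ℝ}
    (h : Cl X (u k) (u k') γ) (L : ℕ) : Cl X (u ((ph C m)^[L] k)) (u ((ph C m)^[L] k')) γ := by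
  induction L with
  | zero => exact h
  | succ L ih =>
    rw [Function.iterate_succ_apply', Function.iterate_succ_apply']
    exact H.G.cl (H.rel _ m hm) (H.rel _ m hm) (H.pos _) (H.pos _) ih

lemma Bd.chn (H : Bd T C X a b K B β₀ u) {m : ℕ} (hm : m ≤ C.card) (N k : ℕ) :
    Chn T C X a b K N (fun _ => m) fun j => u ((ph C m)^[N - j] k) :=
  ⟨fun j hj => by
    simp only [show N - j = N - (j + 1) + 1 by omega, Function.iterate_succ_apply']
    exact H.rel _ m hm, fun _ _ => H.st _⟩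

lemma Bd.low (H : Bd T C X a b K B β₀ u) (S : Finset ℕ) : ∃ β > 0, ∀ n ∈ S, ∀ z ∈ X, β ≤ u n z := by
  obtain ⟨β, p, h⟩ := unif (S ×ˢ B) (p := fun i β => β ≤ u i.1 i.2) (fun i hi =>
    ⟨_, H.pos _ _ (H.sub _ (mem_product.1 hi).2), le_rfl⟩) fun _ _ _ _ => le_trans
  exact ⟨min β β₀, lt_min p H.b0, fun n hn z hz => if j : z ∈ B then min_le_of_left_le
    (h (n, z) (mem_product.2 ⟨hn, j⟩)) else min_le_of_right_le (H.lo n z hz j)⟩

lemma cl_refl (v : ℝ → ℝ) : Cl X v v 1 := ⟨1, 1, ⟨le_rfl, by simp⟩, ⟨le_rfl, by simp⟩, by simp⟩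

lemma Bd.nn (H : Bd T C X a b K B β₀ u) (k k' : ℕ) : ∀ z ∈ X, 0 ≤ u k z ∧ 0 ≤ u k' z :=
  fun z hz => ⟨(H.pos k z hz).le, (H.pos k' z hz).le⟩

lemma Bd.dec (H : Bd T C X a b K B β₀ u) {m : ℕ} (hm : m ≤ C.card) : ∃ Γ, ∀ L k, ∃ L' ≥ L,
    Cl X (u ((ph C m)^[L + 1] k)) (u ((ph C m)^[L' + 1] 0)) Γ := by
  obtain ⟨β, p, h⟩ := H.tame
  obtain ⟨β', p', h'⟩ := H.low {ph C m 0}
  have : ∀ k, ∃ L, Cl X (u (ph C m k)) (u ((ph C m)^[L + 1] 0)) ((1 + 2 * K / min β β') ^ 2) := by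
    intro k
    induction k using Nat.strong_induction_on with
    | _ k ih =>
      rcases k.eq_zero_or_pos with rfl | k0
      · exact ⟨0, (cl_refl _).mono (one_le_pow₀ (le_add_of_nonneg_right (by
          have := H.K0; positivity)))⟩
      by_cases j : m = k % (C.card + 1)
      · obtain ⟨c, hc, -⟩ := H.G.esc
        obtain ⟨L, hL⟩ := ih _ (Nat.div_lt_self k0 (show 1 < C.card + 1 by
          linarith [card_pos.2 ⟨c, hc⟩]))
        rw [j, ← (ph_div C k).1, ← j] at hL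
        exact ⟨L + 1, by rw [Function.iterate_succ_apply' _ (L + 1)]; exact H.ne hm hL 1⟩
      · refine ⟨0, cl_bd (lt_min p p') H.K0 (H.st _) (H.st _) fun z hz => ⟨min_le_of_left_le ?_,
          min_le_of_right_le (h' _ (mem_singleton_self _) z hz)⟩⟩
        rw [(ph_div C k).1]
        exact h _ m hm _ (ph_div C k).2 j z hz
  refine ⟨(1 + 2 * K / min β β') ^ 2, fun L k => ?_⟩
  obtain ⟨L', h⟩ := this k
  refine ⟨L + L', by omega, ?_⟩
  rw [add_assoc, Function.iterate_add_apply _ L (L' + 1)]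
  exact H.ne hm h L

lemma Bd.calka (H : Bd T C X a b K B β₀ u) {m : ℕ} (hm : m ≤ C.card) :
    (∃ β > 0, ∀ L, ∀ z ∈ X, β ≤ u ((ph C m)^[L] 0) z) ∨
      ∀ θ > 0, ∀ᶠ L in atTop, ∃ z ∈ B, u ((ph C m)^[L] 0) z < θ := by
  refine or_iff_not_imp_right.2 fun h => ?_
  push Not at h
  obtain ⟨θ, θ0, h⟩ := h
  have b1 := lt_min θ0 H.b0
  have gd : ∀ L, ∃ L' ≥ L, ∀ z ∈ X, min θ β₀ ≤ u ((ph C m)^[L'] 0) z := fun L =>
    (frequently_atTop.1 h L).imp fun L' k => ⟨k.1, fun z hz => if j : z ∈ B then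
      min_le_of_left_le (k.2 z j) else min_le_of_right_le (H.lo _ z hz j)⟩
  have con : ∀ β > 0, ∀ g > 1, ∃ N c, 0 < c ∧ c < 1 ∧ ∀ k k' γ, (∀ z ∈ X, β ≤ u k z ∧ β ≤ u k' z) →
      Cl X (u k) (u k') γ → Cl X (u ((ph C m)^[N] k)) (u ((ph C m)^[N] k')) (max g (c * γ)) := by
    intro β p g hg
    obtain ⟨N, c, c0, c1, k⟩ := H.G.con H.K0 p hg
    exact ⟨N, c, c0, c1, fun x y γ a1 a2 => k _ _ _ γ (H.chn hm N x) (H.chn hm N y)
      (by simpa using a1) (by simpa using a2)⟩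
  have s1 : ∀ g > 1, ∃ L, Cl X (u ((ph C m)^[L] (ph C m 0))) (u ((ph C m)^[L] 0)) g := by
    intro g hg
    obtain ⟨β, p, p1, p2⟩ := H.grow b1
    obtain ⟨N, c, c0, c1, k⟩ := con β p g hg
    have lb : ∀ L, ∃ L' ≥ L, ∀ z ∈ X, β ≤ u ((ph C m)^[L'] (ph C m 0)) z ∧
        β ≤ u ((ph C m)^[L'] 0) z := fun L => (gd L).imp fun L' j => ⟨j.1, fun z hz => ⟨by
          rw [← Function.iterate_succ_apply, Function.iterate_succ_apply']
          exact p2 _ m hm j.2 z hz, p1.trans (j.2 z hz)⟩⟩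
    have : ∀ i : ℕ, ∃ L, Cl X (u ((ph C m)^[L] (ph C m 0))) (u ((ph C m)^[L] 0))
        (max g (c ^ i * (1 + 2 * K / β) ^ 2)) := fun i => by
      induction i with
      | zero =>
        obtain ⟨L, -, j⟩ := lb 0
        exact ⟨L, (cl_bd p H.K0 (H.st _) (H.st _) j).mono (by simp)⟩
      | succ i ih =>
        obtain ⟨L, hL⟩ := ih
        obtain ⟨L', l, j⟩ := lb L
        obtain ⟨r, rfl⟩ := Nat.exists_eq_add_of_le' l
        refine ⟨N + (r + L), ?_⟩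
        rw [Function.iterate_add_apply, Function.iterate_add_apply _ N]
        refine (k _ _ _ j (by simpa only [Function.iterate_add_apply] using H.ne hm hL r)).mono ?_
        rw [pow_succ' c, mul_assoc]
        exact max_step c0 c1 hg
    obtain ⟨i, hi⟩ := small (Γ := (1 + 2 * K / β) ^ 2) c0 c1 hg
    exact (this i).imp fun L j => j.mono (max_le le_rfl hi)
  obtain ⟨N, c, c0, c1, k⟩ := con (min θ β₀ / 4) (by positivity) 2 one_lt_two
  obtain ⟨g, g1, g2⟩ : ∃ g > 1, max 2 (c * 4) * g ^ (N + 1) < 4 :=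
    ((eventually_mem_nhdsWithin (s := Set.Ioi (1 : ℝ)) (a := 1)).and
      ((Continuous.tendsto (f := fun g : ℝ => max 2 (c * 4) * g ^ (N + 1)) (by fun_prop) 1).mono_left
        nhdsWithin_le_nhds |>.eventually (gt_mem_nhds (by simp; constructor <;> linarith)))).exists
  obtain ⟨L, hL⟩ := s1 g g1
  obtain ⟨L', l, j⟩ := gd L
  obtain ⟨q, rfl⟩ := Nat.exists_eq_add_of_le' l
  set x := (ph C m)^[q + L] 0 with hx
  have s2 : ∀ r, Cl X (u ((ph C m)^[r] x)) (u x) (g ^ r) := fun r => by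
    induction r with
    | zero => simpa using cl_refl _
    | succ r ih =>
      have := H.ne hm hL (r + q)
      rw [← Function.iterate_add_apply, ← Function.iterate_add_apply, add_assoc,
        ← Function.iterate_succ_apply, Function.iterate_add_apply _ r, ← hx, Nat.succ_eq_add_one,
        add_right_comm, Function.iterate_add_apply] at this
      exact pow_succ' g r ▸ this.trans ih
  have s3 : ∀ r, Cl X (u ((ph C m)^[r] x)) (u x) 4 := fun r => by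
    induction r using Nat.strong_induction_on with
    | _ r ih =>
      have := le_max_left 2 (c * 4)
      rcases le_or_gt r (N + 1) with i | i
      · exact (s2 r).mono (by nlinarith [pow_le_pow_right₀ g1.le i, pow_pos (one_pos.trans g1) r])
      obtain ⟨r, rfl⟩ := Nat.exists_eq_add_of_le i.le
      have i1 := ih r (by omega)
      have := H.ne hm (k _ _ _ (fun z hz => ⟨by linarith [((i1.le (H.nn _ _)).2 z hz).2, j z hz],
        by linarith [j z hz]⟩) i1) 1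
      simp only [← Function.iterate_add_apply] at this
      rw [show 1 + (N + r) = N + 1 + r by omega, add_comm 1 N] at this
      exact (this.trans (s2 _)).mono g2.le
  obtain ⟨β, p, h⟩ := H.low ((range (q + L)).image fun i => (ph C m)^[i] 0)
  refine ⟨min β (min θ β₀ / 4), by positivity, fun r z hz => ?_⟩
  rcases lt_or_ge r (q + L) with i | i
  · exact min_le_of_left_le (h _ (mem_image_of_mem _ (mem_range.2 i)) z hz)
  · obtain ⟨r, rfl⟩ := Nat.exists_eq_add_of_le' i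
    rw [Function.iterate_add_apply]
    exact min_le_of_right_le (by linarith [(((s3 r).le (H.nn _ _)).2 z hz).2, j z hz])

end Pool.Agent.H.MP_e056c9_an
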