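import Pool.Agent.H.MP_e056c9_an.C

namespace Pool.Agent.H.MP_e056c9_an

open Polynomial Filter Topology Finset Classical

variable {T : ℝ → ℝ} {C B Z : Finset ℝ} {X : Set ℝ} {a : ℝ → ℝ → ℝ} {b : ℝ → ℝ}
  {K β₀ β ρ γ γ₀ : ℝ} {u : ℕ → ℝ → ℝ} {m : ℕ}

def Us (X : Set ℝ) (Z : Finset ℝ) (β θ : ℝ) (v : ℝ → ℝ) : Prop :=
  ∀ z ∈ X, 0 ≤ v z ∧ (z ∉ Z → β ≤ v z) ∧ (z ∈ Z → v z ≤ θ)

def Rt (Z : Finset ℝ) (ρ : ℝ) (v : ℝ → ℝ) : Prop := ∀ e ∈ Z, ∀ f ∈ Z, ρ * v f ≤ v e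

def Cz (Z : Finset ℝ) (v w : ℝ → ℝ) (γ : ℝ) : Prop := ∀ e ∈ Z, ∀ f ∈ Z, v e * w f ≤ γ * (w e * v f)

lemma Us.mono {θ θ' : ℝ} {v : ℝ → ℝ} (h : Us X Z β θ v) (k : θ ≤ θ') : Us X Z β θ' v :=
  fun z hz => ⟨(h z hz).1, (h z hz).2.1, fun j => ((h z hz).2.2 j).trans k⟩

lemma Bd.idem (H : Bd T C X a b K B β₀ u) : ∀ e ∈ B, T (T e) = T e := fun e he => by
  have := (H.tb e (H.sub e he)).1 he
  rcases H.typ with j | ⟨f, j⟩
  exacts [j _ this, (j _ this).trans (j e he).symm]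

lemma Bd.utype (H : Bd T C X a b K B β₀ u) (hm : m ≤ C.card)
    (h : ∀ θ > 0, ∀ᶠ L in atTop, ∃ z ∈ B, u ((ph C m)^[L] 0) z < θ) :
    ∃ Z ⊆ B, ∃ β > 0, ∃ ρ > 0, Z.Nonempty ∧ m = (Cs T C Z).card ∧ (∀ z ∈ X, z ∈ Z ↔ T z ∈ Z) ∧
      ∀ θ > 0, ∀ᶠ L in atTop, ∀ k, Us X Z β θ (u ((ph C m)^[L] k)) ∧
        Rt Z ρ (u ((ph C m)^[L] k)) := by
  obtain ⟨c, M, σ, P⟩ := H.gap
  obtain ⟨t, r, t0, t1, t2, r0, r1, r2, r3⟩ := consts P H.b0
  obtain ⟨Γ, hΓ⟩ := H.dec hm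
  have c0 := P.c0
  have g1 : 1 ≤ Γ := ((hΓ 0 0).choose_spec.2.le (H.nn _ _)).1
  have b0 := H.b0
  obtain ⟨x, hx⟩ : ∃ x : ℕ → ℕ, ∀ L, (ph C m)^[L] 0 = x L := ⟨_, fun _ => rfl⟩
  have xs : ∀ L, x (L + 1) = ph C m (x L) := fun L => by
    rw [← hx, ← hx, Function.iterate_succ_apply']
  simp only [hx] at h hΓ
  obtain ⟨W, hW⟩ : ∃ W : ℕ → Finset ℝ, ∀ L, Wd T B (u (x L)) (t * σ (x L) m) = W L :=
    ⟨_, fun _ => rfl⟩
  have wt : ∀ L, ∀ e ∈ B, e ∈ W L ↔ T e ∈ W L := fun L e he => by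
    simp only [← hW, Wd, mem_filter, H.idem e he, he, (H.tb e (H.sub e he)).1 he]
  obtain ⟨L₁, h1⟩ := eventually_atTop.1 (((tendsto_add_atTop_nat 2).eventually (h (c * r)
    (by positivity))).mono fun L ⟨z, hz, k⟩ => show (W L).Nonempty ∧ m = (Cs T C (W L)).card ∧
      W L ⊆ W (L + 1) from by
    rw [xs, xs] at k
    obtain ⟨a1, a2, a3, -⟩ := H.zw P t0 t1 t2 r0 r1 r2 r3 hm hm hz k
    rw [hW] at a1 a2 a3
    refine ⟨⟨_, a2⟩, a3, fun e he => ?_⟩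
    have eB : e ∈ B := (mem_filter.1 (hW L ▸ he)).1
    have := (wt L e eB).1 he
    rw [← a1] at this
    rw [← hW, xs]
    exact mem_filter.2 ⟨eB, mem_filter.2 ⟨(mem_filter.1 this).1, (mem_filter.1 this).2.trans_le
      (mul_le_mul_of_nonneg_right r1 (P.s0 _ m hm).1.le)⟩⟩)
  have wB : ∀ L, W L ⊆ B := fun L => hW L ▸ filter_subset _ _
  have ev : ∀ᶠ L in atTop, W L = B.filter fun e => ∃ L ≥ L₁, e ∈ W L := by
    filter_upwards [(eventually_all_finset B).2 fun e _ => show ∀ᶠ L in atTop,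
      (e ∈ W L ↔ ∃ L ≥ L₁, e ∈ W L) from by
        by_cases j : ∃ L ≥ L₁, e ∈ W L
        · obtain ⟨L, l, k⟩ := id j
          filter_upwards [eventually_ge_atTop L] with n hn
          refine iff_of_true ?_ j
          induction n, hn using Nat.le_induction with
          | base => exact k
          | succ n hn ih => exact (h1 n (l.trans hn)).2.2 ih
        · filter_upwards [eventually_ge_atTop L₁] with n hn using ⟨fun k => ⟨n, hn, k⟩,
            fun k => absurd k j⟩] with L hL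
    ext e
    exact ⟨fun k => mem_filter.2 ⟨wB L k, (hL e (wB L k)).1 k⟩, fun k =>
      (hL e (mem_filter.1 k).1).2 (mem_filter.1 k).2⟩
  generalize (B.filter fun e => ∃ L ≥ L₁, e ∈ W L) = Z at ev
  obtain ⟨L₂, e2, l2⟩ := (ev.and (eventually_ge_atTop L₁)).exists
  refine ⟨Z, e2 ▸ wB L₂, min β₀ (c * t) / Γ, by positivity, c ^ 2 / Γ ^ 2, by positivity,
    e2 ▸ (h1 _ l2).1, e2 ▸ (h1 _ l2).2.1, fun z hz => e2 ▸ ⟨fun k => (wt _ z (wB _ k)).1 k,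
      fun k => (wt _ z ((H.tb z hz).2 (wB _ k))).2 k⟩, fun θ θ0 => ?_⟩
  obtain ⟨L₀, h0⟩ := eventually_atTop.1 (ev.and ((tendsto_add_atTop_nat 1).eventually
    (h (min (c * t) (c ^ 2 * θ / Γ)) (by positivity))))
  filter_upwards [eventually_ge_atTop (L₀ + 1)] with L hL k
  obtain ⟨L, rfl⟩ := Nat.exists_eq_add_of_le' (le_of_add_le_right hL)
  obtain ⟨L', l, cl⟩ := hΓ L k
  obtain ⟨e3, z, hz, k3⟩ := h0 L' (by omega)
  have cl := (cl.le fun z hz => ⟨(H.pos _ z hz).le, (H.pos _ z hz).le⟩).2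
  rw [xs] at k3 cl
  rw [← hW] at e3
  have k4 := k3.trans_le (min_le_left _ _)
  have k5 := (lt_div_iff₀ (by linarith)).1 (k3.trans_le (min_le_right _ _))
  have bl := fun e f he hf => H.bal P t0 t1 t2 hm hz k4 (e := e) (f := f) (e3 ▸ he) (e3 ▸ hf)
  have zZ : z ∈ Z := e3 ▸ mem_filter.2 ⟨hz, (H.sm P t0 t1 t2 hm hz k4).1⟩
  have ZX : ∀ e ∈ Z, e ∈ X := fun e he => H.sub e (wB _ (e2 ▸ he))
  refine ⟨fun y hy => ⟨(H.pos _ y hy).le, fun j => (div_le_iff₀' (by linarith)).2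
    (le_trans ?_ (cl y hy).2), fun j => ?_⟩, fun e he f hf => ?_⟩
  · by_cases yB : y ∈ B
    · exact min_le_of_right_le (not_lt.1 fun i => j (e3 ▸ mem_filter.2
        ⟨yB, (H.sm P t0 t1 t2 hm yB i).1⟩))
    · exact min_le_of_left_le (H.lo _ y hy yB)
  · refine le_of_mul_le_mul_left ?_ (sq_pos_of_pos c0)
    nlinarith [mul_le_mul_of_nonneg_left (cl y hy).1 (sq_nonneg c),
      mul_le_mul_of_nonneg_left (bl z y zZ j) (show 0 ≤ Γ by linarith)]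
  · rw [div_mul_eq_mul_div, div_le_iff₀ (by positivity)]
    nlinarith [mul_le_mul_of_nonneg_left (cl f (ZX f hf)).1 (sq_nonneg c),
      mul_le_mul_of_nonneg_left (bl e f he hf) (show 0 ≤ Γ by linarith),
      mul_le_mul_of_nonneg_left (cl e (ZX e he)).2 (show 0 ≤ Γ by linarith)]

lemma Geo.sub (G : Geo T C X a b) (hZ : ∀ z ∈ X, z ∈ Z ↔ T z ∈ Z) :
    Geo T (Cs T C Z) (X \ Z) a b := by
  have s : Cs T C Z ⊆ C := filter_subset _ _
  refine ⟨fun z hz => ⟨G.mapX z hz.1, fun k => hz.2 ((hZ z hz.1).2 k)⟩, fun c hc =>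
    ⟨G.cX c (s hc), (mem_filter.1 hc).2⟩, fun z hz => (G.ext z hz.1).imp (fun k c hc => k c (s hc))
    fun k c hc => k c (s hc), fun R => (G.fin R).subset fun z hz => ⟨hz.1.1, hz.2⟩,
    fun z hz x hx => G.apos z hz.1 x (insert_subset_insert z s hx), fun c hc => G.bpos c (s hc), ?_⟩
  obtain ⟨c, hc, e⟩ := G.esc
  refine ⟨c, mem_filter.2 ⟨hc, fun k => ?_⟩, e⟩
  have : ∀ l, T^[l] (T c) ∈ X ∧ T^[l] (T c) ∈ Z := fun l => by
    induction l with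
    | zero => exact ⟨G.cX c hc, k⟩
    | succ l ih =>
      rw [Function.iterate_succ_apply']
      exact ⟨G.mapX _ ih.1, (hZ _ ih.1).1 ih.2⟩
  obtain ⟨M, hM⟩ := (Z.finite_toSet.image fun x => |x|).bddAbove
  obtain ⟨l, hl⟩ := (e.eventually_gt_atTop M).exists
  exact hl.not_ge (hM ⟨_, (this l).2, rfl⟩)

lemma cmp (s : Finset ℝ) (hs : ∀ x ∈ s, T x ∈ X) {a : ℝ → ℝ} (ha : ∀ x ∈ s, 0 < a x) (Z : Finset ℝ)
    (hβ : 0 < β) {r : ℝ} (hr : 1 < r) : ∃ θ > 0, ∀ v v', Us X Z β θ v → Us X Z β θ v' →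
      (∀ m, ∀ Λ > 0, (m < (Cs T s Z).card ∧ ∀ z ∈ X \ Z, v z ≤ Λ * v' z) ∨
        ((Cs T s Z).card ≤ m ∧ ∀ z ∈ Z, v z ≤ Λ * v' z) →
        hm s (fun x => a x * v (T x)) m ≤ r * Λ * hm s (fun x => a x * v' (T x)) m) ∧
      Q s (fun x => a x * v (T x)) (Lagrange.nodal (Cs T s Z) id) ≤
        r * hm s (fun x => a x * v (T x)) (Cs T s Z).card := by
  obtain ⟨c, c0, hc⟩ := unif s (p := fun x c => c ≤ a x ∧ c ≤ (a x)⁻¹) (fun x hx =>
    ⟨min (a x) (a x)⁻¹, lt_min (ha x hx) (inv_pos.2 (ha x hx)), min_le_left _ _, min_le_right _ _⟩)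
    fun _ _ _ _ k j => ⟨k.trans j.1, k.trans j.2⟩
  have sN : Cs T s Z ⊆ s := filter_subset _ _
  obtain ⟨θ, θ0, h⟩ := sep sN (mul_pos c0 hβ) (sub_pos.2 hr)
  rw [add_sub_cancel] at h
  have nN : ∀ x ∈ s, x ∉ Cs T s Z → T x ∈ Z := fun x hx k => by_contra fun j => k (mem_filter.2 ⟨hx, j⟩)
  have key := fun v (U : Us X Z β (c * θ) v) => h (fun x => a x * v (T x)) (fun x hx =>
    mul_le_mul (hc x (sN hx)).1 ((U _ (hs x (sN hx))).2.1 (mem_filter.1 hx).2) hβ.le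
      (ha x (sN hx)).le) fun x hx k => ⟨mul_nonneg (ha x hx).le (U _ (hs x hx)).1, by
        have := mul_le_mul_of_nonneg_left (hc x hx).2 (ha x hx).le
        rw [mul_inv_cancel₀ (ha x hx).ne'] at this
        nlinarith [mul_le_mul_of_nonneg_left ((U _ (hs x hx)).2.2 (nN x hx k)) (ha x hx).le]⟩
  have ev : ∀ q : ℝ[X], ∀ x ∈ Cs T s Z, (q - Lagrange.interpolate (Cs T s Z) id q.eval).eval x = 0 :=
    fun q x hx => by
      rw [eval_sub]
      exact sub_eq_zero.2 (Lagrange.eval_interpolate_at_node (v := id) q.eval (Set.injOn_id _) hx).symm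
  have dg : ∀ q : ℝ[X], q.Monic → (Cs T s Z).card ≤ q.natDegree →
      (Lagrange.interpolate (Cs T s Z) id q.eval).degree < q.degree := fun q q1 q2 =>
    (Lagrange.degree_interpolate_lt _ (Set.injOn_id _)).trans_le (by
      rw [degree_eq_natDegree q1.ne_zero]; exact_mod_cast q2)
  refine ⟨c * θ, by positivity, fun v v' U U' => ⟨fun m Λ l0 k => le_mul_hm (by positivity)
    fun q q1 q2 => ?_, le_mul_hm (by positivity) fun q q1 q2 => le_of_eq_of_le ?_ (key v U q).2⟩⟩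
  · have w0 : ∀ x ∈ s, 0 ≤ a x * v (T x) := fun x hx => mul_nonneg (ha x hx).le (U _ (hs x hx)).1
    rcases k with ⟨k1, k2⟩ | ⟨k1, k2⟩
    · refine (hm_le w0 q1 q2).trans (((key v U q).1 (by
        rw [degree_eq_natDegree q1.ne_zero, q2]; exact_mod_cast k1)).trans ?_)
      rw [mul_assoc]
      gcongr
      refine (Q_le (w' := fun x => a x * v' (T x)) (L := Λ) (fun x hx => ?_) q).trans ?_
      · rw [mul_left_comm]
        exact mul_le_mul_of_nonneg_left (k2 _ ⟨hs x (sN hx), (mem_filter.1 hx).2⟩) (ha x (sN hx)).le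
      · gcongr
        exact sum_le_sum_of_subset_of_nonneg sN fun x hx _ =>
          mul_nonneg (mul_nonneg (ha x hx).le (U' _ (hs x hx)).1) (sq_nonneg _)
    · have d := dg q q1 (q2 ▸ k1)
      refine (hm_le w0 (q1.sub_of_left d) ((natDegree_eq_of_degree_eq
        (degree_sub_eq_left_of_degree_lt d)).trans q2)).trans ?_
      rw [mul_comm r, mul_assoc]
      refine le_trans ?_ (mul_le_mul_of_nonneg_left (key v' U' q).2 l0.le)
      rw [Q, Q, mul_sum]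
      refine sum_le_sum fun x hx => ?_
      by_cases j : x ∈ Cs T s Z
      · simp only [ev q x j]; simp
      · rw [← mul_assoc, mul_left_comm]
        gcongr
        exacts [(ha x hx).le, k2 _ (nN x hx j)]
  · have d := dg q q1 q2.ge
    congr 1
    refine eq_of_degree_le_of_eval_finset_eq (Cs T s Z) (Lagrange.degree_nodal).le ?_ ?_ fun x hx => ?_
    · rw [degree_sub_eq_left_of_degree_lt d, degree_eq_natDegree q1.ne_zero, q2, Lagrange.degree_nodal]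
    · rw [Lagrange.nodal_monic.leadingCoeff, (q1.sub_of_left d).leadingCoeff]
    · rw [ev q x hx]; exact Lagrange.eval_nodal_at_node (v := id) hx

end Pool.Agent.H.MP_e056c9_an
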