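import Pool.Agent.H.MP_e056c9_an.D

namespace Pool.Agent.H.MP_e056c9_an

open Polynomial Filter Topology Finset Classical

variable {T : ℝ → ℝ} {C B Z : Finset ℝ} {X : Set ℝ} {a : ℝ → ℝ → ℝ} {b : ℝ → ℝ}
  {K β₀ β ρ γ γ₀ : ℝ} {u : ℕ → ℝ → ℝ} {m : ℕ}

lemma near1 {f : ℝ → ℝ} (hf : Continuous f) {y : ℝ} (h : f 1 < y) : ∃ r > 1, f r < y :=
  ((eventually_mem_nhdsWithin (s := Set.Ioi (1 : ℝ)) (a := 1)).and
    ((hf.tendsto 1).mono_left nhdsWithin_le_nhds |>.eventually (gt_mem_nhds h))).exists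

lemma Cz.ex {v w : ℝ → ℝ} (h : Cz Z v w γ) (ne : Z.Nonempty) (p : ∀ z ∈ Z, 0 < v z ∧ 0 < w z) :
    ∃ L > 0, ∃ L' > 0, (∀ z ∈ Z, v z ≤ L * w z) ∧ (∀ z ∈ Z, w z ≤ L' * v z) ∧ L * L' ≤ γ := by
  obtain ⟨e, he, k⟩ := exists_max_image Z (fun z => v z / w z) ne
  obtain ⟨p1, p2⟩ := p e he
  have g : 1 ≤ γ := le_of_mul_le_mul_right (by linarith [h e he e he]) (mul_pos p1 p2)
  refine ⟨v e / w e, by positivity, γ * w e / v e, by positivity, fun z hz =>
    (div_le_iff₀ (p z hz).2).1 (k z hz), fun z hz => ?_, le_of_eq (by field_simp)⟩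
  rw [div_mul_eq_mul_div, le_div_iff₀ p1]
  linarith [h e he z hz]

lemma Bd.top (H : Bd T C X a b K B β₀ u) (ZB : Z ⊆ B) (ne : Z.Nonempty)
    (hm : m = (Cs T C Z).card) (hβ : 0 < β) (h0 : 1 < γ₀) : ∃ θ > 0, ∃ γ > 1, γ ≤ γ₀ ∧ ∀ k k',
      Us X Z β θ (u k) → Us X Z β θ (u k') → Cl (X \ Z) (u k) (u k') γ → Cz Z (u k) (u k') γ →
        ∀ m' ≤ C.card, m' ≠ m → Cl X (u (ph C m' k)) (u (ph C m' k')) γ₀ := by
  have G := H.G
  obtain ⟨r, r1, r2⟩ := near1 (f := fun r => r ^ 3 * r ^ 3) (by fun_prop) (y := γ₀) (by simpa)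
  have r3 : 1 < r ^ 3 := one_lt_pow₀ r1 (by simp)
  have r4 : r ≤ r ^ 3 := le_self_pow₀ r1.le (by simp)
  obtain ⟨R, hR⟩ := tail K r3
  obtain ⟨θ, θ0, h⟩ := unif (G.fin R).toFinset (fun z hz => cmp (insert z C)
    (G.tx ((Set.Finite.mem_toFinset _).1 hz).1) (G.apos z ((Set.Finite.mem_toFinset _).1 hz).1) Z hβ r1)
    fun z x y _ l j v v' U U' => j v v' (U.mono l) (U'.mono l)
  obtain ⟨θ', θ1, h'⟩ := cmp C G.cX G.bpos Z hβ r1
  have one : ∀ k k' m', m' ≤ C.card → Us X Z β (min θ θ') (u k) → Us X Z β (min θ θ') (u k') →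
      ∀ L > 0, ∀ L' > 0, L * L' ≤ r → (m' < m ∧ Le (X \ Z) (u k) (u k') L ∧
        Le (X \ Z) (u k') (u k) L') ∨ (m < m' ∧ (∀ z ∈ Z, u k z ≤ L * u k' z) ∧
          ∀ z ∈ Z, u k' z ≤ L' * u k z) → Le X (u (ph C m' k)) (u (ph C m' k')) (r ^ 3) := by
    intro k k' m' hm' U U' L l0 L' l1 l2 c
    refine ⟨r3.le, fun z hz => ?_⟩
    rcases le_total |z| R with j | j
    swap
    · exact hR X _ _ (H.st _) (H.st _) z hz j
    have c1 : m ≤ (Cs T (insert z C) Z).card :=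
      hm ▸ card_le_card (filter_subset_filter _ (subset_insert _ _))
    have c2 : (Cs T (insert z C) Z).card ≤ m + 1 := by
      rw [hm, Cs, filter_insert]
      split_ifs
      exacts [Nat.le_succ _, card_insert_le z _]
    have a1 := (h z ((Set.Finite.mem_toFinset _).2 ⟨hz, j⟩) _ _ (U.mono (min_le_left _ _))
      (U'.mono (min_le_left _ _))).1 m' L l0 (c.imp (fun c => ⟨by omega, c.2.1.2⟩)
        fun c => ⟨by omega, c.2.1⟩)
    have a2 : eta T C b m' (u k') ≤ r * L' * eta T C b m' (u k) := by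
      rcases m' with _ | m'
      · rcases c with c | c
        · simp only [eta]; nlinarith [c.2.2.1]
        · omega
      · exact (h' _ _ (U'.mono (min_le_right _ _)) (U.mono (min_le_right _ _))).1 m' L' l1
          (c.imp (fun c => ⟨by omega, c.2.2.2⟩) fun c => ⟨by omega, c.2.2⟩)
    rw [← (H.rel k m' hm').2 z hz, ← (H.rel k' m' hm').2 z hz] at a1
    have e := G.eta_pos hm' (H.pos k)
    have p := H.pos (ph C m' k') z hz
    refine le_of_mul_le_mul_right (a1.trans ?_) e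
    calc _ ≤ r * L * (u (ph C m' k') z * (r * L' * eta T C b m' (u k))) := by gcongr
      _ = r ^ 2 * (L * L') * (u (ph C m' k') z * eta T C b m' (u k)) := by ring
      _ ≤ r ^ 2 * r * (u (ph C m' k') z * eta T C b m' (u k)) := by gcongr
      _ = _ := by ring
  refine ⟨min θ θ', lt_min θ0 θ1, r, r1, by nlinarith, fun k k' U U' c1 c2 m' hm' ne' => ?_⟩
  rcases lt_or_gt_of_ne ne' with j | j
  · obtain ⟨L, L', l1, l2, l3⟩ := c1
    have := l1.1; have := l2.1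
    exact ⟨_, _, one k k' m' hm' U U' L (by linarith) L' (by linarith) l3 (Or.inl ⟨j, l1, l2⟩),
      one k' k m' hm' U' U L' (by linarith) L (by linarith) (by linarith) (Or.inl ⟨j, l2, l1⟩), r2.le⟩
  · obtain ⟨L, p1, L', p2, l1, l2, l3⟩ := c2.ex ne fun z hz => ⟨H.pos _ z (H.sub z (ZB hz)),
      H.pos _ z (H.sub z (ZB hz))⟩
    exact ⟨_, _, one k k' m' hm' U U' L p1 L' p2 l3 (Or.inr ⟨j, l1, l2⟩),
      one k' k m' hm' U' U L' p2 L p1 (by linarith) (Or.inr ⟨j, l2, l1⟩), r2.le⟩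

lemma dsum {s s' : Finset ℝ} {p q p' q' : ℝ → ℝ} {x y κ : ℝ} (hx : x ∈ s) (hy : y ∈ s') (g : 1 ≤ γ)
    (h : ∀ i ∈ s, ∀ j ∈ s', p i * q' j ≤ γ * (q i * p' j)) (e : p x * q' y = q x * p' y)
    (k : κ * ((∑ i ∈ s, q i) * ∑ j ∈ s', p' j) ≤ q x * p' y) :
    (∑ i ∈ s, p i) * ∑ j ∈ s', q' j ≤ (γ - κ * (γ - 1)) * ((∑ i ∈ s, q i) * ∑ j ∈ s', p' j) := by
  have := single_le_sum (s := s ×ˢ s') (f := fun i => γ * (q i.1 * p' i.2) - p i.1 * q' i.2)
    (fun i hi => sub_nonneg.2 (h _ (mem_product.1 hi).1 _ (mem_product.1 hi).2))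
    (show (x, y) ∈ _ from mem_product.2 ⟨hx, hy⟩)
  simp only [sum_sub_distrib, ← mul_sum, sum_product, ← sum_mul, e] at this
  nlinarith [mul_le_mul_of_nonneg_left k (sub_nonneg.2 g)]

lemma Bd.sig (H : Bd T C X a b K B β₀ u) (ZB : Z ⊆ B) (ne : Z.Nonempty)
    (hm : m = (Cs T C Z).card) (hZ : ∀ z ∈ X, z ∈ Z ↔ T z ∈ Z) (hβ : 0 < β) (hρ : 0 < ρ)
    (h0 : 1 < γ₀) : ∃ θ > 0, ∃ c, 0 < c ∧ c < 1 ∧ ∀ k k' γ, Us X Z β θ (u k) → Us X Z β θ (u k') →
      Rt Z ρ (u k) → Rt Z ρ (u k') → Cz Z (u k) (u k') γ →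
        Cz Z (u (ph C m k)) (u (ph C m k')) (max γ₀ (c * γ)) := by
  have G := H.G
  have ZX : ∀ e ∈ Z, e ∈ X := fun e he => H.sub e (ZB he)
  have hC : m ≤ C.card := hm ▸ card_filter_le _ _
  obtain ⟨f, hf⟩ := ne
  have cs : ∀ e ∈ Z, Cs T (insert e C) Z = Cs T C Z := fun e he => by
    rw [Cs, filter_insert, if_neg (not_not.2 ((hZ e (ZX e he)).1 he))]; rfl
  obtain ⟨A, hA⟩ : ∃ A : ℝ → ℝ → ℝ, ∀ e x, a e x * (Lagrange.nodal (Cs T C Z) id).eval x ^ 2 = A e x :=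
    ⟨_, fun _ _ => rfl⟩
  have A0 : ∀ e ∈ Z, ∀ x ∈ insert e C, 0 ≤ A e x := fun e he x hx =>
    hA e x ▸ mul_nonneg (G.apos e (ZX e he) x hx).le (sq_nonneg _)
  have A1 : ∀ e ∈ Z, ∀ x ∈ insert e C, T x ∉ Z → A e x = 0 := fun e he x hx j => by
    rw [← hA, show (Lagrange.nodal (Cs T C Z) id).eval x = 0 from Lagrange.eval_nodal_at_node (v := id)
      (cs e he ▸ mem_filter.2 ⟨hx, j⟩)]; simp
  have ex : ∀ e, ∃ x, e ∈ Z → x ∈ insert e C ∧ T x = f := fun e => by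
    rcases H.cls f (ZB hf) with ⟨x, x1, x2⟩ | j
    exacts [⟨x, fun _ => ⟨mem_insert_of_mem x1, x2⟩⟩, ⟨e, fun he => ⟨mem_insert_self _ _, j e (ZB he)⟩⟩]
  choose x hx using ex
  have p : ∀ e ∈ Z, 0 < A e (x e) := fun e he => hA e _ ▸ mul_pos (G.apos e (ZX e he) _ (hx e he).1)
    (sq_pos_of_ne_zero (Lagrange.eval_nodal_not_at_node fun i hi j => (mem_filter.1 hi).2 (by
      rw [show i = x e from j.symm, (hx e he).2]; exact hf)))
  have q := fun e he => (p e he).trans_le (single_le_sum (A0 e he) (hx e he).1)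
  obtain ⟨κ, k0, hκ⟩ := unif Z (p := fun e κ => κ ≤ 1 ∧ κ ≤ ρ * A e (x e) / ∑ y ∈ insert e C, A e y)
    (fun e he => ⟨_, lt_min one_pos (div_pos (mul_pos hρ (p e he)) (q e he)), min_le_left _ _,
      min_le_right _ _⟩) fun e x y _ l j => ⟨l.trans j.1, l.trans j.2⟩
  have kf : ∀ e ∈ Z, ∀ k, Rt Z ρ (u k) →
      κ * ∑ y ∈ insert e C, A e y * u k (T y) ≤ A e (x e) * u k (T (x e)) := fun e he k R => by
    have a1 : ρ * ∑ y ∈ insert e C, A e y * u k (T y) ≤ (∑ y ∈ insert e C, A e y) * u k f := by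
      rw [mul_sum, sum_mul]
      refine sum_le_sum fun y hy => ?_
      by_cases j : T y ∈ Z
      · rw [mul_left_comm]; exact mul_le_mul_of_nonneg_left (R f hf _ j) (A0 e he y hy)
      · simp [A1 e he y hy j]
    rw [(hx e he).2]
    refine le_of_mul_le_mul_left ?_ hρ
    nlinarith [mul_le_mul_of_nonneg_left a1 k0.le, mul_le_mul_of_nonneg_right
      ((le_div_iff₀ (q e he)).1 (hκ e he).2) (H.pos k f (ZX f hf)).le]
  have k1 := (hκ f hf).1
  have d0 : 0 < 1 - 1 / γ₀ := sub_pos.2 ((div_lt_one (by linarith)).2 h0)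
  have d1 : 0 < 1 / γ₀ := by positivity
  have k2 : κ * κ ≤ 1 := by nlinarith
  obtain ⟨r, r1, r2⟩ := near1 (f := fun r => r * r * (1 - κ * κ * (1 - 1 / γ₀))) (by fun_prop) (y := 1)
    (by simp only [one_mul]; nlinarith [mul_pos (mul_pos k0 k0) d0])
  have c0 : 0 < r * r * (1 - κ * κ * (1 - 1 / γ₀)) := mul_pos (by positivity) (by nlinarith)
  obtain ⟨θ, θ0, h⟩ := unif Z (fun e he => cmp (insert e C) (G.tx (ZX e he)) (G.apos e (ZX e he)) Z hβ r1)
    fun z x y _ l j v v' U U' => j v v' (U.mono l) (U'.mono l)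
  refine ⟨θ, θ0, _, c0, r2, fun k k' γ U U' R R' c e he e' he' => ?_⟩
  have ql : ∀ e k, Q (insert e C) (fun x => a e x * u k (T x)) (Lagrange.nodal (Cs T C Z) id) =
      ∑ y ∈ insert e C, A e y * u k (T y) := fun e k => sum_congr rfl fun y _ => by rw [← hA]; ring
  have up : ∀ e ∈ Z, ∀ k, u (ph C m k) e * eta T C b m (u k) ≤ ∑ y ∈ insert e C, A e y * u k (T y) :=
    fun e he k => by
      rw [(H.rel k m hC).2 e (ZX e he), ← ql]
      exact hm_le (fun y hy => (mul_pos (G.apos e (ZX e he) y hy) (H.pos _ _ (G.tx (ZX e he) y hy))).le)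
        Lagrange.nodal_monic (Lagrange.natDegree_nodal.trans hm.symm)
  have dn : ∀ e ∈ Z, ∀ k, Us X Z β θ (u k) → ∑ y ∈ insert e C, A e y * u k (T y) ≤
      r * (u (ph C m k) e * eta T C b m (u k)) := fun e he k U => by
    have := (h e he _ _ U U).2
    rwa [cs e he, ql, ← hm, ← (H.rel k m hC).2 e (ZX e he)] at this
  have nn : ∀ e ∈ Z, ∀ k, ∀ y ∈ insert e C, 0 ≤ A e y * u k (T y) := fun e he k y hy =>
    mul_nonneg (A0 e he y hy) (H.pos _ _ (G.tx (ZX e he) y hy)).le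
  have g1 := le_max_left γ₀ γ
  have ds := dsum (γ := max γ₀ γ) (κ := κ * κ) (p := fun y => A e y * u k (T y))
    (q := fun y => A e y * u k' (T y)) (p' := fun y => A e' y * u k (T y))
    (q' := fun y => A e' y * u k' (T y)) (hx e he).1 (hx e' he').1 (by linarith) (fun i hi j hj => by
      by_cases l : T i ∈ Z
      · by_cases l' : T j ∈ Z
        · have := mul_le_mul_of_nonneg_left ((c _ l _ l').trans (mul_le_mul_of_nonneg_right
            (le_max_right γ₀ γ) (mul_pos (H.pos k' _ (ZX _ l)) (H.pos k _ (ZX _ l'))).le))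
              (mul_nonneg (A0 e he i hi) (A0 e' he' j hj))
          linarith
        · simp [A1 e' he' j hj l']
      · simp [A1 e he i hi l]) (by simp only [(hx e he).2, (hx e' he').2]; ring) (by
      rw [mul_mul_mul_comm]
      exact mul_le_mul (kf e he k' R') (kf e' he' k R) (mul_nonneg k0.le (sum_nonneg (nn e' he' k)))
        (nn e he k' _ (hx e he).1))
  have e1 := G.eta_pos hC (H.pos k)
  have e2 := G.eta_pos hC (H.pos k')
  have p1 := H.pos (ph C m k) e' (ZX _ he')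
  have p2 := H.pos (ph C m k') e (ZX _ he)
  have a1 := mul_le_mul (up e he k) (up e' he' k') (mul_pos (H.pos _ _ (ZX _ he')) e2).le
    (sum_nonneg (nn e he k))
  have a2 := mul_le_mul (dn e he k' U') (dn e' he' k U) (sum_nonneg (nn e' he' k)) (by positivity)
  have a3 : max γ₀ γ - κ * κ * (max γ₀ γ - 1) ≤ (1 - κ * κ * (1 - 1 / γ₀)) * max γ₀ γ := by
    have : 1 ≤ 1 / γ₀ * max γ₀ γ := by rw [one_div_mul_eq_div, one_le_div (by linarith)]; exact g1
    nlinarith [mul_le_mul_of_nonneg_left this (mul_self_nonneg κ)]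
  have a4 : r * r * (1 - κ * κ * (1 - 1 / γ₀)) * max γ₀ γ ≤
      max γ₀ (r * r * (1 - κ * κ * (1 - 1 / γ₀)) * γ) :=
    (le_max_right _ _).trans (max_step c0 r2 h0)
  refine le_of_mul_le_mul_right ?_ (mul_pos e1 e2)
  calc _ = u (ph C m k) e * eta T C b m (u k) * (u (ph C m k') e' * eta T C b m (u k')) := by ring
    _ ≤ _ := a1.trans ds
    _ ≤ (1 - κ * κ * (1 - 1 / γ₀)) * max γ₀ γ * (r * (u (ph C m k') e * eta T C b m (u k')) *
        (r * (u (ph C m k) e' * eta T C b m (u k)))) := mul_le_mul a3 a2 (mul_nonneg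
          (sum_nonneg (nn e he k')) (sum_nonneg (nn e' he' k))) (mul_nonneg (by nlinarith) (by linarith))
    _ = r * r * (1 - κ * κ * (1 - 1 / γ₀)) * max γ₀ γ * (u (ph C m k') e * u (ph C m k) e') *
        (eta T C b m (u k) * eta T C b m (u k')) := by ring
    _ ≤ _ := by gcongr

lemma Bd.run (H : Bd T C X a b K B β₀ u) (h0 : 1 < γ₀) (hm : m ≤ C.card) : ∀ᶠ L in atTop, ∀ k k',
    (∀ z ∈ X, z ∉ B → u ((ph C m)^[L] k) z ≤ γ₀ * u ((ph C m)^[L] k') z) ∧ ∀ m' ≤ C.card, m' ≠ m →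
      Cl X (u (ph C m' ((ph C m)^[L] k))) (u (ph C m' ((ph C m)^[L] k'))) γ₀ := by
  have G := H.G
  rcases H.calka hm with ⟨β, b0, h⟩ | h
  · obtain ⟨Γ, hΓ⟩ := H.dec hm
    have g1 : 1 ≤ Γ := ((hΓ 0 0).choose_spec.2.le (H.nn _ _)).1
    have lo : ∀ L k, ∀ z ∈ X, β / Γ ≤ u ((ph C m)^[L] (ph C m k)) z := fun L k z hz => by
      obtain ⟨L', -, c⟩ := hΓ L k
      exact (div_le_iff₀' (by linarith)).2 ((h _ z hz).trans ((c.le (H.nn _ _)).2 z hz).2)
    obtain ⟨N, hN⟩ := G.iter H.K0 (show 0 < β / Γ by positivity) h0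
    filter_upwards [eventually_ge_atTop (N + 1)] with L hL k k'
    obtain ⟨L, rfl⟩ := Nat.exists_eq_add_of_le hL
    have := hN _ _ _ (H.chn hm N (ph C m ((ph C m)^[L] k))) (H.chn hm N (ph C m ((ph C m)^[L] k')))
      fun j _ z hz => ⟨lo _ _ z hz, lo _ _ z hz⟩
    simp only [Function.iterate_add_apply, Function.iterate_one]
    exact ⟨fun z hz _ => ((this.le (H.nn _ _)).2 z hz).1, fun m' hm' _ =>
      G.cl (H.rel _ m' hm') (H.rel _ m' hm') (H.pos _) (H.pos _) this⟩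
  obtain ⟨Z, ZB, β, b0, ρ, r0, ne, cm, hZ, h⟩ := H.utype hm h
  obtain ⟨θ₁, t1, γ, g1, g2, top⟩ := H.top ZB ne cm b0 h0
  obtain ⟨N, θ₂, t2, red⟩ := G.red (G.sub hZ) (filter_subset _ _) Set.sdiff_subset cm.le H.K0 b0 g1
  obtain ⟨θ₃, t3, c, c0, c1, sig⟩ := H.sig ZB ne cm hZ b0 r0 g1
  obtain ⟨i, hi⟩ := small (Γ := 1 / ρ ^ 2) c0 c1 g1
  obtain ⟨L₀, hL⟩ := eventually_atTop.1 (h (min θ₁ (min θ₂ θ₃)) (by positivity))
  have sg : ∀ i k k', Cz Z (u ((ph C m)^[i + L₀] k)) (u ((ph C m)^[i + L₀] k'))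
      (max γ (c ^ i * (1 / ρ ^ 2))) := fun i k k' => by
    have p := fun k e he => H.pos k e (H.sub e (ZB he))
    induction i with
    | zero =>
      intro e he f hf
      refine le_trans ?_ (mul_le_mul_of_nonneg_right (le_max_right _ _) (mul_pos (p _ e he) (p _ f hf)).le)
      rw [pow_zero, one_mul, one_div_mul_eq_div, le_div_iff₀ (by positivity)]
      nlinarith [mul_le_mul ((hL _ (Nat.le_add_left _ 0) k).2 f hf e he)
        ((hL _ (Nat.le_add_left _ 0) k').2 e he f hf) (mul_pos r0 (p _ f hf)).le (p _ f hf).le]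
    | succ i ih =>
      have a1 := hL _ (Nat.le_add_left _ i) k
      have a2 := hL _ (Nat.le_add_left _ i) k'
      rw [add_right_comm, Function.iterate_succ_apply', Function.iterate_succ_apply', pow_succ' c,
        mul_assoc]
      exact fun e he f hf => (sig _ _ _ (a1.1.mono (by simp)) (a2.1.mono (by simp)) a1.2 a2.2 ih
        e he f hf).trans (mul_le_mul_of_nonneg_right (max_step c0 c1 g1)
          (mul_pos (p _ e he) (p _ f hf)).le)
  filter_upwards [eventually_ge_atTop (N + (i + L₀))] with L l k k'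
  obtain ⟨L, rfl⟩ := Nat.exists_eq_add_of_le l
  have us := fun j k => by
    simpa only [Function.iterate_add_apply] using (hL (j + (i + L₀ + L)) (by omega) k).1
  have cl := red _ _ (H.chn hm N ((ph C m)^[i + L₀ + L] k)) (H.chn hm N ((ph C m)^[i + L₀ + L] k'))
    fun j _ => by
      simp only [Function.iterate_add_apply]
      exact ⟨fun z hz => ⟨(us _ _ z hz.1).2.1 hz.2, (us _ _ z hz.1).2.1 hz.2⟩, fun c hc j => by
        have : T c ∈ Z := by_contra fun i => j (mem_filter.2 ⟨hc, i⟩)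
        exact ⟨((us _ _ _ (G.cX c hc)).2.2 this).trans (by simp),
          ((us _ _ _ (G.cX c hc)).2.2 this).trans (by simp)⟩⟩
  simp only [Nat.sub_zero, ← Function.iterate_add_apply, ← add_assoc] at cl ⊢
  refine ⟨fun z hz j => ((cl.le fun z hz => H.nn _ _ z hz.1).2 z ⟨hz, fun i => j (ZB i)⟩).1.trans
    (mul_le_mul_of_nonneg_right g2 (H.pos _ z hz).le), top _ _ ((hL _ (by omega) k).1.mono (by simp))
      ((hL _ (by omega) k').1.mono (by simp)) cl fun e he f hf => ?_⟩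
  have := sg i ((ph C m)^[N + L] k) ((ph C m)^[N + L] k') e he f hf
  simp only [← Function.iterate_add_apply, show i + L₀ + (N + L) = N + i + L₀ + L by omega,
    max_eq_left hi] at this
  exact this

def Ch (C : Finset ℝ) (s : ℕ) (g n : ℕ → ℕ) : Prop :=
  ∀ j < s, g j ≤ C.card ∧ n j = ph C (g j) (n (j + 1))

lemma Bd.up (H : Bd T C X a b K B β₀ u) {s j : ℕ} {g n n' : ℕ → ℕ} (h : Ch C s g n)
    (h' : Ch C s g n') (hj : j ≤ s) (c : Cl X (u (n j)) (u (n' j)) γ) :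
    Cl X (u (n 0)) (u (n' 0)) γ := by
  induction j with
  | zero => exact c
  | succ j ih =>
    refine ih (by omega) ?_
    rw [(h j hj).2, (h' j hj).2]
    exact H.G.cl (H.rel _ _ (h j hj).1) (H.rel _ _ (h j hj).1) (H.pos _) (H.pos _) c

lemma Ch.run {s j L : ℕ} {g n : ℕ → ℕ} (h : Ch C s g n) (hj : j + L ≤ s)
    (e : ∀ i < L, g (j + i) = m) : n j = (ph C m)^[L] (n (j + L)) := by
  induction L with
  | zero => rfl
  | succ L ih =>
    rw [ih (by omega) fun i hi => e i (by omega), (h (j + L) (by omega)).2, e L (by omega)]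
    rfl

lemma Bd.main (H : Bd T C X a b K B β₀ u) (h0 : 1 < γ₀) : ∃ s, ∀ g n n', Ch C s g n → Ch C s g n' →
    ∀ z ∈ X, z ∉ B → u (n 0) z ≤ γ₀ * u (n' 0) z := by
  obtain ⟨β, b0, tm⟩ := H.tame
  obtain ⟨N, c, c0, c1, con⟩ := H.G.con H.K0 b0 h0
  obtain ⟨L₀, hL⟩ := eventually_atTop.1 ((eventually_all_finset (range (C.card + 1))).2
    fun m hm => H.run h0 (mem_range_succ_iff.1 hm))
  replace hL := fun L l m hm => hL L l m (mem_range_succ_iff.2 hm)
  have lo : ∀ s g n p, Ch C s g n → p + 1 < s → g p ≠ g (p + 1) → ∀ z ∈ X, β ≤ u (n p) z :=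
    fun s g n p h l j z hz => by
      rw [(h p (by omega)).2, (h _ l).2]
      exact tm _ _ (h p (by omega)).1 _ (h _ l).1 j z hz
  have cl : ∀ i : ℕ, ∃ s, L₀ + 2 ≤ s ∧ ∀ g n n', Ch C s g n → Ch C s g n' →
      Cl X (u (n 0)) (u (n' 0)) (max γ₀ (c ^ i * (1 + 2 * K / β) ^ 2)) ∨
        ∀ j < L₀ + 1, g j = g (j + 1) := fun i => by
    induction i with
    | zero =>
      refine ⟨_, le_rfl, fun g n n' h h' => or_iff_not_imp_right.2 fun k => ?_⟩
      push Not at k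
      obtain ⟨p, l, k⟩ := k
      exact H.up h h' (by omega) ((cl_bd b0 H.K0 (H.st _) (H.st _) fun z hz =>
        ⟨lo _ _ _ p h (by omega) k z hz, lo _ _ _ p h' (by omega) k z hz⟩).mono (by simp))
    | succ i ih =>
      obtain ⟨s, s1, ih⟩ := ih
      refine ⟨N + L₀ + 1 + s, by omega, fun g n n' h h' => ?_⟩
      by_cases k : ∃ p < L₀ + 1, g (p + N) ≠ g (p + N + 1)
      · obtain ⟨p, l, k⟩ := k
        have sh : ∀ n, Ch C (N + L₀ + 1 + s) g n → Ch C s (fun j => g (p + N + j))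
            (fun j => n (p + N + j)) ∧ Chn T C X a b K N (fun j => g (p + j)) fun j => u (n (p + j)) :=
          fun n h => ⟨fun j hj => h _ (by omega), fun j hj => by
            have := h (p + j) (by omega)
            simp only [this.2]
            exact H.rel _ _ this.1, fun _ _ => H.st _⟩
        refine Or.inl (H.up h h' (show p ≤ _ by omega) ((con _ _ _ _ (sh n h).2 (sh n' h').2
          (fun z hz => ⟨lo _ _ _ _ h (by omega) k z hz, lo _ _ _ _ h' (by omega) k z hz⟩)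
          ((ih _ _ _ (sh n h).1 (sh n' h').1).resolve_right fun j => k (j 0 (by omega)))).mono ?_))
        rw [pow_succ' c, mul_assoc]
        exact max_step c0 c1 h0
      push Not at k
      have ex : ∃ j, j ≤ N ∧ ∀ i, j ≤ i → i < L₀ + 1 + N → g i = g (i + 1) :=
        ⟨N, le_rfl, fun i l l' => by simpa [Nat.sub_add_cancel l] using k (i - N) (by omega)⟩
      obtain ⟨j1, j2⟩ := Nat.find_spec ex
      have j3 := @Nat.find_min _ _ ex
      generalize Nat.find ex = j at j1 j2 j3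
      rcases j with _ | j
      · exact Or.inr fun i l => j2 i (by omega) (by omega)
      have ne : g j ≠ g (j + 1) := fun e => j3 (Nat.lt_succ_self j) ⟨by omega, fun i l l' =>
        l.eq_or_lt.elim (fun e' => e' ▸ e) fun l => j2 i l l'⟩
      have rn : ∀ i < L₀, g (j + 1 + i) = g (j + 1) := fun i hi => by
        induction i with
        | zero => rfl
        | succ i ih => rw [← add_assoc, ← j2 _ (by omega) (by omega), ih (by omega)]
      refine Or.inl (H.up h h' (show j ≤ _ by omega) (Cl.mono ?_ (le_max_left _ _)))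
      rw [(h j (by omega)).2, (h' j (by omega)).2, h.run (by omega) rn, h'.run (by omega) rn]
      exact (hL _ le_rfl _ (h _ (by omega)).1 _ _).2 _ (h _ (by omega)).1 ne
  obtain ⟨i, hi⟩ := small (Γ := (1 + 2 * K / β) ^ 2) c0 c1 h0
  obtain ⟨s, s1, h⟩ := cl i
  refine ⟨s, fun g n n' h1 h2 z hz zB => (h g n n' h1 h2).elim (fun k =>
    (((k.mono (max_le le_rfl hi)).le (H.nn _ _)).2 z hz).1) fun k => ?_⟩
  have rn : ∀ i < L₀, g (0 + i) = g 0 := fun i hi => by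
    induction i with
    | zero => rfl
    | succ i ih => rw [← add_assoc, zero_add, ← k _ (by omega), ← ih (by omega), zero_add]
  rw [h1.run (by omega) rn, h2.run (by omega) rn]
  exact (hL _ le_rfl _ (h1 0 (by omega)).1 _ _).1 z hz zB

lemma Bd.per (H : Bd T C X a b K B β₀ u) (h0 : 1 < γ₀) : ∃ s, ∀ n t, ∀ z ∈ X, z ∉ B →
    u (n + (C.card + 1) ^ s * t) z ≤ γ₀ * u n z ∧ u n z ≤ γ₀ * u (n + (C.card + 1) ^ s * t) z := by
  obtain ⟨s, h⟩ := H.main h0
  refine ⟨s, fun n t z hz zB => ?_⟩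
  have a1 : Ch C s (fun j => n / (C.card + 1) ^ j % (C.card + 1)) fun j => n / (C.card + 1) ^ j :=
    fun j _ => ⟨(ph_div C _).2, by
      simp only [pow_succ, ← Nat.div_div_eq_div_mul]; exact (ph_div C _).1⟩
  have a2 : Ch C s (fun j => n / (C.card + 1) ^ j % (C.card + 1))
      fun j => n / (C.card + 1) ^ j + (C.card + 1) ^ (s - j) * t := fun j hj => ⟨(a1 j hj).1, by
    have := (a1 j hj).2
    simp only [ph] at this ⊢
    rw [show s - j = s - (j + 1) + 1 by omega, pow_succ _ (s - (j + 1))]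
    linarith⟩
  simpa using And.intro (h _ _ _ a2 a1 z hz zB) (h _ _ _ a1 a2 z hz zB)

end Pool.Agent.H.MP_e056c9_an
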