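import Pool.Agent.H.MP_7f7d18_an.B

namespace Pool.Agent.H.MP_e056c9_an

open MeasureTheory Set Filter Topology Pool.Agent.H.MP_7f7d18_an
open scoped ENNReal

noncomputable def lam (D : ℝ) : Measure ℝ :=
  (volume.restrict (Ioo 0 D)).withDensity (fun r => ENNReal.ofReal (1 / r ^ 2)) +
    ENNReal.ofReal (1 / D) • Measure.dirac D

instance (D : ℝ) : SFinite (lam D) := by unfold lam; infer_instance

def SS : Set ((ℝ × ℝ) × ℝ) := {q | q.1.2 - q.1.1 ≤ q.2 ∧ q.2 ≤ q.1.2}

lemma SSm : MeasurableSet SS := by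
  unfold SS
  measurability

lemma lam_int {D u : ℝ} (u0 : 0 < u) (h : u ≤ D) :
    ∫⁻ r, ENNReal.ofReal (r - u) ∂lam D = ENNReal.ofReal (Real.log (D / u)) := by
  have D0 := u0.trans_le h
  have c : ContinuousOn (fun r : ℝ => 1 / r ^ 2 * (r - u)) (Icc u D) := by
    refine ContinuousOn.mul (continuousOn_const.div (by fun_prop) fun x hx => ?_) (by fun_prop)
    exact pow_ne_zero 2 (u0.trans_le hx.1).ne'
  have e : ∫ r in u..D, 1 / r ^ 2 * (r - u) = Real.log D + u / D - (Real.log u + u / u) :=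
    intervalIntegral.integral_eq_sub_of_hasDerivAt (f := fun r => Real.log r + u / r) (fun x hx => by
      rw [uIcc_of_le h] at hx
      have x0 := (u0.trans_le hx.1).ne'
      refine ((Real.hasDerivAt_log x0).add ((hasDerivAt_inv x0).const_mul u)).congr_deriv ?_
      field_simp
      ring) (c.intervalIntegrable_of_Icc h)
  have nn : 0 ≤ᵐ[volume.restrict (Ioo u D)] fun r : ℝ => 1 / r ^ 2 * (r - u) :=
    (ae_restrict_mem measurableSet_Ioo).mono fun r hr =>
      mul_nonneg (by positivity) (sub_nonneg.2 hr.1.le)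
  rw [lam, lintegral_add_measure, lintegral_smul_measure, lintegral_dirac,
    lintegral_withDensity_eq_lintegral_mul _ (by fun_prop) (by fun_prop),
    ← setLIntegral_eq_of_support_subset (s := Ioi u), Measure.restrict_restrict measurableSet_Ioi,
    show Ioi u ∩ Ioo 0 D = Ioo u D from Set.ext fun r => ⟨fun h => ⟨h.1, h.2.2⟩, fun h =>
      ⟨h.1, u0.trans h.1, h.2⟩⟩]
  · simp only [Pi.mul_apply]
    rw [lintegral_congr (g := fun r => ENNReal.ofReal (1 / r ^ 2 * (r - u))) fun r =>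
      (ENNReal.ofReal_mul (by positivity)).symm, ← ofReal_integral_eq_lintegral_ofReal ((c.integrableOn_Icc).mono_set Ioo_subset_Icc_self) nn,
      smul_eq_mul, ← ENNReal.ofReal_mul (by positivity), ← ENNReal.ofReal_add (integral_nonneg_of_ae nn)
        (mul_nonneg (by positivity) (by linarith)), ← integral_Ioc_eq_integral_Ioo,
      ← intervalIntegral.integral_of_le h, e, Real.log_div D0.ne' u0.ne']
    congr 1
    field_simp
    ring
  · exact fun r hr => by_contra fun j => hr (by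
      simp [ENNReal.ofReal_eq_zero.2 (sub_nonpos.2 (not_lt.1 j))])

lemma ker (D : ℝ) (μ ν : Measure ℝ) [IsProbabilityMeasure μ] [IsProbabilityMeasure ν] :
    ∫⁻ x, ∫⁻ y, ∫⁻ r, ENNReal.ofReal (r - |x - y|) ∂lam D ∂ν ∂μ =
      ∫⁻ p, μ (Prod.mk p ⁻¹' SS) * ν (Prod.mk p ⁻¹' SS) ∂(lam D).prod volume := by
  have m : MeasurableSet {q : (ℝ × ℝ) × ℝ × ℝ | (q.1, q.2.1) ∈ SS ∧ (q.1, q.2.2) ∈ SS} :=
    (SSm.preimage (by fun_prop)).inter (SSm.preimage (by fun_prop))
  have a := Measure.prod_apply (μ := (lam D).prod volume) (ν := μ.prod ν) m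
  rw [Measure.prod_apply_symm m, lintegral_prod _ (measurable_measure_prodMk_right m).aemeasurable] at a
  simp only [← Measure.prod_prod]
  refine Eq.trans (lintegral_congr fun x => lintegral_congr fun y => ?_) a
  rw [Measure.prod_apply (m.preimage (by fun_prop))]
  refine lintegral_congr fun r => ?_
  rw [show r - |x - y| = min x y + r - max x y by rw [← max_sub_min_eq_abs']; ring, ← Real.volume_Icc]
  congr 1
  ext t
  simp only [SS, mem_Icc, mem_preimage, mem_ofPred_eq, max_le_iff, ← sub_le_iff_le_add, le_min_iff]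
  tauto

lemma uniq {K : Set ℝ} {α D : ℝ} (D0 : 0 < D) (hK : K ⊆ Ico α (α + D)) {μ ν : Measure ℝ}
    [IsProbabilityMeasure μ] [IsProbabilityMeasure ν] (hμ : μ Kᶜ = 0) (hν : ν Kᶜ = 0) {e : ℝ≥0∞}
    (he : e < ⊤) (hU : ∀ x ∈ K, U D ν x = e) (h : ∫⁻ x, U D μ x ∂μ ≤ ∫⁻ x, U D ν x ∂ν) : μ = ν := by
  have am : ∀ᵐ x ∂μ, x ∈ K := hμ
  have an : ∀ᵐ x ∂ν, x ∈ K := hν
  have kk : ∀ x ∈ K, ∀ y ∈ K, y ≠ x → ∫⁻ r, ENNReal.ofReal (r - |x - y|) ∂lam D = k D x y :=
    fun x hx y hy j => by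
      rw [k, if_neg j.symm]
      exact lam_int (abs_pos.2 (sub_ne_zero.2 j.symm)) (abs_le.2
        ⟨by linarith [(hK hx).1, (hK hy).2], by linarith [(hK hx).2, (hK hy).1]⟩)
  have e1 : ∫⁻ x, U D ν x ∂ν = e := by rw [lintegral_congr_ae (an.mono hU)]; simp
  have na := no_atom (e1 ▸ he)
  have e2 : ∀ ρ : Measure ℝ, IsProbabilityMeasure ρ → (∀ᵐ x ∂ρ, x ∈ K) →
      ∫⁻ p, ρ (Prod.mk p ⁻¹' SS) * ν (Prod.mk p ⁻¹' SS) ∂(lam D).prod volume = e := fun ρ _ a => by
    rw [← ker, lintegral_congr_ae (g := fun _ => e)]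
    · simp
    filter_upwards [a] with x hx
    rw [← hU x hx]
    exact lintegral_congr_ae ((an.and (ae_ne (na x))).mono fun y hy => kk x hx y hy.1 hy.2)
  have e3 : ∫⁻ p, μ (Prod.mk p ⁻¹' SS) * μ (Prod.mk p ⁻¹' SS) ∂(lam D).prod volume ≤ e := by
    rw [← ker]
    refine le_trans (lintegral_mono_ae (am.mono fun x hx => lintegral_mono_ae (am.mono fun y hy => ?_)))
      (h.trans e1.le)
    by_cases j : y = x
    · simp [k, j]
    · exact (kk x hx y hy j).le
  have m1 := measurable_measure_prodMk_left (ν := μ) SSm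
  have m2 := measurable_measure_prodMk_left (ν := ν) SSm
  have sq : ∀ a b : ℝ≥0∞, a ≠ ⊤ → b ≠ ⊤ → a * a + b * b =
      a * b + a * b + ENNReal.ofReal ((a.toReal - b.toReal) ^ 2) := fun a b ha hb => by
    lift a to NNReal using ha
    lift b to NNReal using hb
    rw [ENNReal.ofReal]
    norm_cast
    ext
    simp only [NNReal.coe_add, NNReal.coe_mul, ENNReal.coe_toReal, Real.coe_toNNReal _ (sq_nonneg _)]
    ring
  have e4 := lintegral_add_left (μ := (lam D).prod volume) (m1.mul m1)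
    fun p => ν (Prod.mk p ⁻¹' SS) * ν (Prod.mk p ⁻¹' SS)
  simp only [Pi.mul_apply] at e4
  rw [lintegral_congr fun p => sq _ _ (measure_ne_top μ _) (measure_ne_top ν _),
    lintegral_add_left ((m1.fun_mul m2).fun_add (m1.fun_mul m2)), lintegral_add_left (m1.fun_mul m2), e2 μ ‹_› am,
    e2 ν ‹_› an] at e4
  have e5 := (ENNReal.add_le_add_iff_left (ENNReal.add_ne_top.2 ⟨he.ne, he.ne⟩)).1
    ((e4.le.trans (add_le_add_left e3 e)).trans (add_zero _).ge)
  rw [nonpos_iff_eq_zero, lintegral_eq_zero_iff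
    ((m1.ennreal_toReal.fun_sub m2.ennreal_toReal).pow_const 2).ennreal_ofReal] at e5
  have e6 := Measure.ae_ae_of_ae_prod e5
  rw [lam, ae_add_measure_iff, Measure.ae_ennreal_smul_measure_iff (by simpa), ae_dirac_eq,
    eventually_pure] at e6
  have dn : Dense {t | ProbabilityTheory.cdf μ t = ProbabilityTheory.cdf ν t} :=
    Measure.dense_of_ae (μ := volume) (e6.2.mono fun t ht => by
      rw [ProbabilityTheory.cdf_eq_real, ProbabilityTheory.cdf_eq_real]
      rcases le_total t (α + D) with j | j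
      · have : ∀ ρ : Measure ℝ, (∀ᵐ x ∂ρ, x ∈ K) → ρ (Iic t) = ρ (Prod.mk (D, t) ⁻¹' SS) :=
          fun ρ a => measure_congr (a.mono fun x hx => propext
            ⟨fun i => ⟨by linarith [(hK hx).1], i⟩, fun i => i.2⟩)
        simp only [Pi.zero_apply, ENNReal.ofReal_eq_zero, sq_nonpos_iff, sub_eq_zero] at ht
        rw [Measure.real, Measure.real, this μ am, this ν an, ht]
      · have : ∀ ρ : Measure ℝ, (∀ᵐ x ∂ρ, x ∈ K) → ρ (Iic t) = ρ univ :=
          fun ρ a => measure_congr (a.mono fun x hx => propext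
            ⟨fun _ => trivial, fun _ => ((hK hx).2.trans_le j).le⟩)
        rw [Measure.real, Measure.real, this μ am, this ν an, measure_univ, measure_univ])
  refine Measure.eq_of_cdf μ ν (StieltjesFunction.ext fun t => ?_)
  obtain ⟨s, -, s1, s2⟩ := dn.exists_seq_strictAnti_tendsto t
  have s3 := tendsto_nhdsWithin_iff.2 ⟨s2, Eventually.of_forall fun n => (mem_Ici.2 (s1 n).1.le)⟩
  exact tendsto_nhds_unique (((ProbabilityTheory.cdf μ).right_continuous t).tendsto.comp s3)
    ((((ProbabilityTheory.cdf ν).right_continuous t).tendsto.comp s3).congr fun n => (s1 n).2.symm)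

lemma rpot {K : Set ℝ} (hK : IsCompact K) {μ : Measure ℝ} [IsProbabilityMeasure μ] (hμ : μ Kᶜ = 0)
    {t D g : ℝ} (D0 : 0 < D) (hD : ∀ y ∈ K, |t - y| + 1 ≤ D) (hg : Tendsto (fun n : ℕ => ∫ y : ℝ,
      Real.log ‖(⟨t, 1 / (n + 1)⟩ : ℂ) - y‖ ∂μ) atTop (𝓝 g)) :
    U D μ t = ENNReal.ofReal (Real.log D - g) := by
  have ae : ∀ᵐ y ∂μ, y ∈ K := hμ
  set z : ℕ → ℂ := fun n => ⟨t, 1 / (n + 1)⟩ with hz
  have zp : ∀ n (y : ℝ), 0 < ‖z n - y‖ := fun n y => norm_pos_iff.2 fun e => by
    have := congrArg Complex.im e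
    simp [hz] at this
    linarith [(n.cast_nonneg : (0 : ℝ) ≤ n)]
  have zc : ∀ n, Continuous fun y : ℝ => Real.log ‖z n - y‖ := fun n =>
    Continuous.log (by fun_prop) fun y => (zp n y).ne'
  have zs : ∀ n (y : ℝ), ‖z n - y‖ = √((t - y) ^ 2 + (1 / (n + 1)) ^ 2) := fun n y => by
    rw [Complex.norm_eq_sqrt_sq_add_sq]; simp [hz]
  have l1 : Tendsto (fun n => ∫⁻ y : ℝ, ENNReal.ofReal (Real.log D - Real.log ‖z n - y‖) ∂μ) atTop
      (𝓝 (U D μ t)) := by
    refine lintegral_tendsto_of_tendsto_of_monotone (fun n => ((continuous_const.sub (zc n)).measurable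
      ).ennreal_ofReal.aemeasurable) (Eventually.of_forall fun y m n hmn => ?_)
      (Eventually.of_forall fun y => ?_)
    · refine ENNReal.ofReal_le_ofReal (sub_le_sub_left (Real.log_le_log (zp n y) ?_) _)
      rw [zs, zs]
      have : (m : ℝ) ≤ n := by exact_mod_cast hmn
      gcongr
    · have a : Tendsto (fun n => ‖z n - y‖) atTop (𝓝 |t - y|) := by
        simpa only [zs, ← Real.sqrt_sq_eq_abs, zero_pow two_ne_zero, add_zero] using
          (((tendsto_one_div_add_atTop_nhds_zero_nat (𝕜 := ℝ)).pow 2).const_add ((t - y) ^ 2)).sqrt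
      by_cases e : t = y
      · rw [k, if_pos e]
        rw [e, sub_self, abs_zero] at a
        exact ENNReal.tendsto_ofReal_atTop.comp (tendsto_atTop_add_const_left _ _
          (tendsto_neg_atBot_atTop.comp (Real.tendsto_log_nhdsGT_zero.comp
            (tendsto_nhdsWithin_iff.2 ⟨a, Eventually.of_forall fun n => e ▸ zp n y⟩))))
      · have p : |t - y| ≠ 0 := abs_ne_zero.2 (sub_ne_zero.2 e)
        rw [k, if_neg e, Real.log_div D0.ne' p]
        exact ENNReal.tendsto_ofReal ((a.log p).const_sub _)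
  refine tendsto_nhds_unique l1 ((ENNReal.tendsto_ofReal (hg.const_sub (Real.log D))).congr fun n => ?_)
  have i : Integrable (fun y : ℝ => Real.log ‖z n - y‖) μ := int_cont hK hμ (zc n)
  rw [← ofReal_integral_eq_lintegral_ofReal (f := fun y : ℝ => Real.log D - Real.log ‖z n - y‖)
    ((integrable_const _).sub i), integral_sub (integrable_const _) i]
  · simp [hz]
  · filter_upwards [ae] with y hy
    refine sub_nonneg.2 (Real.log_le_log (zp n y) ?_)
    have a : (1 : ℝ) / (n + 1) ≤ 1 := by rw [div_le_one (by positivity)]; simp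
    have b := Complex.norm_le_abs_re_add_abs_im (z n - y)
    simp only [hz, Complex.sub_re, Complex.ofReal_re, Complex.sub_im, Complex.ofReal_im, sub_zero,
      abs_of_pos (show (0 : ℝ) < 1 / (n + 1) by positivity)] at b
    simp only [hz]
    linarith [hD y hy]

lemma limK {K : Set ℝ} (hK : IsCompact K) {s : ℕ → Multiset ℝ} (h : ∀ n, ∀ x ∈ s n, x ∈ K)
    (h0 : ∀ n, (s n).card ≠ 0) : ∃ μ : Measure ℝ, IsProbabilityMeasure μ ∧ μ Kᶜ = 0 ∧
      ∃ m : ℕ → ℕ, StrictMono m ∧ ∀ φ : ℝ → ℝ, Continuous φ → Tendsto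
        (fun n => ((s (m n)).map φ).sum / (s (m n)).card) atTop (𝓝 (∫ y, φ y ∂μ)) := by
  have := isCompact_iff_compactSpace.1 hK
  let ν : ℕ → ProbabilityMeasure K := fun n =>
    ⟨((s n).card : ℝ≥0∞)⁻¹ • ∑ x : s n, Measure.dirac ⟨x, h n _ (Multiset.coe_mem)⟩, ⟨by
      simp [ENNReal.inv_mul_cancel, h0 n]⟩⟩
  obtain ⟨μ, m, hs, ht⟩ := CompactSpace.tendsto_subseq ν
  refine ⟨(μ : Measure K).map Subtype.val, Measure.isProbabilityMeasure_map
    measurable_subtype_coe.aemeasurable, ?_, m, hs, fun φ hφ => ?_⟩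
  · rw [Measure.map_apply measurable_subtype_coe hK.measurableSet.compl]
    convert measure_empty (μ := (μ : Measure K))
    ext y; simp
  · have := ProbabilityMeasure.tendsto_iff_forall_integral_tendsto.1 ht
      (BoundedContinuousFunction.mkOfCompact ⟨fun y => φ y, by fun_prop⟩)
    rw [integral_map measurable_subtype_coe.aemeasurable hφ.aestronglyMeasurable]
    refine this.congr fun m => ?_
    simp only [Function.comp, ν, ProbabilityMeasure.coe_mk, integral_smul_measure]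
    rw [integral_finsetSum_measure fun k _ => integrable_dirac (by simp)]
    simp only [integral_dirac, BoundedContinuousFunction.mkOfCompact_apply, ContinuousMap.coe_mk]
    rw [← Multiset.map_univ _ φ, div_eq_inv_mul]
    simp [Finset.sum]

open Polynomial

structure Dy (T : ℝ[X]) (K : Set ℝ) : Prop where
  d2 : 2 ≤ T.natDegree
  cp : IsCompact K
  ne : K.Nonempty
  rt : ∀ y ∈ K, (T - C y).roots.card = T.natDegree ∧ ∀ x ∈ (T - C y).roots, x ∈ K
  fw : ∀ x ∈ K, T.eval x ∈ K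
  es : ∀ z : ℂ, z.im ≠ 0 → Tendsto (fun n => ‖(fun w => aeval w T)^[n] z‖) atTop atTop

noncomputable def pre (T : ℝ[X]) (y : ℝ) : ℕ → Multiset ℝ
  | 0 => {y}
  | n + 1 => (pre T y n).bind fun x => (T - C x).roots

variable {T : ℝ[X]} {K : Set ℝ}

lemma Dy.prc (H : Dy T K) {y : ℝ} (hy : y ∈ K) (n : ℕ) :
    (∀ x ∈ pre T y n, x ∈ K) ∧ (pre T y n).card = T.natDegree ^ n := by
  induction n with
  | zero => simpa [pre]
  | succ n ih =>
    refine ⟨fun x hx => ?_, ?_⟩
    · obtain ⟨a, a1, a2⟩ := Multiset.mem_bind.1 hx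
      exact (H.rt a (ih.1 a a1)).2 x a2
    · rw [pre, Multiset.card_bind, Multiset.map_congr (g := fun _ => T.natDegree)
        (f := Multiset.card ∘ _) rfl fun x hx => (H.rt x (ih.1 x hx)).1]
      simp [ih.2, pow_succ]

lemma Dy.lc (H : Dy T K) : T.leadingCoeff ≠ 0 := leadingCoeff_ne_zero.2 fun e => by
  simpa [e] using H.d2

lemma Dy.fac (H : Dy T K) {y : ℝ} (hy : y ∈ K) :
    T - C y = C T.leadingCoeff * ((T - C y).roots.map fun a => X - C a).prod := by
  have := C_leadingCoeff_mul_prod_multiset_X_sub_C ((H.rt y hy).1.trans natDegree_sub_C.symm)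
  rwa [leadingCoeff_sub_of_degree_lt (degree_C_le.trans_lt (natDegree_pos_iff_degree_pos.1
    (by linarith [H.d2]))), eq_comm] at this

lemma Dy.step (H : Dy T K) {z : ℂ} (hz : ∀ x ∈ K, z ≠ x) {y : ℝ} (hy : y ∈ K) : aeval z T ≠ y ∧
    ((T - C y).roots.map fun x : ℝ => Real.log ‖z - x‖).sum =
      Real.log ‖aeval z T - y‖ - Real.log |T.leadingCoeff| := by
  have e := congrArg (fun p => ‖aeval z p‖) (H.fac hy)
  have n : ∀ x ∈ (T - C y).roots.map fun x : ℝ => ‖z - x‖, x ≠ 0 := fun x hx => by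
    obtain ⟨a, a1, rfl⟩ := Multiset.mem_map.1 hx
    exact norm_ne_zero_iff.2 (sub_ne_zero.2 (hz a ((H.rt y hy).2 a a1)))
  have f : ‖aeval z T - y‖ = |T.leadingCoeff| * ((T - C y).roots.map fun x : ℝ => ‖z - x‖).prod := by
    simp only [map_mul, map_sub, aeval_C, Complex.coe_algebraMap, norm_mul, Complex.norm_real,
      Real.norm_eq_abs] at e
    rw [e]
    congr 1
    induction (T - C y).roots using Multiset.induction_on with
    | empty => simp
    | cons a s ih => simp [ih]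
  have p := Multiset.prod_ne_zero fun h => n 0 h rfl
  refine ⟨sub_ne_zero.1 (norm_ne_zero_iff.1 (f ▸ mul_ne_zero (abs_ne_zero.2 H.lc) p)), ?_⟩
  rw [f, Real.log_mul (abs_ne_zero.2 H.lc) p, Real.log_multiset_prod n]
  simp

lemma Dy.sum (H : Dy T K) {y : ℝ} (hy : y ∈ K) {c : ℝ}
    (hc : c * (T.natDegree - 1) = Real.log |T.leadingCoeff|) (n : ℕ) : ∀ z : ℂ, (∀ x ∈ K, z ≠ x) →
      ((pre T y n).map fun x : ℝ => Real.log ‖z - x‖).sum =
        Real.log ‖(fun w => aeval w T)^[n] z - y‖ + c * (1 - T.natDegree ^ n) := by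
  induction n with
  | zero => simp [pre]
  | succ n ih =>
    intro z hz
    rw [pre, Multiset.map_bind, Multiset.sum_bind, Multiset.map_congr rfl fun x hx =>
      (H.step hz ((H.prc hy n).1 x hx)).2, Multiset.sum_map_sub, ih _ fun x hx => (H.step hz hx).1,
      Function.iterate_succ_apply]
    simp only [Multiset.map_const', Multiset.sum_replicate, (H.prc hy n).2, ← hc, nsmul_eq_mul]
    push_cast
    ring

lemma grow (h2 : 2 ≤ T.natDegree) {c : ℝ} (hc : 1 ≤ c) : ∃ L, ∀ n, ∀ z : ℂ,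
    Real.log (‖(fun w => aeval w T)^[n] z‖ + c) + L ≤ T.natDegree ^ n * (Real.log (‖z‖ + c) + L) ∧
      0 ≤ L := by
  set S := ∑ i ∈ Finset.range (T.natDegree + 1), |T.coeff i| + c with hS
  have S1 : 1 ≤ S := le_add_of_nonneg_of_le (by positivity) hc
  have L0 := Real.log_nonneg S1
  have d : (2 : ℝ) ≤ T.natDegree := by exact_mod_cast h2
  refine ⟨Real.log S, fun n z => ⟨?_, L0⟩⟩
  induction n generalizing z with
  | zero => simp
  | succ n ih =>
    refine (ih _).trans ?_
    have z1 : 1 ≤ ‖z‖ + c := le_add_of_nonneg_of_le (norm_nonneg _) hc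
    have : ‖aeval z T‖ + c ≤ S * (‖z‖ + c) ^ T.natDegree := by
      rw [aeval_eq_sum_range, hS, add_mul, Finset.sum_mul]
      refine add_le_add ((norm_sum_le _ _).trans (Finset.sum_le_sum fun i hi => ?_))
        (le_mul_of_one_le_right (by linarith) (one_le_pow₀ z1))
      rw [norm_smul, norm_pow, Real.norm_eq_abs]
      gcongr
      exact (pow_le_pow_left₀ (norm_nonneg _) (by linarith) _).trans
        (pow_le_pow_right₀ z1 (Finset.mem_range_succ_iff.1 hi))
    have := Real.log_le_log (by positivity) this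
    rw [Real.log_mul (by positivity) (by positivity), Real.log_pow] at this
    rw [pow_succ, mul_assoc]
    gcongr
    nlinarith

lemma Dy.bal (H : Dy T K) {D : ℝ} (hD : ∀ x ∈ K, ∀ y ∈ K, |x - y| + 1 ≤ D) {μ : Measure ℝ}
    [IsProbabilityMeasure μ] (hμ : μ Kᶜ = 0) (hm : ∀ ν : Measure ℝ, IsProbabilityMeasure ν →
      ν Kᶜ = 0 → ∫⁻ x, U D μ x ∂μ ≤ ∫⁻ x, U D ν x ∂ν) : (∀ z, μ {z} = 0) ∧
    ∀ φ g : ℝ → ℝ, Continuous φ → Continuous g → (∀ y ∈ K, ((T - C y).roots.map φ).sum = g y) →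
      T.natDegree * ∫ x, φ x ∂μ = ∫ x, g x ∂μ := by
  obtain ⟨y, hy⟩ := H.ne
  have d : (2 : ℝ) ≤ T.natDegree := by exact_mod_cast H.d2
  have D0 : 0 < D := by linarith [hD y hy y hy, abs_nonneg (y - y)]
  obtain ⟨c, hc⟩ : ∃ c : ℝ, c * (T.natDegree - 1) = Real.log |T.leadingCoeff| :=
    ⟨_, div_mul_cancel₀ _ (by linarith)⟩
  obtain ⟨R, hR⟩ := H.cp.isBounded.exists_norm_le
  obtain ⟨L, hL⟩ := grow H.d2 (show 1 ≤ |y| + 1 by simp)
  have t0 : ∀ a : ℝ, Tendsto (fun n : ℕ => a / T.natDegree ^ n) atTop (𝓝 0) := fun a =>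
    tendsto_const_nhds.div_atTop (tendsto_pow_atTop_atTop_of_one_lt (by linarith))
  have pot : ∀ (ν : Measure ℝ) [IsProbabilityMeasure ν], ν Kᶜ = 0 → ∀ m : ℕ → ℕ, Tendsto m atTop atTop →
      (∀ φ : ℝ → ℝ, Continuous φ → Tendsto (fun n => ((pre T y (m n)).map φ).sum /
        (pre T y (m n)).card) atTop (𝓝 (∫ y, φ y ∂ν))) →
      ∀ x ∈ K, U D ν x = ENNReal.ofReal (Real.log D - -c) := by
    intro ν _ hν m hm h x hx
    have bd : ∀ z : ℂ, z.im ≠ 0 → -c ≤ ∫ w : ℝ, Real.log ‖z - w‖ ∂ν ∧ ∀ N,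
        ∫ w : ℝ, Real.log ‖z - w‖ ∂ν ≤ (Real.log (‖(fun w => aeval w T)^[N] z‖ + (|y| + 1)) + L) /
          T.natDegree ^ N - c := fun z hz => by
      have n : ∀ w : ℝ, z ≠ w := fun w e => hz (by simp [e])
      have := h (fun w => Real.log ‖z - w‖) (Continuous.log (by fun_prop) fun w =>
        norm_ne_zero_iff.2 (sub_ne_zero.2 (n w)))
      simp only [H.sum hy hc _ z fun w _ => n w, (H.prc hy _).2, Nat.cast_pow] at this
      have ev : ∀ᶠ n in atTop, 1 ≤ ‖(fun w => aeval w T)^[m n] z - y‖ :=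
        (hm.eventually ((H.es z hz).eventually_ge_atTop (|y| + 1))).mono fun n k => by
          have := norm_sub_norm_le ((fun w => aeval w T)^[m n] z) y
          rw [Complex.norm_real, Real.norm_eq_abs] at this
          linarith
      have t1 := ((t0 c).comp hm).sub_const c
      rw [zero_sub] at t1
      refine ⟨le_of_tendsto_of_tendsto t1 this (ev.mono fun n k => ?_), fun N => ?_⟩
      · simp only [Function.comp]
        rw [le_div_iff₀ (by positivity), sub_mul, div_mul_cancel₀ _ (by positivity)]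
        linarith [Real.log_nonneg k]
      rw [sub_eq_add_neg]
      refine le_of_tendsto_of_tendsto this (t1.const_add _) ?_
      filter_upwards [ev, hm.eventually_ge_atTop N] with n k l
      obtain ⟨j, e⟩ := Nat.exists_eq_add_of_le' l
      have a1 := (hL j ((fun w => aeval w T)^[N] z)).1
      rw [← Function.iterate_add_apply, ← e] at a1
      have a2 := Real.log_le_log (by linarith) (show ‖(fun w => aeval w T)^[m n] z - y‖ ≤
        ‖(fun w => aeval w T)^[m n] z‖ + (|y| + 1) from (norm_sub_le _ _).trans (by simp))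
      simp only [Function.comp]
      rw [div_le_iff₀ (by positivity), add_mul, sub_mul, div_mul_cancel₀ _ (by positivity), e, pow_add,
        mul_comm (_ ^ j), ← mul_assoc, div_mul_cancel₀ _ (by positivity), ← e]
      linarith [(hL 0 0).2]
    refine rpot H.cp hν D0 (hD x hx) (tendsto_order.2 ⟨fun a ha => Eventually.of_forall fun n =>
      ha.trans_le (bd _ (by positivity)).1, fun a ha => ?_⟩)
    obtain ⟨N, hN⟩ := ((t0 (Real.log (R + 1 + (|y| + 1)) + L)).eventually
      (gt_mem_nhds (show 0 < a + c by linarith))).exists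
    have it : ∀ n, ∃ w ∈ K, (fun w => aeval w T)^[n] (x : ℂ) = w := fun n => by
      induction n with
      | zero => exact ⟨x, hx, rfl⟩
      | succ n ih =>
        obtain ⟨w, w1, w2⟩ := ih
        exact ⟨_, H.fw w w1, by
          rw [Function.iterate_succ_apply', w2, ← Complex.coe_algebraMap, aeval_algebraMap_apply]; simp⟩
    obtain ⟨w, w1, w2⟩ := it N
    have zt : Tendsto (fun n : ℕ => (⟨x, 1 / (n + 1)⟩ : ℂ)) atTop (𝓝 x) := by
      simp only [Complex.mk_eq_add_mul_I]
      simpa using (((Complex.continuous_ofReal.tendsto 0).comp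
        (tendsto_one_div_add_atTop_nhds_zero_nat (𝕜 := ℝ))).mul_const Complex.I).const_add (x : ℂ)
    have := ((((T.continuous_aeval (A := ℂ)).iterate N).tendsto _).comp zt).norm
    rw [w2, Complex.norm_real] at this
    filter_upwards [this.eventually (gt_mem_nhds (show _ < R + 1 by linarith [hR w w1]))] with n hn
    refine ((bd _ (by positivity)).2 N).trans_lt (sub_lt_iff_lt_add.2 (lt_of_le_of_lt ?_ hN))
    gcongr
    exact hn.le
  obtain ⟨α, a1, a2⟩ := H.cp.exists_isLeast H.ne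
  have sub : ∀ m : ℕ → ℕ, Tendsto m atTop atTop → ∫⁻ x, U D μ x ∂μ < ⊤ ∧ ∃ m' : ℕ → ℕ, ∀ φ : ℝ → ℝ,
      Continuous φ → Tendsto (fun n => ((pre T y (m (m' n))).map φ).sum / (pre T y (m (m' n))).card)
        atTop (𝓝 (∫ y, φ y ∂μ)) := fun m k => by
    obtain ⟨ν, _, n1, m', n2, n3⟩ := limK H.cp (s := fun n => pre T y (m n)) (fun n => (H.prc hy _).1)
      fun n => by rw [(H.prc hy _).2]; exact pow_ne_zero _ (by linarith [H.d2])
    have p := pot ν n1 _ (k.comp n2.tendsto_atTop) n3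
    obtain rfl := uniq D0 (fun x hx => ⟨a2 hx, by linarith [hD x hx α a1, le_abs_self (x - α)]⟩) hμ n1
      ENNReal.ofReal_lt_top p (hm ν ‹_› n1)
    refine ⟨?_, m', n3⟩
    rw [lintegral_congr_ae ((show ∀ᵐ x ∂μ, x ∈ K from hμ).mono p)]
    simp
  have cv : ∀ φ : ℝ → ℝ, Continuous φ → Tendsto (fun n => ((pre T y n).map φ).sum / (pre T y n).card)
      atTop (𝓝 (∫ y, φ y ∂μ)) := fun φ c => tendsto_of_subseq_tendsto fun m k =>
    (sub m k).2.imp fun _ h => h φ c
  refine ⟨no_atom (sub id tendsto_id).1, fun φ g c1 c2 h => tendsto_nhds_unique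
    (((cv φ c1).comp (tendsto_add_atTop_nat 1)).const_mul _) ((cv g c2).congr fun n => ?_)⟩
  simp only [Function.comp, (H.prc hy _).2]
  rw [pre, Multiset.map_bind, Multiset.sum_bind, Multiset.map_congr rfl fun x hx =>
    h x ((H.prc hy n).1 x hx)]
  push_cast
  field_simp
  ring

end Pool.Agent.H.MP_e056c9_an
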