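import Pool.Agent.H.MP_e056c9_an.G

namespace Pool.Agent.H.MP_e056c9_an

open Polynomial MeasureTheory Set Filter Topology Pool.Agent.H.MP_7f7d18_an

structure Om (μ : Measure ℝ) (α β : ℝ) (P : ℕ → ℝ[X]) : Prop where
  pr : IsProbabilityMeasure μ
  su : μ (Icc α β)ᶜ = 0
  na : ∀ z, μ {z} = 0
  op : ∀ n, (P n).Monic ∧ (P n).natDegree = n ∧ ∀ k < n, ∫ x, (P n).eval x * x ^ k ∂μ = 0

variable {μ : Measure ℝ} {α β : ℝ} {P : ℕ → ℝ[X]}

lemma Om.int (H : Om μ α β P) (p : ℝ[X]) : Integrable (fun x => p.eval x) μ :=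
  have := H.pr
  int_cont isCompact_Icc H.su p.continuous

noncomputable def Om.I (H : Om μ α β P) : ℝ[X] →ₗ[ℝ] ℝ where
  toFun p := ∫ x, p.eval x ∂μ
  map_add' p q := by simp only [eval_add]; exact integral_add (H.int p) (H.int q)
  map_smul' c p := by simp only [eval_smul, smul_eq_mul, RingHom.id_apply]; exact integral_const_mul _ _

lemma Om.IC (H : Om μ α β P) (c : ℝ) (p : ℝ[X]) : H.I (C c * p) = c * H.I p := by
  rw [C_mul', map_smul, smul_eq_mul]

lemma Om.nn (H : Om μ α β P) {p : ℝ[X]} (h : ∀ x ∈ Icc α β, 0 ≤ p.eval x) : 0 ≤ H.I p :=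
  integral_nonneg_of_ae ((show ∀ᵐ x ∂μ, x ∈ Icc α β from H.su).mono h)

lemma Om.pos (H : Om μ α β P) {p : ℝ[X]} (h0 : p ≠ 0) (h : ∀ x ∈ Icc α β, 0 ≤ p.eval x) :
    0 < H.I p := (H.nn h).lt_of_ne' fun e => by
  have := H.pr
  have a := (integral_eq_zero_iff_of_nonneg_ae ((show ∀ᵐ x ∂μ, x ∈ Icc α β from H.su).mono h)
    (H.int p)).1 e
  have : NullSingletonClass μ := ⟨H.na⟩
  obtain ⟨x, x1, x2⟩ := (a.and ((p.roots.toFinset.finite_toSet.countable).ae_notMem μ)).exists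
  exact x2 (Multiset.mem_toFinset.2 ((mem_roots h0).2 x1))

lemma Om.orth (H : Om μ α β P) {n : ℕ} {q : ℝ[X]} (h : q.degree < n) : H.I (P n * q) = 0 := by
  by_cases q0 : q = 0
  · simp [q0]
  rw [q.as_sum_range' n ((natDegree_lt_iff_degree_lt q0).2 h), Finset.mul_sum, map_sum]
  refine Finset.sum_eq_zero fun i hi => ?_
  rw [← C_mul_X_pow_eq_monomial, mul_left_comm, H.IC]
  exact mul_eq_zero_of_right _ (by simpa [Om.I] using (H.op n).2.2 i (Finset.mem_range.1 hi))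

lemma dsub {p q : ℝ[X]} {n : ℕ} (h1 : p.Monic) (h2 : p.natDegree = n) (k1 : q.Monic)
    (k2 : q.natDegree = n) : (p - q).degree < n := by
  rw [← h2, ← degree_eq_natDegree h1.ne_zero]
  exact degree_sub_lt_left (by rw [degree_eq_natDegree h1.ne_zero, degree_eq_natDegree k1.ne_zero,
    h2, k2]) h1.ne_zero (h1.leadingCoeff.trans k1.leadingCoeff.symm)

lemma Om.uniq (H : Om μ α β P) {n : ℕ} {R : ℝ[X]} (h1 : R.Monic) (h2 : R.natDegree = n)
    (h : ∀ q : ℝ[X], q.degree < n → H.I (R * q) = 0) : R = P n := by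
  have d := dsub h1 h2 (H.op n).1 (H.op n).2.1
  refine sub_eq_zero.1 (by_contra fun k => (H.pos (mul_ne_zero k k) fun x _ => by
    rw [eval_mul]; exact mul_self_nonneg _).ne' ?_)
  rw [sub_mul, map_sub, h _ d, H.orth d, sub_zero]

lemma Om.N0 (H : Om μ α β P) (n : ℕ) : 0 < H.I (P n * P n) :=
  H.pos (mul_ne_zero (H.op n).1.ne_zero (H.op n).1.ne_zero) fun x _ => by
    rw [eval_mul]; exact mul_self_nonneg _

lemma Om.nq (H : Om μ α β P) {n : ℕ} {q : ℝ[X]} (h1 : q.Monic) (h2 : q.natDegree = n) :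
    H.I (P n * q) = H.I (P n * P n) := by
  rw [← sub_eq_zero, ← map_sub, ← mul_sub]
  exact H.orth (dsub h1 h2 (H.op n).1 (H.op n).2.1)

lemma Om.deg (H : Om μ α β P) (n : ℕ) : (P n).degree = n :=
  (degree_eq_iff_natDegree_eq (H.op n).1.ne_zero).2 (H.op n).2.1

noncomputable def rho (P : ℕ → ℝ[X]) (n : ℕ) (z : ℝ) : ℝ := (P (n + 1)).eval z / (P n).eval z

lemma Om.out (H : Om μ α β P) {z σ δ : ℝ} (hσ : σ * σ = 1) (d0 : 0 ≤ δ)
    (h : ∀ x ∈ Icc α β, δ ≤ σ * (z - x)) (n : ℕ) :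
    (P n).eval z ≠ 0 ∧ 0 < σ * rho P n z ∧ δ ≤ σ * rho P n z := by
  have s0 : σ ≠ 0 := by rintro rfl; simp at hσ
  have ps : ∀ q : ℝ[X], q ≠ 0 → 0 < -σ * H.I ((X - C z) * q * q) := fun q q0 => by
    rw [← H.IC]
    exact H.pos (mul_ne_zero (by simpa) (mul_ne_zero (mul_ne_zero (X_sub_C_ne_zero z) q0) q0))
      fun x hx => by
        simp only [eval_mul, eval_C, eval_sub, eval_X]
        nlinarith [mul_nonneg (d0.trans (h x hx)) (mul_self_nonneg (q.eval x))]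
  have n0 : (P n).eval z ≠ 0 := fun e => by
    obtain ⟨q, hq⟩ := dvd_iff_isRoot.2 e
    have q0 : q ≠ 0 := by rintro rfl; exact (H.op n).1.ne_zero (by simpa using hq)
    have := ps q q0
    rw [← hq, H.orth (by
      rw [← natDegree_lt_iff_degree_lt q0, ← (H.op n).2.1, hq, natDegree_mul (X_sub_C_ne_zero z) q0]
      simp)] at this
    simp at this
  obtain ⟨q, hq⟩ := dvd_iff_isRoot.2 (show IsRoot (P (n + 1) - C (rho P n z) * P n) z by
    simp [rho, n0])
  have l : (C (rho P n z) * P n).degree < (P (n + 1)).degree :=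
    (degree_mul_le_of_le degree_C_le (H.deg n).le).trans_lt (by
      rw [H.deg, zero_add]; exact_mod_cast n.lt_succ_self)
  have m := (H.op (n + 1)).1.sub_of_left l
  have q1 : q.Monic := (monic_X_sub_C z).of_mul_monic_left (hq ▸ m)
  have q2 : q.natDegree = n := by
    have := (natDegree_eq_of_degree_eq (degree_sub_eq_left_of_degree_lt l)).trans (H.op (n + 1)).2.1
    rw [hq, (monic_X_sub_C z).natDegree_mul q1, natDegree_X_sub_C] at this
    omega
  have e : H.I ((X - C z) * q * q) = -rho P n z * H.I (P n * P n) := by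
    rw [← hq, sub_mul, map_sub, H.orth (by rw [degree_eq_natDegree q1.ne_zero, q2]; exact_mod_cast
      n.lt_succ_self), mul_assoc, H.IC, H.nq q1 q2]
    ring
  have N := H.N0 n
  have a := ps q q1.ne_zero
  have b := H.nn (p := C (-σ) * ((X - C z) * q * q) - C δ * (q * q)) fun x hx => by
    simp only [eval_mul, eval_C, eval_sub, eval_X]
    nlinarith [mul_nonneg (sub_nonneg.2 (h x hx)) (mul_self_nonneg (q.eval x))]
  have c := H.nn (p := (q - P n) * (q - P n)) fun x _ => by rw [eval_mul]; exact mul_self_nonneg _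
  rw [show (q - P n) * (q - P n) = q * q - P n * q - P n * q + P n * P n by ring, map_add, map_sub,
    map_sub, H.nq q1 q2] at c
  rw [map_sub, H.IC, H.IC, e] at b
  rw [e] at a
  exact ⟨n0, (pos_iff_pos_of_mul_pos (show 0 < _ * H.I (P n * P n) by linarith)).2 N,
    le_of_mul_le_mul_right (by nlinarith) N⟩

noncomputable def Om.b (H : Om μ α β P) (n : ℕ) : ℝ := H.I (X * (P n * P n)) / H.I (P n * P n)

noncomputable def Om.A (H : Om μ α β P) (n : ℕ) : ℝ :=
  H.I (P (n + 1) * P (n + 1)) / H.I (P n * P n)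

lemma Om.bm (H : Om μ α β P) (n : ℕ) : H.b n ∈ Icc α β := by
  have N := H.N0 n
  have a := H.nn (p := X * (P n * P n) - C α * (P n * P n)) fun x hx => by
    simp only [eval_mul, eval_C, eval_sub, eval_X]
    nlinarith [mul_nonneg (sub_nonneg.2 hx.1) (mul_self_nonneg ((P n).eval x))]
  have b := H.nn (p := C β * (P n * P n) - X * (P n * P n)) fun x hx => by
    simp only [eval_mul, eval_C, eval_sub, eval_X]
    nlinarith [mul_nonneg (sub_nonneg.2 hx.2) (mul_self_nonneg ((P n).eval x))]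
  rw [map_sub, H.IC] at a b
  exact ⟨(le_div_iff₀ N).2 (by linarith), (div_le_iff₀ N).2 (by linarith)⟩

lemma Om.ost (H : Om μ α β P) {R : ℝ[X]} {m : ℕ} (h : ∀ q : ℝ[X], q.degree < m → H.I (R * q) = 0)
    (k : H.I (R * P m) = 0) (q : ℝ[X]) (hq : q.degree < (m + 1 : ℕ)) : H.I (R * q) = 0 := by
  have := h (q - C (q.coeff m) * P m) ((degree_lt_iff_coeff_zero _ _).2 fun i hi => by
    rw [coeff_sub, coeff_C_mul]
    rcases hi.eq_or_lt with rfl | j
    · have := (H.op m).1.coeff_natDegree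
      rw [(H.op m).2.1] at this
      simp [this]
    · rw [(degree_lt_iff_coeff_zero _ _).1 hq i j, coeff_eq_zero_of_natDegree_lt
        ((H.op m).2.1.trans_lt j)]; simp)
  rwa [mul_sub, map_sub, mul_left_comm, H.IC, k, mul_zero, sub_zero] at this

lemma Om.rec3 (H : Om μ α β P) : P 1 = (X - C (H.b 0)) * P 0 ∧
    ∀ n, P (n + 2) = (X - C (H.b (n + 1))) * P (n + 1) - C (H.A n) * P n := by
  have mo : ∀ n, ((X - C (H.b n)) * P n).Monic ∧ ((X - C (H.b n)) * P n).natDegree = n + 1 :=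
    fun n => ⟨(monic_X_sub_C _).mul (H.op n).1, by
      rw [(monic_X_sub_C _).natDegree_mul (H.op n).1, natDegree_X_sub_C, (H.op n).2.1, add_comm]⟩
  have bb : ∀ n, H.I ((X - C (H.b n)) * P n * P n) = 0 := fun n => by
    rw [mul_assoc, sub_mul, map_sub, H.IC, Om.b, div_mul_cancel₀ _ (H.N0 n).ne', sub_self]
  refine ⟨(H.uniq (mo 0).1 (mo 0).2 (H.ost (m := 0) (fun q hq => ?_) (bb 0))).symm, fun n => ?_⟩
  · rw [degree_eq_bot.1 (Nat.WithBot.lt_zero_iff.1 hq), mul_zero, map_zero]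
  have l : (C (H.A n) * P n).natDegree < ((X - C (H.b (n + 1))) * P (n + 1)).natDegree :=
    (natDegree_C_mul_le _ _).trans_lt (by rw [(mo _).2, (H.op n).2.1]; omega)
  refine (H.uniq ((mo _).1.sub_of_left (degree_lt_degree l)) ((natDegree_sub_eq_left_of_natDegree_lt
    l).trans (mo _).2) (H.ost (H.ost (fun q hq => ?_) ?_) ?_)).symm
  · rw [sub_mul, map_sub, mul_assoc (C _), H.IC, H.orth hq, mul_comm _ (P _), mul_assoc,
      H.orth, mul_zero, sub_zero]
    rw [degree_mul, degree_X_sub_C, add_comm]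
    exact_mod_cast WithBot.add_lt_add_right (by simp) hq
  · rw [sub_mul, map_sub, mul_assoc (C _), H.IC, mul_comm _ (P (n + 1)), mul_assoc, H.nq
      ((monic_X_sub_C _).mul (H.op n).1) (by
        rw [(monic_X_sub_C _).natDegree_mul (H.op n).1, natDegree_X_sub_C, (H.op n).2.1, add_comm]),
      Om.A, div_mul_cancel₀ _ (H.N0 n).ne', sub_self]
  · rw [sub_mul, map_sub, bb, mul_assoc (C _), H.IC, mul_comm (P n), H.orth (by
      rw [H.deg]; exact_mod_cast n.lt_succ_self), mul_zero, sub_zero]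

lemma Om.rr (H : Om μ α β P) {z : ℝ} (h : ∀ n, (P n).eval z ≠ 0) : rho P 0 z = z - H.b 0 ∧
    ∀ n, rho P (n + 1) z = z - H.b (n + 1) - H.A n / rho P n z := by
  refine ⟨?_, fun n => ?_⟩
  · have := h 0
    rw [rho, H.rec3.1]
    simp [this]
  · have := h n
    have := h (n + 1)
    rw [rho, rho, H.rec3.2]
    simp only [eval_mul, eval_C, eval_sub, eval_X]
    field_simp

lemma Om.A0 (H : Om μ α β P) (n : ℕ) : 0 < H.A n := div_pos (H.N0 _) (H.N0 _)

lemma Om.up (H : Om μ α β P) {z σ Δ : ℝ} (hσ : σ * σ = 1)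
    (h : ∀ x ∈ Icc α β, 0 ≤ σ * (z - x) ∧ σ * (z - x) ≤ Δ) (n : ℕ) : σ * rho P n z ≤ Δ := by
  have o := H.out hσ le_rfl fun x hx => (h x hx).1
  have r := H.rr fun n => (o n).1
  rcases n with _ | n
  · rw [r.1]; exact (h _ (H.bm 0)).2
  have := div_pos (H.A0 n) (o n).2.1
  have e : σ * (H.A n / rho P n z) = H.A n / (σ * rho P n z) := by
    have := right_ne_zero_of_mul (o n).2.1.ne'
    have := left_ne_zero_of_mul (o n).2.1.ne'
    field_simp
    linear_combination H.A n * hσ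
  rw [r.2, mul_sub, e]
  linarith [(h _ (H.bm (n + 1))).2]

lemma fin_ap {r s b A : ℕ → ℝ} {x y Δ : ℝ} (h1 : ∀ n, r n ∈ Icc 1 Δ ∧ s n ∈ Icc 1 Δ ∧ 0 < A n)
    (h2 : r 0 = x - b 0 ∧ s 0 = b 0 - y) (h3 : ∀ n, r (n + 1) = x - b (n + 1) - A n / r n ∧
      s (n + 1) = b (n + 1) - y - A n / s n)
    (h : ∀ δ > 0, ∃ D > 0, ∀ n t : ℕ, |r (n + D * t) - r n| ≤ δ ∧ |s (n + D * t) - s n| ≤ δ)
    {ε : ℝ} (hε : 0 < ε) : ∃ L : ℕ, ∀ m : ℕ, ∃ τ : ℕ, m ≤ τ ∧ τ ≤ m + L ∧ ∀ n,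
      |b (n + τ) - b n| ≤ ε ∧ |A (n + τ) - A n| ≤ ε := by
  let F : ℝ × ℝ × ℝ × ℝ → ℝ := fun p => (x - y - p.2.2.1 - p.2.2.2) / (1 / p.1 + 1 / p.2.1)
  let S : Set (ℝ × ℝ × ℝ × ℝ) := Icc 1 Δ ×ˢ Icc 1 Δ ×ˢ Icc 1 Δ ×ˢ Icc 1 Δ
  have c1 : ∀ p ∈ S, p.1 ≠ 0 := fun p hp => (one_pos.trans_le hp.1.1).ne'
  have c : ContinuousOn F S := ContinuousOn.div (by fun_prop) ((continuousOn_const.div
    continuousOn_fst c1).add (continuousOn_const.div (by fun_prop) fun p hp =>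
      (one_pos.trans_le hp.2.1.1).ne')) fun p hp => by
        have := hp.1.1; have := hp.2.1.1; positivity
  have c' : ContinuousOn (fun p => (F p, x - p.2.2.1 - F p / p.1)) S :=
    c.prodMk (ContinuousOn.sub (by fun_prop) (c.div continuousOn_fst c1))
  obtain ⟨δ, d0, hd⟩ := Metric.uniformContinuousOn_iff_le.1 ((isCompact_Icc.prod (isCompact_Icc.prod
    (isCompact_Icc.prod isCompact_Icc))).uniformContinuousOn_of_continuous c') ε hε
  obtain ⟨D, D0, hD⟩ := h (min δ (ε / 3)) (by positivity)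
  have e : ∀ n, F (r n, s n, r (n + 1), s (n + 1)) = A n := fun n => by
    have := (h1 n).1.1; have := (h1 n).2.1.1
    simp only [F, (h3 n).1, (h3 n).2]
    field_simp
    ring
  have k : ∀ n t, |A (n + D * t) - A n| ≤ ε ∧ |b (n + 1 + D * t) - b (n + 1)| ≤ ε := fun n t => by
    have := hd (r (n + D * t), s (n + D * t), r (n + D * t + 1), s (n + D * t + 1))
      ⟨(h1 _).1, (h1 _).2.1, (h1 _).1, (h1 _).2.1⟩ (r n, s n, r (n + 1), s (n + 1))
      ⟨(h1 _).1, (h1 _).2.1, (h1 _).1, (h1 _).2.1⟩ (by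
        have a := hD n t
        have b := hD (n + 1) t
        simp only [Prod.dist_eq, Real.dist_eq, max_le_iff, le_min_iff, add_right_comm n _ 1] at a b ⊢
        tauto)
    simp only [Prod.dist_eq, Real.dist_eq, max_le_iff, e] at this
    refine ⟨this.1, le_of_eq_of_le ?_ this.2⟩
    rw [add_right_comm, (h3 _).1, (h3 _).1]
    congr 1; ring
  refine ⟨D, fun m => ⟨D * (m / D + 1), (Nat.lt_mul_div_succ m D0).le, by
    rw [mul_add_one]; exact Nat.add_le_add_right (Nat.mul_div_le m D) D, fun n => ⟨?_, (k n _).1⟩⟩⟩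
  rcases n with _ | n
  swap
  · exact (k n _).2
  obtain ⟨j, hj⟩ : ∃ j, 0 + D * (m / D + 1) = j + 1 := ⟨_, (Nat.succ_pred_eq_of_pos (by positivity)).symm⟩
  have a := hD 0 (m / D + 1)
  rw [hj, le_min_iff, le_min_iff, abs_le, abs_le, abs_le, abs_le] at a
  have := div_pos (h1 j).2.2 (one_pos.trans_le (h1 j).1.1)
  have := div_pos (h1 j).2.2 (one_pos.trans_le (h1 j).2.1.1)
  rw [hj, abs_le]
  constructor <;> linarith [h2.1, h2.2, (h3 j).1, (h3 j).2]

end Pool.Agent.H.MP_e056c9_an
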