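import Pool.Agent.H.MP_e056c9_an.H
import Pool.Agent.H.MP_e056c9_an.E

namespace Pool.Agent.H.MP_e056c9_an

open Polynomial MeasureTheory Finset

noncomputable def Dn (s : Finset ℝ) (x : ℝ) : ℝ := ∏ j ∈ s.erase x, (x - j)

noncomputable def sg (β z : ℝ) : ℝ := if β ≤ z then 1 else -1

lemma dd {s : Finset ℝ} {U q : ℝ[X]} {j m : ℕ} (hU : U.natDegree ≤ j) (hq : q.natDegree ≤ m)
    (hc : j + m + 1 = s.card) : ∑ x ∈ s, U.eval x * q.eval x / Dn s x = U.coeff j * q.coeff m := by
  have := Lagrange.coeff_eq_sum (s := s) (v := id) (P := U * q) (Set.injOn_id _)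
    (degree_le_natDegree.trans_lt (by exact_mod_cast natDegree_mul_le.trans_lt (by omega)))
  rw [show s.card - 1 = j + m by omega, coeff_mul_add_eq_of_natDegree_le hU hq] at this
  simp only [this, eval_mul, id, Dn]

lemma opd {s : Finset ℝ} {ε w : ℝ → ℝ} {σ : ℝ} {S U : ℝ[X]} {j m : ℕ} (hU : U.natDegree ≤ j)
    (hc : j + m + 1 = s.card) (h1 : S.Monic) (h2 : S.natDegree = m)
    (h : ∀ x ∈ s, S.eval x * ε x + U.eval x = 0) (hw : ∀ x ∈ s, 0 ≤ w x ∧ w x = σ * (ε x / Dn s x)) :
    hm s w m = -σ * U.coeff j := by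
  have k : ∀ q : ℝ[X], q.natDegree ≤ m →
      ∑ x ∈ s, w x * S.eval x * q.eval x = -σ * (U.coeff j * q.coeff m) := fun q hq => by
    rw [← dd hU hq hc, mul_sum]
    exact sum_congr rfl fun x hx => by
      rw [(hw x hx).2]; linear_combination σ * q.eval x / Dn s x * h x hx
  have o : OP s w m S := ⟨h1, h2, fun q hq => by
    rw [k q (natDegree_le_of_degree_le hq.le), coeff_eq_zero_of_degree_lt hq, mul_zero, mul_zero]⟩
  have := k S h2.le
  rw [← h2, h1.coeff_natDegree, mul_one] at this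
  rw [o.eq fun x hx => (hw x hx).1, ← this]
  exact sum_congr rfl fun x _ => by ring

lemma lowd {s : Finset ℝ} {U : ℝ[X]} {i : ℕ} (hU : U.degree < s.card)
    (h : ∀ q : ℝ[X], q.degree < i → ∑ x ∈ s, U.eval x * q.eval x / Dn s x = 0) :
    U.degree < (s.card - i : ℕ) := by
  by_cases u0 : U = 0
  · simp [u0]
  rw [← natDegree_lt_iff_degree_lt u0] at hU ⊢
  by_contra k
  have := dd (s := s) (q := X ^ (s.card - 1 - U.natDegree)) (U := U) le_rfl (natDegree_X_pow_le _)
    (by omega)
  rw [h _ (by rw [degree_X_pow]; exact_mod_cast by omega)] at this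
  exact u0 (by simpa using this.symm)

lemma trace (φ : ℝ[X]) (s : Multiset ℝ) : ∃ a r : ℝ[X],
    φ * derivative (s.map fun x => X - C x).prod = a * (s.map fun x => X - C x).prod + r ∧
      r.degree < s.card ∧ (X * r).coeff s.card = (s.map φ.eval).sum := by
  induction s using Multiset.induction_on with
  | empty => exact ⟨0, 0, by simp⟩
  | cons x s ih =>
    obtain ⟨a, r, h1, h2, h3⟩ := ih
    obtain ⟨b, hb⟩ := X_sub_C_dvd_sub_C_eval (p := φ) (a := x)
    have m : (s.map fun x => X - C x).prod.Monic := monic_multiset_prod_of_monic _ _ fun _ _ =>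
      monic_X_sub_C _
    have d := natDegree_multiset_prod_X_sub_C_eq_card s
    have c := m.coeff_natDegree
    have c2 := coeff_eq_zero_of_degree_lt h2
    rw [d] at c
    refine ⟨a + b, C (φ.eval x) * (s.map fun x => X - C x).prod + (X - C x) * r, ?_, ?_, ?_⟩
    · simp only [Multiset.map_cons, Multiset.prod_cons, derivative_mul, derivative_X_sub_C]
      linear_combination (X - C x) * h1 + (s.map fun x => X - C x).prod * hb
    · rw [Multiset.card_cons]
      refine (degree_add_le _ _).trans_lt (max_lt (degree_le_natDegree.trans_lt ?_) ?_)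
      · exact_mod_cast (natDegree_C_mul_le _ _).trans_lt (by omega)
      · rw [degree_mul, degree_X_sub_C, add_comm]
        exact_mod_cast WithBot.add_lt_add_right (by simp) h2
    · simp [coeff_X_mul, sub_mul, c, c2, h3]

lemma gN {T : ℝ[X]} {e : ℕ} (hT : T.natDegree = e + 1) (k : ℕ) : ∀ N : ℝ[X],
    N.degree < ((e + 1) * k + e : ℕ) → ∃ g : ℝ[X], g.degree < k ∧ ∀ y, ∃ a r : ℝ[X],
      N = a * (T - C y) + r ∧ r.degree < (e + 1 : ℕ) ∧ r.coeff e = g.eval y := by
  have T0 : T ≠ 0 := by rintro rfl; simp at hT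
  have Td := (degree_eq_iff_natDegree_eq T0).2 hT
  induction k with
  | zero => exact fun N h => ⟨0, by simp, fun y => ⟨0, N, by simp, h.trans (by norm_cast; omega),
      by rw [eval_zero]; exact coeff_eq_zero_of_degree_lt (by simpa using h)⟩⟩
  | succ k ih =>
    intro N h
    have r0 := Td ▸ degree_mod_lt N T0
    obtain ⟨g, g1, g2⟩ := ih (N / T) (by
      by_cases q0 : N / T = 0
      · rw [q0, degree_zero]; exact WithBot.bot_lt_coe _
      have := degree_add_div T0 (not_lt.1 fun k => q0 ((Polynomial.div_eq_zero_iff T0).2 k))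
      rw [← this, Td, degree_eq_natDegree q0] at h
      rw [degree_eq_natDegree q0]
      norm_cast at h ⊢
      rw [mul_add_one] at h
      omega)
    refine ⟨X * g + C ((N % T).coeff e), (degree_add_le _ _).trans_lt (max_lt ?_
      (degree_C_le.trans_lt (by norm_cast; omega))), fun y => ?_⟩
    · rw [degree_mul, degree_X, add_comm]
      exact_mod_cast WithBot.add_lt_add_right (by simp) g1
    obtain ⟨a, r, h1, h2, h3⟩ := g2 y
    refine ⟨N / T + C y * a, C y * r + N % T, ?_, (degree_add_le _ _).trans_lt (max_lt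
      ((degree_mul_le_of_le degree_C_le le_rfl).trans_lt (by simpa using h2)) r0), by simp [h3]⟩
    linear_combination C y * h1 - EuclideanDomain.div_add_mod N T

structure Rn (T : ℝ[X]) (F : Finset ℝ) (α β : ℝ) : Prop where
  lt : α < β
  deg : T.natDegree = F.card + 1
  der : derivative T = C ((F.card + 1) * T.leadingCoeff) * Lagrange.nodal F id
  ins : ∀ c ∈ F, c ∈ Set.Ioo α β
  s1 : ∀ c ∈ F, T.eval c ∉ Set.Ioo α β ∧ sg β (T.eval c) * T.leadingCoeff * Dn F c < 0
  s2 : ∀ z ∉ Set.Ioo α β, T.eval z ∉ Set.Ioo α β ∧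
    0 < sg β z * (sg β (T.eval z) * T.leadingCoeff * (Lagrange.nodal F id).eval z)

variable {μ : Measure ℝ} {α β : ℝ} {P : ℕ → ℝ[X]} {T : ℝ[X]} {F : Finset ℝ} {K : Set ℝ}

def Bal (H : Om μ α β P) (T : ℝ[X]) (K : Set ℝ) : Prop := ∀ φ g : ℝ[X],
  (∀ y ∈ K, ((T - C y).roots.map φ.eval).sum = g.eval y) → T.natDegree * H.I φ = H.I g

lemma Om.tr (H : Om μ α β P) (R : Rn T F α β) (D : Dy T K) (B : Bal H T K) {φ N N' : ℝ[X]} {k k' : ℕ}
    (h : Lagrange.nodal F id * φ = N * (P k).comp T + N' * (P k').comp T)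
    (d : N.degree < ((F.card + 1) * k + F.card : ℕ))
    (d' : N'.degree < ((F.card + 1) * k' + F.card : ℕ)) : H.I φ = 0 := by
  obtain ⟨g, g1, g2⟩ := gN R.deg k N d
  obtain ⟨g', g1', g2'⟩ := gN R.deg k' N' d'
  have := B φ (C (F.card + 1 : ℝ) * (P k * g + P k' * g')) fun y hy => by
    obtain ⟨a, r, h1, h2, h3⟩ := trace φ (T - C y).roots
    obtain ⟨a1, r1, u1, u2, u3⟩ := g2 y
    obtain ⟨a2, r2, v1, v2, v3⟩ := g2' y
    have f := D.fac hy
    have c := (D.rt y hy).1.trans R.deg
    have d := natDegree_multiset_prod_X_sub_C_eq_card (T - C y).roots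
    have m : ((T - C y).roots.map fun x => X - C x).prod.Monic :=
      monic_multiset_prod_of_monic _ _ fun _ _ => monic_X_sub_C _
    rw [c] at h2 h3 d
    rw [← h3]
    generalize ((T - C y).roots.map fun x => X - C x).prod = p at f h1 d m
    have e : derivative p = C (F.card + 1 : ℝ) * Lagrange.nodal F id := by
      refine mul_left_cancel₀ (C_ne_zero.2 D.lc) ?_
      rw [← derivative_C_mul, ← f, derivative_sub, derivative_C, sub_zero, R.der, C_mul]
      ring
    have cm : ∀ q : ℝ[X], ∃ b, q.comp T = C (q.eval y) + (T - C y) * b := fun q => by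
      obtain ⟨b, hb⟩ := X_sub_C_dvd_sub_C_eval (p := q) (a := y)
      exact ⟨b.comp T, by simpa [sub_eq_iff_eq_add'] using congrArg (fun p => p.comp T) hb⟩
    obtain ⟨b1, w1⟩ := cm (P k)
    obtain ⟨b2, w2⟩ := cm (P k')
    have dc : ∀ (c : ℝ) (r : ℝ[X]), r.degree < (F.card + 1 : ℕ) →
        degree (C c * r) < (F.card + 1 : ℕ) :=
      fun c r h => (degree_mul_le_of_le degree_C_le le_rfl).trans_lt (by simpa using h)
    have z : r - C (F.card + 1 : ℝ) * (C ((P k).eval y) * r1 + C ((P k').eval y) * r2) = 0 := by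
      refine eq_zero_of_dvd_of_degree_lt (p := p) ⟨C (F.card + 1 : ℝ) * C T.leadingCoeff *
        (N * b1 + N' * b2 + C ((P k).eval y) * a1 + C ((P k').eval y) * a2) - a, ?_⟩ ?_
      · rw [e] at h1
        rw [w1, w2, f] at h
        rw [f] at u1 v1
        linear_combination C (F.card + 1 : ℝ) * h - h1 + C (F.card + 1 : ℝ) * C ((P k).eval y) * u1 +
          C (F.card + 1 : ℝ) * C ((P k').eval y) * v1
      · rw [degree_eq_natDegree m.ne_zero, d]
        exact (degree_sub_le _ _).trans_lt (max_lt h2 (dc _ _ ((degree_add_le _ _).trans_lt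
          (max_lt (dc _ _ u2) (dc _ _ v2)))))
    rw [coeff_X_mul, sub_eq_zero.1 z]
    simp only [coeff_C_mul, coeff_add, u3, v3, eval_mul, eval_add, eval_C]
  rw [H.IC, map_add, H.orth g1, H.orth g1', add_zero, mul_zero, R.deg] at this
  exact (mul_eq_zero.1 this).resolve_left (by positivity)

noncomputable def EE (P : ℕ → ℝ[X]) (T : ℝ[X]) (k : ℕ) : ℝ[X] :=
  C (T.leadingCoeff⁻¹ ^ k) * (P k).comp T

noncomputable def aa (T : ℝ[X]) (F : Finset ℝ) (z x : ℝ) : ℝ :=
  |1 / (T.leadingCoeff * Dn (insert z F) x)|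

noncomputable def bb (T : ℝ[X]) (F : Finset ℝ) (x : ℝ) : ℝ := |1 / (T.leadingCoeff * Dn F x)|

lemma sg2 (β z : ℝ) : sg β z * sg β z = 1 := by unfold sg; split_ifs <;> simp

lemma Om.sgn (H : Om μ α β P) {z : ℝ} (hz : z ∉ Set.Ioo α β) (n : ℕ) : (P n).eval z ≠ 0 ∧
    0 < sg β z * rho P n z ∧ |rho P n z| = sg β z * rho P n z := by
  have := H.out (sg2 β z) le_rfl (z := z) (fun x hx => by
    unfold sg
    split_ifs with j
    · linarith [hx.2]
    · linarith [hx.1, not_lt.1 fun i => hz ⟨i, not_le.1 j⟩]) n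
  refine ⟨this.1, this.2.1, ?_⟩
  rw [← abs_of_pos this.2.1, abs_mul]
  unfold sg
  split_ifs <;> simp

lemma Om.EEm (H : Om μ α β P) (R : Rn T F α β) (D : Dy T K) (k : ℕ) :
    (EE P T k).Monic ∧ (EE P T k).natDegree = (F.card + 1) * k := by
  have := D.lc
  refine ⟨?_, by rw [EE, natDegree_C_mul (by positivity), natDegree_comp, (H.op k).2.1, R.deg, mul_comm]⟩
  rw [EE, Monic, leadingCoeff_mul, leadingCoeff_C, leadingCoeff_comp (by rw [R.deg]; simp),
    (H.op k).1.leadingCoeff, (H.op k).2.1]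
  simp [this]

lemma Om.EEr (H : Om μ α β P) (D : Dy T K) (k : ℕ) {x : ℝ} (hx : T.eval x ∉ Set.Ioo α β) :
    (EE P T k).eval x ≠ 0 ∧ (EE P T (k + 1)).eval x =
      rho P k (T.eval x) / T.leadingCoeff * (EE P T k).eval x := by
  have := D.lc
  have := (H.sgn hx k).1
  simp only [EE, eval_mul, eval_C, eval_comp, rho]
  exact ⟨by positivity, by rw [pow_succ]; field_simp⟩

lemma dlt {p q : ℝ[X]} {a b c : ℕ} (h : p.degree < a) (k : q.degree < b) (l : a + b ≤ c + 1) :
    (p * q).degree < c := by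
  by_cases p0 : p = 0
  · simp [p0]
  by_cases q0 : q = 0
  · simp [q0]
  rw [← natDegree_lt_iff_degree_lt ‹_›] at h k
  rw [← natDegree_lt_iff_degree_lt (mul_ne_zero p0 q0), natDegree_mul p0 q0]
  omega

lemma dl1 {p : ℝ[X]} {a : ℕ} (h : p.natDegree ≤ a) : p.degree < (a + 1 : ℕ) :=
  degree_le_natDegree.trans_lt (by exact_mod_cast Nat.lt_succ_of_le h)

lemma Om.E0 (H : Om μ α β P) (R : Rn T F α β) (D : Dy T K) (B : Bal H T K) (k : ℕ) :
    EE P T k = P ((F.card + 1) * k) :=
  H.uniq (H.EEm R D k).1 (H.EEm R D k).2 fun q hq => H.tr R D B (N' := 0) (k' := 0)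
    (N := C (T.leadingCoeff⁻¹ ^ k) * Lagrange.nodal F id * q) (k := k) (by rw [EE]; ring)
    (dlt (dl1 ((natDegree_C_mul_le _ _).trans Lagrange.natDegree_nodal.le)) hq (by omega)) (by simp)

lemma wabs {σ r t x : ℝ} (h : σ * σ = 1) (p : 0 < σ * (r / t / x)) :
    0 ≤ |1 / (t * x)| * |r| ∧ |1 / (t * x)| * |r| = σ * (r / t / x) := by
  refine ⟨by positivity, ?_⟩
  rw [← abs_of_pos p, abs_mul σ, ← abs_mul, show |σ| = 1 by
    rcases mul_self_eq_one_iff.1 h with rfl | rfl <;> simp, one_mul]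
  congr 1
  ring

lemma spos {s r t x : ℝ} (h : s * s = 1) (p : 0 < s * r) (q : 0 < s * t * x) : 0 < r / t / x := by
  have : 0 < r * (t * x) := (mul_pos p q).trans_eq (by linear_combination r * t * x * h)
  rw [div_div]
  exact div_pos_iff.2 (mul_pos_iff.1 this)

lemma Om.ren (H : Om μ α β P) (R : Rn T F α β) (D : Dy T K) (B : Bal H T K) (k : ℕ) {i : ℕ}
    (hi : i ≤ F.card) : ∃ S U : ℝ[X], S.Monic ∧ S.natDegree = i ∧ U.degree < (F.card - i : ℕ) ∧
      Lagrange.nodal F id * P ((F.card + 1) * k + i + 1) = S * EE P T (k + 1) + U * EE P T k ∧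
      (i < F.card → U.coeff (F.card - (i + 1)) =
        hm F (fun c => bb T F c * |rho P k (T.eval c)|) i) := by
  have hw : ∀ c ∈ F, 0 < -1 * (rho P k (T.eval c) / T.leadingCoeff / Dn F c) := fun c hc => by
    have := spos (sg2 β _) (H.sgn (R.s1 c hc).1 k).2.1 (x := -Dn F c) (t := T.leadingCoeff)
      (by linarith [(R.s1 c hc).2])
    rw [div_neg] at this
    linarith
  have w2 := fun c hc => wabs (by simp) (hw c hc)
  obtain ⟨S, s1, s2, s3⟩ := exOP (w := fun c => bb T F c * |rho P k (T.eval c)|)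
    (fun c hc => (hw c hc).trans_eq (w2 c hc).2.symm) hi
  set U := -Lagrange.interpolate F id fun c => S.eval c * (rho P k (T.eval c) / T.leadingCoeff) with hU
  have ev : ∀ c ∈ F, S.eval c * (rho P k (T.eval c) / T.leadingCoeff) + U.eval c = 0 := fun c hc => by
    rw [hU, eval_neg, add_neg_eq_zero]
    exact (Lagrange.eval_interpolate_at_node (v := id) (fun c => S.eval c * (rho P k (T.eval c) /
      T.leadingCoeff)) (Set.injOn_id _) hc).symm
  have du : U.degree < (F.card - i : ℕ) := lowd (by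
    rw [hU, degree_neg]; exact Lagrange.degree_interpolate_lt _ (Set.injOn_id _)) fun q hq => by
      rw [← s3 q hq]
      exact sum_congr rfl fun c hc => by
        simp only [bb]; rw [(w2 c hc).2]; linear_combination q.eval c / Dn F c * ev c hc
  have e1 := H.EEm R D (k + 1)
  have e0 := H.EEm R D k
  have m1 := s1.mul e1.1
  have n1 := s1.natDegree_mul e1.1
  rw [s2, e1.2] at n1
  have l : (U * EE P T k).degree < (S * EE P T (k + 1)).degree := by
    rw [degree_eq_natDegree m1.ne_zero, n1]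
    exact dlt du (dl1 e0.2.le) (by rw [mul_add_one]; omega)
  have z : (S * EE P T (k + 1) + U * EE P T k) %ₘ Lagrange.nodal F id = 0 :=
    eq_zero_of_degree_lt_of_eval_finset_eq_zero F ((degree_modByMonic_lt _
      Lagrange.nodal_monic).trans_eq Lagrange.degree_nodal) fun c hc => by
        rw [modByMonic_eq_sub_mul_div, eval_sub, eval_mul, show (Lagrange.nodal F id).eval c = 0 from
          Lagrange.eval_nodal_at_node (v := id) hc, eval_add, eval_mul, eval_mul,
          (H.EEr D k (R.s1 c hc).1).2]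
        linear_combination (EE P T k).eval c * ev c hc
  obtain ⟨p, hp⟩ := (modByMonic_eq_zero_iff_dvd Lagrange.nodal_monic).1 z
  have p1 : p.Monic := Lagrange.nodal_monic.of_mul_monic_left (hp ▸ m1.add_of_left l)
  have p2 : p.natDegree = (F.card + 1) * k + i + 1 := by
    have := (natDegree_eq_of_degree_eq (degree_add_eq_left_of_degree_lt l)).trans n1
    rw [hp, Lagrange.nodal_monic.natDegree_mul p1, Lagrange.natDegree_nodal, mul_add_one] at this
    omega
  refine ⟨S, U, s1, s2, du, ?_, fun j => ?_⟩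
  · rw [hp, H.uniq p1 p2 fun q hq => H.tr R D B (N := C (T.leadingCoeff⁻¹ ^ (k + 1)) * S * q)
      (k := k + 1) (N' := U * (C (T.leadingCoeff⁻¹ ^ k) * q)) (k' := k) (by
        rw [← mul_assoc, ← hp, EE, EE]; ring) (dlt (dl1 ((natDegree_C_mul_le _ _).trans s2.le)) hq
          (by rw [mul_add_one]; omega)) (dlt du ((degree_mul_le_of_le degree_C_le le_rfl).trans_lt
            ((zero_add _).trans_lt hq)) (by omega))]
  · simp only [bb]
    rw [opd (j := F.card - (i + 1)) (natDegree_le_of_degree_le (Order.le_of_lt_succ (by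
      rwa [show F.card - i = F.card - (i + 1) + 1 by omega] at du))) (by omega) s1 s2 ev w2]
    simp

end Pool.Agent.H.MP_e056c9_an
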