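import Pool.Agent.H.MP_e056c9_an.I

namespace Pool.Agent.H.MP_e056c9_an

open Polynomial MeasureTheory Finset Filter Classical

variable {μ : Measure ℝ} {α β : ℝ} {P : ℕ → ℝ[X]} {T : ℝ[X]} {F : Finset ℝ} {K : Set ℝ}

lemma Rn.sgw (R : Rn T F α β) {z : ℝ} (hz : z ∉ Set.Ioo α β) : z ∉ F ∧ ∀ x ∈ insert z F,
    T.eval x ∉ Set.Ioo α β ∧
      0 < sg β (T.eval x) * T.leadingCoeff * (sg β z * Dn (insert z F) x) := by
  have zF : z ∉ F := fun h => hz (R.ins z h)
  refine ⟨zF, forall_mem_insert _ _ _ |>.2 ⟨⟨(R.s2 z hz).1, ?_⟩, fun c hc => ⟨(R.s1 c hc).1, ?_⟩⟩⟩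
  · have := (R.s2 z hz).2
    rw [Lagrange.eval_nodal] at this
    rw [Dn, erase_insert zF]
    simp only [id] at this
    linarith
  · have cz : z ≠ c := fun e => zF (e ▸ hc)
    have : sg β z * (c - z) < 0 := by
      unfold sg
      split_ifs with j
      · linarith [(R.ins c hc).2]
      · linarith [(R.ins c hc).1, not_lt.1 fun i => hz ⟨i, not_le.1 j⟩]
    rw [Dn, erase_insert_of_ne cz, prod_insert fun h => zF (mem_of_mem_erase h)]
    exact (mul_pos_of_neg_of_neg this (R.s1 c hc).2).trans_eq (by rw [Dn]; ring)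

lemma Om.rel (H : Om μ α β P) (R : Rn T F α β) (D : Dy T K) (B : Bal H T K) (k : ℕ) {m : ℕ}
    (hm' : m ≤ F.card) {z : ℝ} (hz : z ∉ Set.Ioo α β) :
    |rho P ((F.card + 1) * k + m) z| * eta (fun x => T.eval x) F (bb T F) m (fun x => |rho P k x|) =
      hm (insert z F) (fun x => aa T F z x * |rho P k (T.eval x)|) m := by
  obtain ⟨S', U', s1, s2, s3, s4, -⟩ := H.ren R D B k hm'
  obtain ⟨S, U, u1, u2, u3, u4⟩ : ∃ S U : ℝ[X], S.degree < m ∧ U.natDegree ≤ F.card - m ∧
      Lagrange.nodal F id * P ((F.card + 1) * k + m) = S * EE P T (k + 1) + U * EE P T k ∧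
      U.coeff (F.card - m) = eta (fun x => T.eval x) F (bb T F) m (fun x => |rho P k x|) := by
    rcases m with _ | i
    · refine ⟨0, Lagrange.nodal F id, by simp, Lagrange.natDegree_nodal.le, by
        rw [H.E0 R D B k]; simp, ?_⟩
      have := (Lagrange.nodal_monic (s := F) (v := id)).coeff_natDegree
      rwa [Lagrange.natDegree_nodal] at this
    · obtain ⟨S, U, a1, a2, a3, a4, a5⟩ := H.ren R D B k (Nat.le_of_succ_le hm')
      exact ⟨S, U, dl1 a2.le, natDegree_le_of_degree_le (Order.le_of_lt_succ (by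
        rwa [show F.card - i = F.card - (i + 1) + 1 by omega] at a3)), a4, a5 hm'⟩
  obtain ⟨zF, sw⟩ := R.sgw hz
  obtain ⟨n0, -, n2⟩ := H.sgn hz ((F.card + 1) * k + m)
  set ρ := rho P ((F.card + 1) * k + m) z with hρ
  have l : (C ρ * S).degree < S'.degree := by
    rw [degree_eq_natDegree s1.ne_zero, s2]
    exact (degree_mul_le_of_le degree_C_le le_rfl).trans_lt ((zero_add _).trans_lt u1)
  rw [opd (U := U' - C ρ * U) (j := F.card - m) (σ := sg β z) (s := insert z F)
    (w := fun x => aa T F z x * |rho P k (T.eval x)|)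
    (ε := fun x => rho P k (T.eval x) / T.leadingCoeff) ((natDegree_sub_le _ _).trans (max_le
      (natDegree_le_of_degree_le s3.le) ((natDegree_C_mul_le _ _).trans u2)))
    (by rw [card_insert_of_notMem zF]; omega) (s1.sub_of_left l) ((natDegree_eq_of_degree_eq
      (degree_sub_eq_left_of_degree_lt l)).trans s2) (fun x hx => ?_) fun x hx => wabs (sg2 β z) ?_]
  · rw [coeff_sub, coeff_C_mul, coeff_eq_zero_of_degree_lt s3, u4, n2]
    ring
  · obtain ⟨e0, e1⟩ := H.EEr D k (sw x hx).1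
    have a := congrArg (eval x) s4
    have b := congrArg (eval x) u3
    have c : (Lagrange.nodal F id).eval x * ((P ((F.card + 1) * k + m + 1)).eval x -
        ρ * (P ((F.card + 1) * k + m)).eval x) = 0 := by
      rcases mem_insert.1 hx with rfl | j
      · rw [hρ, rho, div_mul_cancel₀ _ n0, sub_self, mul_zero]
      · exact mul_eq_zero_of_left (Lagrange.eval_nodal_at_node (v := id) j) _
    simp only [eval_mul, eval_add, eval_sub, eval_C, e1] at a b ⊢
    refine mul_left_cancel₀ e0 ?_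
    linear_combination c - a + ρ * b
  · refine (spos (sg2 β _) (H.sgn (sw x hx).1 k).2.1 (sw x hx).2).trans_eq ?_
    unfold sg
    split_ifs <;> simp [div_neg]

lemma lag (s : Multiset ℝ) (c σ : ℝ) : ∃ p : ℝ[X], p = (s.map fun x => X - C x).prod ∧
    0 ≤ (derivative p).eval c ^ 2 - p.eval c * (derivative (derivative p)).eval c ∧
    (s ≠ 0 → p.eval c ≠ 0 →
      0 < (derivative p).eval c ^ 2 - p.eval c * (derivative (derivative p)).eval c) ∧
    ((∀ x ∈ s, 0 ≤ σ * (c - x)) → 0 ≤ σ * (p.eval c * (derivative p).eval c) ∧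
      (σ ≠ 0 → s ≠ 0 → p.eval c ≠ 0 → 0 < σ * (p.eval c * (derivative p).eval c))) := by
  induction s using Multiset.induction_on with
  | empty => exact ⟨1, by simp⟩
  | cons x s ih =>
    obtain ⟨p, h1, h2, -, h4⟩ := ih
    refine ⟨(X - C x) * p, by simp [h1], ?_⟩
    simp only [derivative_mul, derivative_X_sub_C, derivative_add, eval_add, eval_mul, eval_sub,
      eval_X, eval_C, one_mul, Multiset.mem_cons, forall_eq_or_imp]
    have a := mul_nonneg (sq_nonneg (c - x)) h2
    refine ⟨by nlinarith [sq_nonneg (p.eval c)], fun _ j => by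
      nlinarith [sq_pos_of_ne_zero (right_ne_zero_of_mul j)], fun k => ?_⟩
    have b := mul_nonneg (sq_nonneg (c - x)) (h4 k.2).1
    exact ⟨by nlinarith [mul_nonneg k.1 (sq_nonneg (p.eval c))], fun i _ j => by
      nlinarith [mul_pos (k.1.lt_of_ne' (mul_ne_zero i (left_ne_zero_of_mul j)))
        (sq_pos_of_ne_zero (right_ne_zero_of_mul j))]⟩

lemma Dy.rn (D : Dy T K) (lt : α < β) (ha : α ∈ K) (hb : β ∈ K) (hK : K ⊆ Set.Icc α β) :
    Rn T (derivative T).roots.toFinset α β := by
  have lc := D.lc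
  have d2 := D.d2
  have L : ∀ y ∈ K, ∀ c, T.eval c ≠ y → (0 < (derivative T).eval c ^ 2 -
      (T.eval c - y) * (derivative (derivative T)).eval c) ∧ (c ∉ Set.Ioo α β →
        0 < sg β c * ((T.eval c - y) * (derivative T).eval c)) := fun y hy c j => by
    obtain ⟨p, h1, -, h3, h4⟩ := lag (T - C y).roots c (sg β c)
    have f := D.fac hy
    have n : (T - C y).roots ≠ 0 := fun e => by simpa [e] using (D.rt y hy).1.ge.trans' d2
    rw [← h1] at f
    have f0 := congrArg (eval c) f
    have f1 := congrArg derivative f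
    rw [derivative_sub, derivative_C, sub_zero, derivative_C_mul] at f1
    simp only [eval_sub, eval_mul, eval_C] at f0
    have p0 : p.eval c ≠ 0 := fun e => j (by rw [e, mul_zero, sub_eq_zero] at f0; exact f0)
    have t := sq_pos_of_ne_zero lc
    rw [f0, f1, derivative_C_mul]
    simp only [eval_mul, eval_C]
    refine ⟨(mul_pos t (h3 n p0)).trans_eq (by ring), fun hc => (mul_pos t ((h4 fun x hx => ?_).2
      (left_ne_zero_of_mul ((sg2 β c).trans_ne one_ne_zero)) n p0)).trans_eq (by ring)⟩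
    have := hK ((D.rt y hy).2 x hx)
    unfold sg
    split_ifs with i
    · linarith [this.2]
    · linarith [this.1, not_lt.1 fun k => hc ⟨k, not_le.1 i⟩]
  have nd : (derivative T).natDegree = T.natDegree - 1 := natDegree_derivative T
  have n0 : derivative T ≠ 0 := ne_zero_of_natDegree_gt (n := 0) (by omega)
  have cr : ∀ c, (derivative T).eval c = 0 → c ∈ Set.Ioo α β ∧ T.eval c ∉ Set.Ioo α β ∧
      sg β (T.eval c) * (derivative (derivative T)).eval c < 0 := fun c e => by
    have a := fun j => L α ha c j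
    have b := fun j => L β hb c j
    rw [e] at a b
    refine ⟨by_contra fun k => (eq_or_ne (T.eval c) α).elim (fun j => by
      simpa using (b (j ▸ lt.ne)).2 k) fun j => by simpa using (a j).2 k, fun k => by
        nlinarith [(a k.1.ne').1, (b k.2.ne).1, k.1, k.2], ?_⟩
    unfold sg
    split_ifs with i
    · nlinarith [(a (lt.trans_le i).ne').1]
    · nlinarith [(b (not_le.1 i).ne).1]
  have cd : (derivative T).roots.card = (derivative T).natDegree := le_antisymm (card_roots' _) (by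
    have := card_roots_le_derivative (T - C α)
    rw [derivative_sub, derivative_C, sub_zero, (D.rt α ha).1] at this
    omega)
  have nodup : (derivative T).roots.Nodup := Multiset.nodup_iff_count_le_one.2 fun c => by
    rw [count_roots]
    exact not_lt.1 fun k => by
      have := (one_lt_rootMultiplicity_iff_isRoot n0).1 k
      simpa [show (derivative (derivative T)).eval c = 0 from this.2] using (cr c this.1).2.2
  have cf := Multiset.toFinset_card_of_nodup nodup
  have dg : T.natDegree = (derivative T).roots.toFinset.card + 1 := by omega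
  have der : derivative T = C (((derivative T).roots.toFinset.card + 1) * T.leadingCoeff) *
      Lagrange.nodal (derivative T).roots.toFinset id := by
    have := C_leadingCoeff_mul_prod_multiset_X_sub_C cd
    rw [leadingCoeff_derivative, dg] at this
    rw [Lagrange.nodal, Finset.prod, Multiset.toFinset_val, nodup.dedup, mul_comm _ T.leadingCoeff]
    exact_mod_cast this.symm
  have mem : ∀ c ∈ (derivative T).roots.toFinset, (derivative T).eval c = 0 := fun c hc =>
    (mem_roots n0).1 (Multiset.mem_toFinset.1 hc)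
  generalize (derivative T).roots.toFinset = F at dg der mem ⊢
  have p : (0 : ℝ) < F.card + 1 := by positivity
  refine ⟨lt, dg, der, fun c hc => (cr c (mem c hc)).1, fun c hc => ⟨(cr c (mem c hc)).2.1, ?_⟩,
    fun z hz => ?_⟩
  · have := (cr c (mem c hc)).2.2
    rw [der, derivative_C_mul, eval_mul, eval_C, show eval c (derivative (Lagrange.nodal F id)) = _ from
      Lagrange.eval_nodal_derivative_eval_node_eq (v := id) hc, Lagrange.eval_nodal] at this
    simp only [id] at this
    rw [Dn]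
    nlinarith
  have a := fun j => (L α ha z j).2 hz
  have b := fun j => (L β hb z j).2 hz
  rw [der, eval_mul, eval_C] at a b
  refine ⟨fun k => by nlinarith [a k.1.ne', b k.2.ne, k.1, k.2], 
    (pos_iff_pos_of_mul_pos (a := (F.card + 1 : ℝ)) ?_).1 p⟩
  rw [sg.eq_1 β (T.eval z)]
  split_ifs with i
  · nlinarith [a (lt.trans_le i).ne']
  · nlinarith [b (not_le.1 i).ne]

lemma Om.ap (H : Om μ α β P) (D : Dy T K) (B : Bal H T K) (lt : α < β) (ha : α ∈ K) (hb : β ∈ K)
    (hK : K ⊆ Set.Icc α β) (es : ∀ x ∉ K, Tendsto (fun n => |(fun w => T.eval w)^[n] x|) atTop atTop)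
    (idem : ∀ e, e = α ∨ e = β → T.eval (T.eval e) = T.eval e) (gap : ∃ x ∈ Set.Icc α β, x ∉ K)
    {ε : ℝ} (hε : 0 < ε) : ∃ L : ℕ, ∀ m : ℕ, ∃ τ : ℕ, m ≤ τ ∧ τ ≤ m + L ∧ ∀ n,
      |H.b (n + τ) - H.b n| ≤ ε ∧ |H.A (n + τ) - H.A n| ≤ ε := by
  have R := D.rn lt ha hb hK
  have mem : ∀ c, (derivative T).eval c = 0 → c ∈ (derivative T).roots.toFinset := fun c h =>
    Multiset.mem_toFinset.2 ((mem_roots (ne_zero_of_natDegree_gt (n := 0) (by
      rw [natDegree_derivative]; have := D.d2; omega))).2 h)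
  generalize (derivative T).roots.toFinset = F at R mem
  obtain ⟨f, hf⟩ : ∃ f : ℝ → ℝ, f = fun w => T.eval w := ⟨_, rfl⟩
  have fe : ∀ w, T.eval w = f w := fun w => by rw [hf]
  obtain ⟨Y, hY⟩ : ∃ Y : Finset ℝ, Y = insert (β + 1) (insert (α - 1) (F.image f)) := ⟨_, rfl⟩
  obtain ⟨X, hX⟩ : ∃ X : Set ℝ, X = ⋃ y ∈ (Y : Set ℝ), Set.range fun n => f^[n] y := ⟨_, rfl⟩
  have mX : ∀ z, z ∈ X ↔ ∃ y ∈ Y, ∃ n, f^[n] y = z := fun z => by simp [hX]
  have oK : ∀ z ∉ Set.Ioo α β, z ∈ K ↔ z = α ∨ z = β := fun z hz => ⟨fun k => by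
    by_contra j
    push Not at j
    exact hz ⟨(hK k).1.lt_of_ne' j.1, (hK k).2.lt_of_ne j.2⟩, by rintro (rfl | rfl) <;> assumption⟩
  have fK : ∀ z, z ∈ K ↔ f z ∈ K := fun z => ⟨fun k => fe z ▸ D.fw z k, fun k => (D.rt _ k).2 z
    ((mem_roots fun e => by simpa [e] using (D.rt _ k).1.ge.trans' D.d2).2 (by simp [fe]))⟩
  have iK : ∀ n z, z ∈ K ↔ f^[n] z ∈ K := fun n => by
    induction n with
    | zero => exact fun z => Iff.rfl
    | succ n ih => exact fun z => (fK z).trans (ih _)
  have oY : ∀ y ∈ Y, ∀ n, f^[n] y ∉ Set.Ioo α β := fun y hy n => by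
    induction n with
    | zero =>
      simp only [hY, mem_insert, mem_image] at hy
      rcases hy with rfl | rfl | ⟨c, hc, rfl⟩
      exacts [fun k => by linarith [show β + 1 < β from k.2], fun k => by
        linarith [show α < α - 1 from k.1], fe c ▸ (R.s1 c hc).1]
    | succ n ih => rw [Function.iterate_succ_apply', ← fe]; exact (R.s2 _ ih).1
  have oX : ∀ z ∈ X, z ∉ Set.Ioo α β := fun z hz => by
    obtain ⟨y, hy, n, rfl⟩ := (mX z).1 hz
    exact oY y hy n
  have mp : ∀ z ∈ X, f z ∈ X := fun z hz => by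
    obtain ⟨y, hy, n, rfl⟩ := (mX z).1 hz
    exact (mX _).2 ⟨y, hy, n + 1, Function.iterate_succ_apply' _ _ _⟩
  have G : Geo f F X (aa T F) (bb T F) := by
    refine ⟨mp, fun c hc => (mX _).2 ⟨f c, by simp only [hY, mem_insert]; exact Or.inr (Or.inr
      (mem_image_of_mem f hc)), 0, rfl⟩, fun z hz => (le_or_gt β z).imp (fun k c hc =>
        (R.ins c hc).2.trans_le k) fun k c hc => (not_lt.1 fun i => oX z hz ⟨i, k⟩).trans_lt
          (R.ins c hc).1, fun r => ?_, fun z hz x hx => abs_pos.2 (one_div_ne_zero (mul_ne_zero D.lc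
            (right_ne_zero_of_mul (right_ne_zero_of_mul ((R.sgw (oX z hz)).2 x hx).2.ne')))),
      fun c hc => abs_pos.2 (one_div_ne_zero (mul_ne_zero D.lc
        (right_ne_zero_of_mul (R.s1 c hc).2.ne))), ?_⟩
    · refine (Y.finite_toSet.biUnion (t := fun y => {z | (∃ n, f^[n] y = z) ∧ |z| ≤ r})
        fun y hy => ?_).subset fun z hz => ?_
      · by_cases k : y ∈ K
        · exact (Set.toFinite {α, β}).subset fun z ⟨⟨n, e⟩, _⟩ =>
            (oK z (e ▸ oY y hy n)).1 (e ▸ (iK n y).1 k)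
        · obtain ⟨N, hN⟩ := eventually_atTop.1 ((es y k).eventually_gt_atTop r)
          exact ((Set.finite_lt_nat N).image fun n => f^[n] y).subset fun z ⟨⟨n, e⟩, j⟩ =>
            ⟨n, not_le.1 fun i => (hN n i).not_ge (by rw [← hf, e]; exact j), e⟩
      · obtain ⟨y, hy, n⟩ := (mX z).1 hz.1
        exact Set.mem_biUnion hy ⟨n, hz.2⟩
    by_contra j
    push Not at j
    obtain ⟨x, x1, x2⟩ := gap
    have cv : ∀ x ∈ Set.Icc α β, x = α ∨ x = β ∨ (derivative T).eval x = 0 → f x ∈ Set.Icc α β := by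
      rintro x hx (rfl | rfl | e)
      exacts [hK ((fK _).1 ha), hK ((fK _).1 hb), hK (by_contra fun i => j x (mem x e) (by have := es _ i; rwa [← hf] at this))]
    have ex : ∀ x ∈ Set.Icc α β, (x ∈ Set.Ioo α β → IsLocalExtr f x) → f x ∈ Set.Icc α β :=
      fun x hx e => cv x hx (hx.1.eq_or_lt.imp Eq.symm fun i => hx.2.eq_or_lt.imp_right fun k => by
        rw [← Polynomial.deriv, ← hf]; exact (e ⟨i, k⟩).deriv_eq_zero)
    have c : ContinuousOn f (Set.Icc α β) := hf ▸ T.continuous.continuousOn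
    obtain ⟨p, p1, p2⟩ := isCompact_Icc.exists_isMinOn ⟨x, x1⟩ c
    obtain ⟨q, q1, q2⟩ := isCompact_Icc.exists_isMaxOn ⟨x, x1⟩ c
    have a1 := (ex p p1 fun i => Or.inl (p2.isLocalMin (Icc_mem_nhds i.1 i.2))).1
    have a2 := (ex q q1 fun i => Or.inr (q2.isLocalMax (Icc_mem_nhds i.1 i.2))).2
    have it : ∀ n, f^[n] x ∈ Set.Icc α β := fun n => by
      induction n with
      | zero => exact x1
      | succ n ih => rw [Function.iterate_succ_apply']; exact ⟨a1.trans (p2 ih), (q2 ih).trans a2⟩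
    obtain ⟨n, hn⟩ := ((es x x2).eventually_gt_atTop (max |α| |β|)).exists
    exact hn.not_ge (hf ▸ abs_le_max_abs_abs (it n).1 (it n).2)
  obtain ⟨E, hE⟩ : ∃ E : Finset ℝ, ∀ z, z ∈ E ↔ z ∈ X ∧ z ∈ K :=
    ⟨({α, β} : Finset ℝ).filter (· ∈ X), fun z => by
      rw [mem_filter, and_comm, and_congr_right_iff]
      exact fun k => by rw [oK z (oX z k)]; simp⟩
  have eab : ∀ e ∈ E, e = α ∨ e = β := fun e he => (oK e (oX e ((hE e).1 he).1)).1 ((hE e).1 he).2
  have bd : ∀ z ∉ Set.Ioo α β, ∀ n, 0 < |rho P n z| ∧ max (z - β) (α - z) ≤ |rho P n z| ∧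
      |rho P n z| ≤ max (z - α) (β - z) := fun z hz n => by
    have k : ∀ x ∈ Set.Icc α β, 0 ≤ max (z - β) (α - z) ∧ max (z - β) (α - z) ≤ sg β z * (z - x) ∧
        sg β z * (z - x) ≤ max (z - α) (β - z) := fun x hx => by
      unfold sg
      split_ifs with j
      · exact ⟨le_max_of_le_left (by linarith), max_le (by linarith [hx.2]) (by linarith [hx.2]),
          le_max_of_le_left (by linarith [hx.1])⟩
      · have := not_lt.1 fun i => hz ⟨i, not_le.1 j⟩
        exact ⟨le_max_of_le_right (by linarith), max_le (by linarith [hx.1]) (by linarith [hx.1]),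
          le_max_of_le_right (by linarith [hx.2])⟩
    rw [(H.sgn hz n).2.2]
    exact ⟨(H.sgn hz n).2.1, (H.out (sg2 β z) (k α ⟨le_rfl, lt.le⟩).1 (fun x hx => (k x hx).2.1) n).2.2,
      H.up (sg2 β z) (fun x hx => ⟨(k x hx).1.trans (k x hx).2.1, (k x hx).2.2⟩) n⟩
  obtain ⟨δ, d0, hd⟩ := unif ((G.fin (|α| + |β| + 1)).toFinset.filter (· ∉ E))
    (p := fun z δ => δ ≤ max (z - β) (α - z)) (fun z hz => ⟨_, by
      obtain ⟨a, b⟩ := mem_filter.1 hz
      have a := ((Set.Finite.mem_toFinset _).1 a).1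
      exact not_le.1 fun k => b ((hE z).2 ⟨a, (oK z (oX z a)).2 (by
        by_contra j
        push Not at j
        exact oX z a ⟨lt_of_le_of_ne (by linarith [le_of_max_le_right k]) j.1.symm,
          lt_of_le_of_ne (by linarith [le_of_max_le_left k]) j.2⟩)⟩), le_rfl⟩)
    fun _ _ _ _ => le_trans
  have ty : (∀ e ∈ E, f e = e) ∨ ∃ g, ∀ e ∈ E, f e = g := by
    have i1 := idem α (Or.inl rfl)
    have i2 := idem β (Or.inr rfl)
    simp only [fe] at i1 i2
    rcases (oK _ (R.s2 α fun k => k.1.false).1).1 (D.fw α ha) with j1 | j1 <;>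
      rcases (oK _ (R.s2 β fun k => k.2.false).1).1 (D.fw β hb) with j2 | j2 <;> rw [fe] at j1 j2
    · exact Or.inr ⟨α, fun e he => by rcases eab e he with rfl | rfl <;> assumption⟩
    · exact Or.inl fun e he => by rcases eab e he with rfl | rfl <;> assumption
    · rw [j1, j2] at i1; exact absurd i1 lt.ne
    · exact Or.inr ⟨β, fun e he => by rcases eab e he with rfl | rfl <;> assumption⟩
  have tb : ∀ z ∈ X, z ∈ E ↔ f z ∈ E := fun z hz => by
    rw [hE, hE, ← fK]; exact and_congr_left' (iff_of_true hz (mp z hz))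
  have BD : Bd f F X (aa T F) (bb T F) (|α| + |β|) E (min δ 1) fun n z => |rho P n z| := by
    refine ⟨G, by positivity, by positivity, fun n z hz => ⟨abs_nonneg _, ?_⟩,
      fun n z hz => (bd z (oX z hz) n).1, fun k m hm => ⟨hm, fun z hz => ?_⟩,
      fun e he => ((hE e).1 he).1, fun n z hz k => le_trans ?_ (bd z (oX z hz) n).2.1, tb, ty,
      fun e he => ?_⟩
    · obtain ⟨-, a, b⟩ := bd z (oX z hz) n
      rw [max_le_iff] at a
      rw [le_max_iff] at b
      have := abs_nonneg α; have := abs_nonneg β; have := le_abs_self α; have := le_abs_self β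
      have := neg_abs_le α; have := neg_abs_le β; have := le_abs_self z; have := neg_abs_le z
      refine abs_le.2 ⟨?_, by rcases b with b | b <;> linarith⟩
      rcases abs_cases z with c | c <;> linarith
    · rw [hf]; exact H.rel R D B k hm (oX z hz)
    · rcases le_total |z| (|α| + |β| + 1) with j | j
      · exact min_le_of_left_le (hd z (mem_filter.2 ⟨(Set.Finite.mem_toFinset _).2 ⟨hz, j⟩, k⟩))
      · refine min_le_of_right_le (le_max_iff.2 ?_)
        have := abs_nonneg α; have := abs_nonneg β; have := le_abs_self β; have := neg_abs_le α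
        rcases abs_cases z with c | c
        exacts [Or.inl (by linarith), Or.inr (by linarith)]
    obtain ⟨y, hy, n, rfl⟩ := (mX e).1 ((hE e).1 he).1
    have yK := (iK n y).2 ((hE _).1 he).2
    have : ∃ c ∈ F, f c = y := by
      simp only [hY, mem_insert, mem_image] at hy
      rcases hy with rfl | rfl | h
      exacts [absurd (hK yK).2 (by linarith), absurd (hK yK).1 (by linarith), h]
    have yE := fun n => (hE _).2 ⟨(mX _).2 ⟨y, hy, n, rfl⟩, (iK n y).1 yK⟩
    rcases ty with j | ⟨g, j⟩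
    · exact Or.inl (by rwa [Function.iterate_fixed (j y (yE 0))])
    · rcases n with _ | n
      · exact Or.inl this
      · exact Or.inr fun e he => by rw [Function.iterate_succ_apply', j e he, j _ (yE n)]
  have z1 : β + 1 ∉ Set.Ioo α β := fun k => by linarith [k.2]
  have z2 : α - 1 ∉ Set.Ioo α β := fun k => by linarith [k.1]
  have b1 := fun n => bd _ z1 n
  have b2 := fun n => bd _ z2 n
  have g1 := fun n => H.sgn z1 n
  have g2 := fun n => H.sgn z2 n
  rw [sg, if_pos (by linarith)] at g1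
  rw [sg, if_neg (by linarith)] at g2
  have r1 := H.rr fun n => (g1 n).1
  have r2 := H.rr fun n => (g2 n).1
  simp only [max_le_iff] at b1 b2
  rw [max_eq_left (by linarith)] at b1
  rw [max_eq_right (by linarith)] at b2
  refine fin_ap (r := fun n => |rho P n (β + 1)|) (s := fun n => |rho P n (α - 1)|) (x := β + 1)
    (y := α - 1) (Δ := β + 1 - α) (fun n => ⟨⟨by linarith [(b1 n).2.1.1], (b1 n).2.2⟩,
      ⟨by linarith [(b2 n).2.1.2], by linarith [(b2 n).2.2]⟩, H.A0 n⟩) ?_ (fun n => ?_)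
    (fun η h0 => ?_) hε
  · rw [(g1 _).2.2, (g2 _).2.2, r1.1, r2.1]; constructor <;> ring
  · rw [(g1 _).2.2, (g2 _).2.2, (g1 _).2.2, (g2 _).2.2, r1.2, r2.2]
    simp only [neg_mul, one_mul, div_neg]
    exact ⟨trivial, by ring⟩
  have p : 0 < β + 1 - α := by linarith
  obtain ⟨s, hs⟩ := BD.per (γ₀ := 1 + η / (β + 1 - α)) (lt_add_of_pos_right _ (by positivity))
  have k : ∀ x y : ℝ, x ≤ β + 1 - α → y ≤ β + 1 - α → x ≤ (1 + η / (β + 1 - α)) * y ∧
      y ≤ (1 + η / (β + 1 - α)) * x → |x - y| ≤ η := fun x y a b c => by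
    have : ∀ x ≤ β + 1 - α, η / (β + 1 - α) * x ≤ η := fun x a => by
      rw [div_mul_eq_mul_div, div_le_iff₀ p]; gcongr
    exact abs_le.2 ⟨by linarith [this x a], by linarith [this y b]⟩
  exact ⟨(F.card + 1) ^ s, pow_pos (Nat.succ_pos _) _, fun n t => ⟨k _ _ (b1 _).2.2 (b1 _).2.2 (hs n t _
    ((mX _).2 ⟨_, hY ▸ mem_insert_self _ _, 0, rfl⟩) fun j => by linarith [(hK ((hE _).1 j).2).2]),
    k _ _ (by linarith [(b2 (n + (F.card + 1) ^ s * t)).2.2]) (by linarith [(b2 n).2.2]) (hs n t _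
      ((mX _).2 ⟨_, hY ▸ mem_insert_of_mem (mem_insert_self _ _), 0, rfl⟩) fun j => by
        linarith [(hK ((hE _).1 j).2).1])⟩⟩

end Pool.Agent.H.MP_e056c9_an
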