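import Pool.Agent.H.MP_e056c9_an.J

namespace Pool.Agent.H.MP_e056c9_an

open Polynomial MeasureTheory Set Filter Topology Pool.Agent.H.MP_7f7d18_an

lemma fil {f : ℂ[X]} (h2 : 2 ≤ f.natDegree) {S : Set ℂ}
    (hS : S = {z | Bornology.IsBounded (range fun n : ℕ => (fun w => f.eval w)^[n] z)}) :
    IsCompact S ∧ (∀ z, z ∈ S ↔ f.eval z ∈ S) ∧
      ∀ z ∉ S, Tendsto (fun n => ‖(fun w => f.eval w)^[n] z‖) atTop atTop := by
  obtain ⟨R, R0, hR⟩ : ∃ R > 0, ∀ z : ℂ, R ≤ ‖z‖ → 2 * ‖z‖ ≤ ‖f.eval z‖ := by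
    have := (tendsto_norm_atTop f.divX (natDegree_pos_iff_degree_pos.1 (by
      rw [natDegree_divX_eq_natDegree_tsub_one]; omega))
      (tendsto_comap (f := fun z : ℂ => ‖z‖))).eventually_ge_atTop 3
    obtain ⟨R, hR⟩ := eventually_atTop.1 (eventually_comap.1 this)
    refine ⟨max 1 (max R ‖f.coeff 0‖), by positivity, fun z hz => ?_⟩
    simp only [max_le_iff] at hz
    have a := norm_sub_le (f.eval z) (f.coeff 0)
    have b : f.eval z - f.coeff 0 = z * f.divX.eval z := by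
      have := congrArg (eval z) (X_mul_divX_add f)
      simp only [eval_add, eval_mul, eval_X, eval_C] at this
      linear_combination -this
    rw [b, norm_mul] at a
    nlinarith [hR _ hz.2.1 z rfl]
  set F : ℂ → ℂ := fun w => f.eval w with hF
  have gr : ∀ z, R ≤ ‖z‖ → ∀ n, 2 ^ n * ‖z‖ ≤ ‖F^[n] z‖ := fun z hz n => by
    induction n with
    | zero => simp
    | succ n ih =>
      rw [Function.iterate_succ_apply', pow_succ']
      linarith [hR (F^[n] z) (le_trans (by nlinarith [one_le_pow₀ (n := n) (one_le_two (α := ℝ))]) ih)]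
  have es : ∀ z N, R ≤ ‖F^[N] z‖ → Tendsto (fun n => ‖F^[n] z‖) atTop atTop := fun z N h => by
    rw [← tendsto_add_atTop_iff_nat N]
    simp only [Function.iterate_add_apply]
    exact tendsto_atTop_mono (gr _ h) ((tendsto_pow_atTop_atTop_of_one_lt one_lt_two).atTop_mul_const
      (R0.trans_le h))
  have e : ∀ z, z ∈ S ↔ ∀ n, ‖F^[n] z‖ ≤ R := fun z => by
    rw [hS, mem_ofPred_eq]
    refine ⟨fun h n => not_lt.1 fun k => ?_, fun h => isBounded_iff_forall_norm_le.2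
      ⟨R, forall_mem_range.2 h⟩⟩
    obtain ⟨M, hM⟩ := isBounded_iff_forall_norm_le.1 h
    obtain ⟨m, hm⟩ := ((es z n k.le).eventually_gt_atTop M).exists
    exact hm.not_ge (hM _ ⟨m, rfl⟩)
  refine ⟨Metric.isCompact_of_isClosed_isBounded ?_ (isBounded_iff_forall_norm_le.2
    ⟨R, fun z hz => (e z).1 hz 0⟩), fun z => ⟨fun h => (e _).2 fun n => (e z).1 h (n + 1),
      fun h => ?_⟩, fun z hz => ?_⟩
  · rw [show S = ⋂ n, {z | ‖F^[n] z‖ ≤ R} from Set.ext fun z => (e z).trans (by simp)]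
    exact isClosed_iInter fun n => isClosed_le (f.continuous.iterate n).norm continuous_const
  · rw [hS, mem_ofPred_eq] at h ⊢
    refine (h.insert z).subset ?_
    rintro _ ⟨_ | n, rfl⟩
    exacts [Or.inl rfl, Or.inr ⟨n, rfl⟩]
  · obtain ⟨n, hn⟩ := not_forall.1 ((e z).not.1 hz)
    exact es z n (not_le.1 hn).le

lemma flat {S : Set ℂ} (hS : IsCompact S) (h : frontier S ⊆ range ((↑) : ℝ → ℂ)) :
    frontier S = S := by
  obtain ⟨R, hR⟩ := hS.isBounded.exists_pos_norm_le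
  have a : ∀ U : Set ℂ, IsPreconnected U → (∀ z ∈ U, z.im ≠ 0) → ∀ w ∈ U, R < ‖w‖ → U ⊆ Sᶜ :=
    fun U c u w w1 w2 => (c.subset_or_subset isOpen_interior hS.isClosed.isOpen_compl
      (disjoint_compl_right.mono_left interior_subset) fun z hz => by_contra fun k => by
        rw [mem_union, not_or, notMem_compl_iff] at k
        obtain ⟨x, rfl⟩ := h ⟨subset_closure k.2, k.1⟩
        exact u _ hz (by simp)).resolve_left fun k => w2.not_ge (hR.2 w (interior_subset (k w1)))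
  have b : ∀ z ∈ S, z.im = 0 := fun z hz => by_contra fun k => (lt_or_gt_of_ne k).elim
    (fun j => a _ (convex_halfSpace_im_lt 0).isPreconnected (fun _ (h : _ < 0) => h.ne)
      (-((R + 1 : ℝ) * Complex.I)) (by simpa using by linarith [hR.1]) (by
        rw [norm_neg, norm_mul, Complex.norm_real, Real.norm_of_nonneg (by linarith [hR.1])]; simp) j hz)
    fun j => a _ (convex_halfSpace_im_gt 0).isPreconnected (fun _ (h : 0 < _) => h.ne')
      ((R + 1 : ℝ) * Complex.I) (by simpa using by linarith [hR.1]) (by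
        rw [norm_mul, Complex.norm_real, Real.norm_of_nonneg (by linarith [hR.1])]; simp) j hz
  rw [hS.isClosed.frontier_eq, sdiff_eq_left, disjoint_iff_forall_ne]
  rintro z - _ hz rfl
  obtain ⟨ε, e0, e1⟩ := Metric.mem_nhds_iff.1 (mem_interior_iff_mem_nhds.1 hz)
  have := b (z + (ε / 2 : ℝ) * Complex.I) (e1 (by
    rw [Metric.mem_ball, dist_self_add_left, norm_mul, Complex.norm_real, Real.norm_of_nonneg
      (by positivity)]; simpa))
  simp [b z (interior_subset hz), e0.ne'] at this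

lemma two {f : ℂ[X]} (h2 : 2 ≤ f.natDegree) {S : Set ℂ} (hi : ∀ z, z ∈ S ↔ f.eval z ∈ S)
    (hf : ∀ z, f.eval z = z → z ∈ S) : ∃ x ∈ S, ∃ y ∈ S, x ≠ y := by
  obtain ⟨y, hy⟩ := Complex.exists_root (f := f - X) (natDegree_pos_iff_degree_pos.1 (by
    rw [natDegree_sub_eq_left_of_natDegree_lt (by rw [natDegree_X]; omega)]; omega))
  have yS := hf y (by simpa [sub_eq_zero] using hy)
  by_contra k
  push Not at k
  have n0 : f - C y ≠ 0 := ne_zero_of_natDegree_gt (n := 0) (by rw [natDegree_sub_C]; omega)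
  have e := C_leadingCoeff_mul_prod_multiset_X_sub_C (IsAlgClosed.card_roots_eq_natDegree (p := f - C y))
  rw [Multiset.eq_replicate_card.2 fun z (hz : z ∈ (f - C y).roots) => k z ((hi z).2 (by
    have := (mem_roots n0).1 hz
    simp only [IsRoot.def, eval_sub, eval_C, sub_eq_zero] at this
    rwa [this])) y yS, IsAlgClosed.card_roots_eq_natDegree, natDegree_sub_C] at e
  have l := leadingCoeff_ne_zero.2 n0
  obtain ⟨n, hn⟩ : ∃ n, f.natDegree = n + 1 + 1 := ⟨f.natDegree - 2, by omega⟩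
  obtain ⟨w, hw⟩ := IsAlgClosed.exists_pow_nat_eq (f - C y).leadingCoeff⁻¹ n.succ_pos
  have := congrArg (eval (y + w)) e
  simp only [Multiset.map_replicate, Multiset.prod_replicate, eval_mul, eval_C, eval_pow, eval_sub,
    eval_X, add_sub_cancel_left, hn, pow_succ _ (n + 1), hw, ← mul_assoc, mul_inv_cancel₀ l] at this
  have := k _ (hf (y + w) (by linear_combination -this)) y yS
  rw [add_eq_left.1 this] at hw
  exact inv_ne_zero l (by simpa using hw.symm)

lemma real {f : ℂ[X]} (h2 : 2 ≤ f.natDegree) {S : Set ℂ} (hi : ∀ z, z ∈ S ↔ f.eval z ∈ S)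
    (hr : S ⊆ range ((↑) : ℝ → ℂ)) {x y : ℝ} (hx : (x : ℂ) ∈ S) (hy : (y : ℂ) ∈ S) (h : x ≠ y) :
    ∃ g : ℝ[X], g.map (algebraMap ℝ ℂ) = f := by
  have a : ∀ y : ℝ, (y : ℂ) ∈ S → ∃ p : ℝ[X], f = C f.leadingCoeff * p.map (algebraMap ℝ ℂ) + C (y : ℂ) := by
    intro y hy
    have n0 : f - C (y : ℂ) ≠ 0 := ne_zero_of_natDegree_gt (n := 0) (by rw [natDegree_sub_C]; omega)
    have e := C_leadingCoeff_mul_prod_multiset_X_sub_C
      (IsAlgClosed.card_roots_eq_natDegree (p := f - C (y : ℂ)))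
    rw [leadingCoeff_sub_of_degree_lt (degree_C_le.trans_lt (natDegree_pos_iff_degree_pos.1
      (by omega)))] at e
    refine ⟨((f - C (y : ℂ)).roots.map fun z => X - C z.re).prod, ?_⟩
    rw [Polynomial.map_multiset_prod, Multiset.map_map, Multiset.map_congr (g := fun z => X - C z) rfl
      fun z hz => ?_, e, sub_add_cancel]
    have := (mem_roots n0).1 hz
    simp only [IsRoot.def, eval_sub, eval_C, sub_eq_zero] at this
    obtain ⟨t, rfl⟩ := hr ((hi z).2 (by rwa [this]))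
    simp
  obtain ⟨p, hp⟩ := a x hx
  obtain ⟨q, hq⟩ := a y hy
  have e := congrArg (coeff · 0) (hp.symm.trans hq)
  simp only [coeff_add, coeff_C_mul, coeff_map, coeff_C_zero, Complex.coe_algebraMap] at e
  have n : (p.coeff 0 : ℂ) - q.coeff 0 ≠ 0 := fun k => h (by
    exact_mod_cast show (x : ℂ) = y by linear_combination e - f.leadingCoeff * k)
  refine ⟨C ((y - x) / (p.coeff 0 - q.coeff 0)) * p + C x, (hp.trans ?_).symm⟩
  rw [show f.leadingCoeff = ((y - x) / (p.coeff 0 - q.coeff 0) : ℝ) by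
    push_cast; field_simp; linear_combination e]
  simp

lemma mkDy {p : ℝ[X]} (h2 : 2 ≤ p.natDegree) {S : Set ℂ} (hS : IsCompact S)
    (hr : S ⊆ range ((↑) : ℝ → ℂ)) (ne : S.Nonempty) (hi : ∀ z, z ∈ S ↔ aeval z p ∈ S)
    (es : ∀ z ∉ S, Tendsto (fun n => ‖(fun w => aeval w p)^[n] z‖) atTop atTop) :
    Dy p {x | (x : ℂ) ∈ S} ∧ ∀ x ∉ {x : ℝ | (x : ℂ) ∈ S},
      Tendsto (fun n => |(fun w => p.eval w)^[n] x|) atTop atTop := by
  have ev : ∀ x : ℝ, aeval (x : ℂ) p = p.eval x := fun x => by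
    rw [← Complex.coe_algebraMap, aeval_algebraMap_apply]; simp
  have n0 : ∀ y, p - C y ≠ 0 := fun y =>
    ne_zero_of_natDegree_gt (n := 0) (by rw [natDegree_sub_C]; omega)
  refine ⟨⟨h2, Complex.isometry_ofReal.isClosedEmbedding.isCompact_preimage hS, ?_, fun y hy =>
    ⟨?_, fun x hx => (hi x).2 ?_⟩, fun x hx => by
      rw [mem_ofPred_eq, ← ev]; exact (hi x).1 hx, fun z hz => es z fun k => ?_⟩,
    fun x hx => (es x hx).congr fun n => ?_⟩
  · obtain ⟨z, hz⟩ := ne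
    obtain ⟨x, rfl⟩ := hr hz
    exact ⟨x, hz⟩
  · refine (splits_iff_card_roots.1 (Splits.of_splits_map (algebraMap ℝ ℂ) (IsAlgClosed.splits _)
      fun z hz => hr ((hi z).2 ?_))).trans natDegree_sub_C
    have := (mem_roots (map_ne_zero (n0 y))).1 hz
    rw [IsRoot.def, eval_map_algebraMap, map_sub, aeval_C, sub_eq_zero] at this
    rwa [this]
  · have := (mem_roots (n0 y)).1 hx
    simp only [IsRoot.def, eval_sub, eval_C, sub_eq_zero] at this
    rwa [ev, this]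
  · obtain ⟨x, rfl⟩ := hr k
    simp at hz
  · rw [← Real.norm_eq_abs, ← Complex.norm_real]
    congr 1
    induction n with
    | zero => rfl
    | succ n ih => rw [Function.iterate_succ_apply', Function.iterate_succ_apply', ih, ev]

theorem main (f : ℂ[X]) (h2 : 2 ≤ f.natDegree) (J : Set ℂ) (hJ : J = frontier
    {z : ℂ | Bornology.IsBounded (range fun n : ℕ => (fun w : ℂ => f.eval w)^[n] z)})
    (hr : J ⊆ range ((↑) : ℝ → ℂ)) (td : IsTotallyDisconnected J) (μ : Measure ℝ)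
    (pr : IsProbabilityMeasure μ) (hμ : μ {x : ℝ | (x : ℂ) ∉ J} = 0)
    (hm : ∀ ν : Measure ℝ, IsProbabilityMeasure ν → ν {x : ℝ | (x : ℂ) ∉ J} = 0 →
      ∫⁻ x, U (Metric.diam J + 1) μ x ∂μ ≤ ∫⁻ x, U (Metric.diam J + 1) ν x ∂ν) (P : ℕ → ℝ[X])
    (hP : ∀ n, (P n).Monic ∧ (P n).natDegree = n ∧ ∀ k < n, ∫ x, (P n).eval x * x ^ k ∂μ = 0)
    {ε : ℝ} (hε : 0 < ε) : ∃ L : ℕ, ∀ m : ℕ, ∃ τ : ℕ, m ≤ τ ∧ τ ≤ m + L ∧ ∀ n : ℕ,
      |(∫ x, x * (P (n + τ)).eval x ^ 2 ∂μ) / (∫ x, (P (n + τ)).eval x ^ 2 ∂μ)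
        - (∫ x, x * (P n).eval x ^ 2 ∂μ) / (∫ x, (P n).eval x ^ 2 ∂μ)| ≤ ε ∧
      |(∫ x, (P (n + τ + 1)).eval x ^ 2 ∂μ) / (∫ x, (P (n + τ)).eval x ^ 2 ∂μ)
        - (∫ x, (P (n + 1)).eval x ^ 2 ∂μ) / (∫ x, (P n).eval x ^ 2 ∂μ)| ≤ ε := by
  obtain ⟨S, hS⟩ : ∃ S, S = {z : ℂ | Bornology.IsBounded
    (range fun n : ℕ => (fun w : ℂ => f.eval w)^[n] z)} := ⟨_, rfl⟩
  obtain ⟨s1, s2, s3⟩ := fil h2 hS
  rw [← hS] at hJ
  obtain rfl := hJ.trans (flat s1 (hJ ▸ hr))
  obtain ⟨x, hx, y, hy, xy⟩ := two h2 s2 fun z hz => hS ▸ (Bornology.isBounded_singleton (x := z)).subset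
    (range_subset_iff.2 fun n => Function.iterate_fixed hz n)
  obtain ⟨x, rfl⟩ := hr hx
  obtain ⟨y, rfl⟩ := hr hy
  have xy : x ≠ y := fun e => xy (e ▸ rfl)
  obtain ⟨g, rfl⟩ := real h2 s2 hr hx hy xy
  simp only [eval_map_algebraMap] at s2 s3
  rw [natDegree_map] at h2
  obtain ⟨D1, -⟩ := mkDy h2 s1 hr ⟨_, hx⟩ s2 s3
  obtain ⟨D, es⟩ := mkDy (p := g.comp g) (by rw [natDegree_comp]; nlinarith) s1 hr ⟨_, hx⟩
    (fun z => by rw [aeval_comp, ← s2, ← s2]) fun z hz => ((s3 z hz).comp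
      (tendsto_id.const_mul_atTop' two_pos)).congr fun n => by
        simp only [Function.comp, id, Function.iterate_mul, aeval_comp]; rfl
  obtain ⟨α, a1, a2⟩ := D.cp.exists_isLeast D.ne
  obtain ⟨β, b1, b2⟩ := D.cp.exists_isGreatest D.ne
  have lt : α < β := (lt_or_gt_of_ne xy).elim (fun j => ((a2 hx).trans_lt j).trans_le (b2 hy))
    fun j => ((a2 hy).trans_lt j).trans_le (b2 hx)
  have hK : {x : ℝ | (x : ℂ) ∈ J} ⊆ Icc α β := fun z hz => ⟨a2 hz, b2 hz⟩
  obtain ⟨na, bal⟩ := D.bal (D := Metric.diam J + 1) (fun x hx y hy => by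
    have := Metric.dist_le_diam_of_mem s1.isBounded hx hy
    rw [Complex.isometry_ofReal.dist_eq, Real.dist_eq] at this
    linarith) hμ hm
  have H : Om μ α β P := ⟨pr, measure_mono_null (compl_subset_compl.2 hK) hμ, na, hP⟩
  have R := D1.rn lt a1 b1 hK
  have e : ∀ e, e = α ∨ e = β → g.eval e = α ∨ g.eval e = β := fun e he => by
    have k : e ∈ {x : ℝ | (x : ℂ) ∈ J} := by rcases he with rfl | rfl <;> assumption
    have := hK (D1.fw e k)
    by_contra j
    push Not at j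
    exact (R.s2 e (by rcases he with rfl | rfl <;> simp)).1
      ⟨this.1.lt_of_ne' j.1, this.2.lt_of_ne j.2⟩
  have := H.ap D (fun φ g h => bal _ _ φ.continuous g.continuous h) lt a1 b1 hK es (fun x hx => by
    simp only [eval_comp]
    rcases e α (Or.inl rfl) with j | j <;> rcases e β (Or.inr rfl) with k | k <;>
      rcases hx with rfl | rfl <;> simp only [j, k]) (by
    by_contra j
    push Not at j
    exact lt.ne (Complex.ofReal_injective (td _ (image_subset_iff.2 j) (isPreconnected_Icc.image _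
      Complex.continuous_ofReal.continuousOn) ⟨α, ⟨le_rfl, lt.le⟩, rfl⟩ ⟨β, ⟨lt.le, le_rfl⟩, rfl⟩))) hε
  simpa [Om.b, Om.A, Om.I, sq] using this

end Pool.Agent.H.MP_e056c9_an
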